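import Pool.Agent.Work.MP_2738db_nt_V.TK

/-!
Mertens' upper bound and a first moment bound for the smooth part of an integer.
-/

namespace Pool.Agent.Work.MP_2738db_nt_V

open Finset

lemma log_four_le : Real.log 4 ≤ 1.4 := by
  have h : Real.log 4 = 2 * Real.log 2 := by
    rw [show (4 : ℝ) = 2 ^ 2 by norm_num, Real.log_pow]; norm_num
  rw [h]
  have := Real.log_two_lt_d9
  linarith

lemma theta_nat_le (z : ℕ) : ∑ q ∈ (Ioc 0 z).filter Nat.Prime, Real.log q ≤ 1.4 * z := by
  have h1 := Chebyshev.theta_le_log4_mul_x (x := (z:ℝ)) (Nat.cast_nonneg z)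
  unfold Chebyshev.theta at h1
  rw [Nat.floor_natCast] at h1
  have h2 := log_four_le
  have h3 : Real.log 4 * z ≤ 1.4 * z := mul_le_mul_of_nonneg_right h2 (Nat.cast_nonneg z)
  linarith

/-- `∏_{q ≤ z} q^{⌊z/q⌋} ≤ z!` in logarithmic form -/
lemma sum_div_log_le (z : ℕ) : ∑ q ∈ (Ioc 0 z).filter Nat.Prime, ((z / q : ℕ) : ℝ) * Real.log q
    ≤ Real.log (z.factorial) := by
  have h1 : ∑ q ∈ (Ioc 0 z).filter Nat.Prime, ((z / q : ℕ) : ℝ) * Real.log q =
      Real.log ((∏ q ∈ (Ioc 0 z).filter Nat.Prime, q ^ (z / q) : ℕ) : ℝ) := by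
    push_cast
    rw [Real.log_prod]
    · apply Finset.sum_congr rfl
      intro q _
      rw [Real.log_pow]
    · intro q hq h
      rw [mem_filter] at hq
      have := hq.2.pos
      have h2 : (0:ℝ) < (q:ℝ) ^ (z / q) := by positivity
      rw [h] at h2
      exact lt_irrefl _ h2
  rw [h1]
  have hdvd : (∏ q ∈ (Ioc 0 z).filter Nat.Prime, q ^ (z / q)) ∣ z.factorial := by
    apply Finset.prod_dvd_of_isRelPrime
    · intro p hp q hq hpq
      simp only [coe_filter, Set.mem_ofPred_eq] at hp hq
      exact Nat.coprime_iff_isRelPrime.mp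
        (Nat.Coprime.pow _ _ ((Nat.coprime_primes hp.2 hq.2).mpr hpq))
    · intro q hq
      rw [mem_filter] at hq
      rw [hq.2.pow_dvd_factorial_iff (Nat.lt_succ_self _)]
      rcases Nat.eq_zero_or_pos (z / q) with h0 | h0
      · rw [h0]; exact Nat.zero_le _
      · have : z / q ^ 1 ≤ ∑ i ∈ Ico 1 (Nat.log q z + 1), z / q ^ i := by
          apply Finset.single_le_sum (f := fun i => z / q ^ i) (fun i _ => Nat.zero_le _)
          rw [mem_Ico]
          refine ⟨le_rfl, ?_⟩
          have : 1 ≤ Nat.log q z := by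
            apply Nat.le_log_of_pow_le hq.2.one_lt
            rw [pow_one]
            have := (mem_Ioc.mp hq.1).2
            exact this
          omega
        rw [pow_one] at this
        exact this
  apply Real.log_le_log
  · have : 0 < ∏ q ∈ (Ioc 0 z).filter Nat.Prime, q ^ (z / q) := by
      apply Nat.pos_of_ne_zero
      intro h0
      rw [h0] at hdvd
      exact Nat.factorial_ne_zero z (zero_dvd_iff.mp hdvd)
    exact_mod_cast this
  · exact_mod_cast Nat.le_of_dvd (Nat.factorial_pos z) hdvd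

lemma log_factorial_le (z : ℕ) : Real.log (z.factorial) ≤ z * Real.log z := by
  rcases Nat.eq_zero_or_pos z with h | h
  · subst h; simp
  · rw [← Real.log_pow]
    apply Real.log_le_log (by exact_mod_cast Nat.factorial_pos z)
    exact_mod_cast Nat.factorial_le_pow z

/-- Mertens upper bound -/
theorem mertens_upper (z : ℕ) (hz : 1 ≤ z) :
    ∑ q ∈ (Ioc 0 z).filter Nat.Prime, Real.log q / q ≤ Real.log z + 1.4 := by
  have h1 := (sum_div_log_le z).trans (log_factorial_le z)
  have h2 := theta_nat_le z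
  have hzR : (0:ℝ) < z := by exact_mod_cast hz
  have h3 : z * ∑ q ∈ (Ioc 0 z).filter Nat.Prime, Real.log q / q ≤
      ∑ q ∈ (Ioc 0 z).filter Nat.Prime, ((z / q : ℕ) : ℝ) * Real.log q +
      ∑ q ∈ (Ioc 0 z).filter Nat.Prime, Real.log q := by
    rw [Finset.mul_sum, ← Finset.sum_add_distrib]
    apply Finset.sum_le_sum
    intro q hq
    rw [mem_filter] at hq
    have hqpos : (0:ℝ) < q := by exact_mod_cast hq.2.pos
    have hlog : 0 ≤ Real.log q := Real.log_nonneg (by exact_mod_cast hq.2.one_lt.le)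
    have h4 : (z:ℝ) / q ≤ ((z / q : ℕ) : ℝ) + 1 := by
      rw [div_le_iff₀ hqpos]
      have := Nat.lt_div_mul_add (a := z) hq.2.pos
      have h5 : z ≤ (z / q + 1) * q := by rw [add_mul, one_mul]; omega
      exact_mod_cast h5
    calc z * (Real.log q / q) = (z / q) * Real.log q := by ring
      _ ≤ (((z / q : ℕ) : ℝ) + 1) * Real.log q := mul_le_mul_of_nonneg_right h4 hlog
      _ = _ := by ring
  have h6 : z * ∑ q ∈ (Ioc 0 z).filter Nat.Prime, Real.log q / q ≤ z * (Real.log z + 1.4) := by
    calc _ ≤ _ := h3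
      _ ≤ z * Real.log z + 1.4 * z := add_le_add h1 h2
      _ = _ := by ring
  exact le_of_mul_le_mul_left h6 hzR


noncomputable section

/-- the logarithm of the `Y`-smooth part of `a` -/
def ls (Y a : ℕ) : ℝ := ∑ p ∈ (Ioc 0 Y).filter Nat.Prime, (a.factorization p : ℝ) * Real.log p

lemma ls_nonneg (Y a : ℕ) : 0 ≤ ls Y a := by
  unfold ls
  apply sum_nonneg
  intro p hp
  rw [mem_filter] at hp
  have : 0 ≤ Real.log p := Real.log_nonneg (by exact_mod_cast hp.2.one_lt.le)
  positivity

lemma sum_factorization (N p : ℕ) :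
    ∑ a ∈ Icc 1 N, a.factorization p = (N.factorial).factorization p := by
  induction N with
  | zero => simp
  | succ N ih =>
    rw [Finset.sum_Icc_succ_top (by omega), ih, Nat.factorial_succ,
      Nat.factorization_mul (by omega) (Nat.factorial_ne_zero N)]
    simp [add_comm]

lemma factorization_factorial_le (N p : ℕ) (hp : p.Prime) :
    ((N.factorial).factorization p : ℝ) * (p - 1) ≤ N := by
  have h1 := sub_one_mul_padicValNat_factorial (p := p) (hp := ⟨hp⟩) N
  have h2 : (N.factorial).factorization p = padicValNat p N.factorial :=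
    Nat.factorization_def _ hp
  rw [h2]
  have h3 : (p - 1) * padicValNat p N.factorial ≤ N := by rw [h1]; exact Nat.sub_le _ _
  have h4 : ((p - 1 : ℕ) : ℝ) = p - 1 := by
    rw [Nat.cast_sub hp.one_lt.le]; simp
  have h5 : (((p - 1) * padicValNat p N.factorial : ℕ) : ℝ) ≤ N := by exact_mod_cast h3
  push_cast at h5
  rw [h4] at h5
  linarith

/-- first moment of the logarithm of the smooth part -/
theorem sum_ls_le (Y N : ℕ) (hY : 1 ≤ Y) : ∑ a ∈ Icc 1 N, ls Y a ≤ 2 * N * (Real.log Y + 1.4) := by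
  unfold ls
  rw [sum_comm]
  have h1 : ∀ p ∈ (Ioc 0 Y).filter Nat.Prime, ∑ a ∈ Icc 1 N, (a.factorization p : ℝ) * Real.log p ≤
      2 * N * (Real.log p / p) := by
    intro p hp
    rw [mem_filter] at hp
    have hlog : 0 ≤ Real.log p := Real.log_nonneg (by exact_mod_cast hp.2.one_lt.le)
    have hp2 : (2 : ℝ) ≤ p := by exact_mod_cast hp.2.two_le
    rw [← sum_mul]
    have h2 : ∑ a ∈ Icc 1 N, (a.factorization p : ℝ) = ((N.factorial).factorization p : ℝ) := by
      rw [← sum_factorization]; push_cast; rfl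
    rw [h2]
    have h3 := factorization_factorial_le N p hp.2
    have h4 : ((N.factorial).factorization p : ℝ) ≤ 2 * N / p := by
      rw [le_div_iff₀ (by linarith)]
      have h5 : (0 : ℝ) ≤ ((N.factorial).factorization p : ℝ) := Nat.cast_nonneg _
      nlinarith
    calc ((N.factorial).factorization p : ℝ) * Real.log p ≤ 2 * N / p * Real.log p :=
          mul_le_mul_of_nonneg_right h4 hlog
      _ = _ := by ring
  refine (sum_le_sum h1).trans ?_
  rw [← mul_sum]
  apply mul_le_mul_of_nonneg_left (mertens_upper Y hY) (by positivity)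

/-- few integers have a large smooth part -/
theorem cnt_ls_ge (Y N : ℕ) (hY : 1 ≤ Y) {t : ℝ} (ht : 0 < t) :
    cnt {a | t ≤ ls Y a} N ≤ 2 * N * (Real.log Y + 1.4) / t := by
  refine (cnt_markov ht (f := ls Y) (ls_nonneg Y) ?_).trans ?_
  · intro a _ _ ha; exact ha
  · apply div_le_div_of_nonneg_right (sum_ls_le Y N hY) ht.le

end

end Pool.Agent.Work.MP_2738db_nt_V
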