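import Pool.Agent.Work.MP_0b7501_nt.BT

/-!
A Brun-Titchmarsh inequality for the progression `1` modulo a prime `l`, uniform in `l`.
-/

namespace Pool.Agent.Work.MP_2738db_nt_V

open Finset ArithmeticFunction MP_0b7501_nt
open scoped ArithmeticFunction.Moebius ArithmeticFunction.zeta

lemma exists_residue {l d : ℕ} (hd : 0 < d) (hco : Nat.Coprime d l) (x : ℕ) :
    ∃ r, r < d ∧ ∀ m, d ∣ l * (x + m) + 1 ↔ m % d = r := by
  -- an inverse of `l`
  have : NeZero d := ⟨hd.ne'⟩
  have hu : IsUnit ((l : ℕ) : ZMod d) := (ZMod.isUnit_iff_coprime l d).mpr hco.symm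
  obtain ⟨u, hu⟩ := hu
  set r : ZMod d := -(↑u⁻¹ : ZMod d) - x with hr
  refine ⟨r.val, ZMod.val_lt r, fun m => ?_⟩
  have h1 : d ∣ l * (x + m) + 1 ↔ ((l * (x + m) + 1 : ℕ) : ZMod d) = 0 :=
    (ZMod.natCast_eq_zero_iff _ _).symm
  rw [h1]
  push_cast
  rw [← hu]
  constructor
  · intro h2
    have h3 : (m : ZMod d) = r := by
      have h4 : (u : ZMod d) * (x + m) = -1 := by
        linear_combination h2
      have h5 : (x : ZMod d) + m = (↑u⁻¹ : ZMod d) * (-1) := by
        rw [← h4, ← mul_assoc, Units.inv_mul, one_mul]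
      rw [hr]
      linear_combination h5
    rw [← h3, ZMod.val_natCast]
  · intro h2
    have h3 : (m : ZMod d) = r := by
      have h4 : ((m % d : ℕ) : ZMod d) = r := by rw [h2]; simp
      rwa [ZMod.natCast_mod] at h4
    rw [h3, hr]
    have h5 : (u : ZMod d) * (↑u⁻¹ : ZMod d) = 1 := Units.mul_inv u
    linear_combination -h5

lemma sqfree_le_coprime {l : ℕ} (hl : l.Prime) (R : ℕ) :
    ∑ q ∈ (Icc 1 R).filter Squarefree, (1 : ℝ) / q ≤
      3 / 2 * ∑ q ∈ (Icc 1 R).filter (fun q => Squarefree q ∧ Nat.Coprime q l), (1 : ℝ) / q := by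
  classical
  set A := (Icc 1 R).filter (fun q => Squarefree q ∧ Nat.Coprime q l) with hA
  have h1 : (Icc 1 R).filter Squarefree ⊆ A ∪ A.image (fun q => l * q) := by
    intro q hq
    rw [mem_filter, mem_Icc] at hq
    rw [mem_union]
    by_cases hco : Nat.Coprime q l
    · left; rw [hA, mem_filter, mem_Icc]; exact ⟨hq.1, hq.2, hco⟩
    · right
      rw [Nat.coprime_comm, hl.coprime_iff_not_dvd, not_not] at hco
      obtain ⟨k, rfl⟩ := hco
      rw [mem_image]
      refine ⟨k, ?_, rfl⟩
      have hk0 : 0 < k := Nat.pos_of_ne_zero (by rintro rfl; simp at hq)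
      rw [hA, mem_filter, mem_Icc]
      refine ⟨⟨hk0, ?_⟩, ?_, ?_⟩
      · exact (Nat.le_mul_of_pos_left k hl.pos).trans hq.1.2
      · exact hq.2.of_mul_right
      · rw [Nat.coprime_comm, hl.coprime_iff_not_dvd]
        rintro ⟨j, rfl⟩
        have := hq.2 l ⟨j, by ring⟩
        exact hl.one_lt.ne' (Nat.isUnit_iff.mp this)
  calc ∑ q ∈ (Icc 1 R).filter Squarefree, (1 : ℝ) / q
      ≤ ∑ q ∈ A ∪ A.image (fun q => l * q), (1 : ℝ) / q :=
        sum_le_sum_of_subset_of_nonneg h1 fun q _ _ => by positivity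
    _ ≤ ∑ q ∈ A, (1 : ℝ) / q + ∑ q ∈ A.image (fun q => l * q), (1 : ℝ) / q := by
        have h2 := sum_union_inter (s₁ := A) (s₂ := A.image (fun q => l * q)) (f := fun q : ℕ => (1 : ℝ) / q)
        have h3 : 0 ≤ ∑ q ∈ A ∩ A.image (fun q => l * q), (1 : ℝ) / q :=
          sum_nonneg fun q _ => by positivity
        linarith
    _ ≤ ∑ q ∈ A, (1 : ℝ) / q + 1 / 2 * ∑ q ∈ A, (1 : ℝ) / q := by
        apply add_le_add le_rfl
        rw [sum_image]
        · rw [mul_sum]
          apply sum_le_sum
          intro q hq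
          rw [hA, mem_filter, mem_Icc] at hq
          have hq0 : (0 : ℝ) < q := by exact_mod_cast hq.1.1
          have hl2 : (2 : ℝ) ≤ l := by exact_mod_cast hl.two_le
          push_cast
          rw [one_div_mul_one_div]
          apply one_div_le_one_div_of_le (by positivity)
          exact mul_le_mul_of_nonneg_right hl2 hq0.le
        · intro a _ b _ h
          exact Nat.eq_of_mul_eq_mul_left hl.pos h
    _ = _ := by ring

open Classical in
lemma sieve_bound_ap {l : ℕ} (hl : l.Prime) (x h R : ℕ) (hR : 1 ≤ R) :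
    (((range (h + 1)).filter (fun m => ∀ q, 0 < q → q ≤ R → Nat.Coprime q l →
      Nat.Coprime q (l * (x + m) + 1))).card : ℝ) *
      (Real.log (R + 1) / 3) ≤ 16 * (max h (R ^ 2) : ℕ) := by
  classical
  obtain ⟨D, w, hND, hw0, hw1, hdvd, heq⟩ := exists_weight h (R ^ 2) (Nat.one_le_pow _ _ hR)
  set W : ℝ := 16 * (max h (R ^ 2) : ℕ) with hW
  set g : ℕ → ℕ := fun m => l * (x + m) + 1 with hg
  set Qs := (Icc 1 R).filter (fun q => Squarefree q ∧ Nat.Coprime q l) with hQs
  set G : ℝ := ∑ q ∈ Qs, (μ q : ℝ) ^ 2 / Nat.totient q with hG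
  have hGlow : Real.log (R + 1) / 3 ≤ G := by
    have h1 : ∑ q ∈ Qs, (1 : ℝ) / q ≤ G := by
      apply Finset.sum_le_sum
      intro q hq
      rw [hQs, mem_filter, mem_Icc] at hq
      have h2 : (μ q : ℝ) ^ 2 = 1 := by
        have := ArithmeticFunction.moebius_sq_eq_one_of_squarefree hq.2.1
        exact_mod_cast this
      rw [h2]
      have hpos : 0 < Nat.totient q := Nat.totient_pos.mpr hq.1.1
      apply one_div_le_one_div_of_le (by exact_mod_cast hpos)
      exact_mod_cast Nat.totient_le q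
    have h2 := harmonic_le_sqfree R
    have h4 := sqfree_le_coprime hl R
    have h3 : Real.log (R + 1) ≤ ∑ k ∈ Icc 1 R, (1 : ℝ) / k := by
      have := log_add_one_le_harmonic R
      rw [harmonic_eq_sum_Icc] at this
      push_cast at this
      simpa [one_div] using this
    linarith
  have hG0 : 0 < G := lt_of_lt_of_le (by
    have : (1 : ℝ) < R + 1 := by
      have : (1 : ℝ) ≤ R := by exact_mod_cast hR
      linarith
    have := Real.log_pos this
    linarith) hGlow
  have hind : ∀ d, 1 ≤ d → d ≤ R ^ 2 → Nat.Coprime d l →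
      ∑ m ∈ range D, w m * (if d ∣ g m then (1 : ℝ) else 0) = W / d := by
    intro d h1 h2 h3
    obtain ⟨r, hr, hriff⟩ := exists_residue h1 h3 x
    rw [← heq d r h1 h2 hr, Finset.sum_filter]
    refine Finset.sum_congr rfl fun m _ => ?_
    simp only [hg, hriff]
    split_ifs <;> simp
  have hcross : ∀ q ∈ Qs, ∀ q' ∈ Qs, ∑ m ∈ range D, w m * (cq q (g m) * cq q' (g m)) =
      W * (if q = q' then (Nat.totient q : ℝ) else 0) := by
    intro q hq q' hq'
    rw [hQs, mem_filter, mem_Icc] at hq hq'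
    rw [← orthogonality q q' hq.1.1 hq'.1.1]
    unfold cq
    simp_rw [Finset.sum_mul_sum, Finset.mul_sum]
    rw [Finset.sum_comm]
    refine Finset.sum_congr rfl fun d hd => ?_
    rw [Finset.sum_comm]
    refine Finset.sum_congr rfl fun d' hd' => ?_
    have hd0 := Nat.pos_of_mem_divisors hd
    have hd'0 := Nat.pos_of_mem_divisors hd'
    have hdR : d ≤ R := (Nat.divisor_le hd).trans hq.1.2
    have hd'R : d' ≤ R := (Nat.divisor_le hd').trans hq'.1.2
    have hl1 : 1 ≤ Nat.lcm d d' := Nat.lcm_pos hd0 hd'0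
    have hl2 : Nat.lcm d d' ≤ R ^ 2 := by
      calc Nat.lcm d d' ≤ d * d' := Nat.lcm_le_mul hd0 hd'0
        _ ≤ R * R := Nat.mul_le_mul hdR hd'R
        _ = R ^ 2 := by ring
    have hl3 : Nat.Coprime (Nat.lcm d d') l := by
      have e1 : Nat.Coprime d l := Nat.Coprime.coprime_dvd_left (Nat.dvd_of_mem_divisors hd) hq.2.2
      have e2 : Nat.Coprime d' l := Nat.Coprime.coprime_dvd_left (Nat.dvd_of_mem_divisors hd') hq'.2.2
      exact Nat.Coprime.coprime_dvd_left (Nat.lcm_dvd (Dvd.intro _ rfl) (Dvd.intro_left _ rfl))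
        (Nat.Coprime.mul_left e1 e2)
    have h1 : ∀ m, w m * ((μ (q / d) : ℝ) * ((d : ℝ) * (if d ∣ g m then 1 else 0)) *
        ((μ (q' / d') : ℝ) * ((d' : ℝ) * (if d' ∣ g m then 1 else 0)))) =
        ((μ (q / d) : ℝ) * (μ (q' / d') : ℝ) * (d * d')) *
          (w m * (if Nat.lcm d d' ∣ g m then (1 : ℝ) else 0)) := by
      intro m
      have h2 : Nat.lcm d d' ∣ g m ↔ (d ∣ g m ∧ d' ∣ g m) := Nat.lcm_dvd_iff
      by_cases hA : d ∣ g m <;> by_cases hB : d' ∣ g m <;> simp [hA, hB, h2]
      ring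
    simp_rw [h1]
    rw [← Finset.mul_sum, hind _ hl1 hl2 hl3]
    have hgl : (Nat.gcd d d' : ℝ) * Nat.lcm d d' = d * d' := by
      exact_mod_cast Nat.gcd_mul_lcm d d'
    have hl0 : (Nat.lcm d d' : ℝ) ≠ 0 := by positivity
    rw [← hgl]
    field_simp
  let f : ℕ → ℝ := fun m => ∑ q ∈ Qs, (μ q : ℝ) / Nat.totient q * cq q (g m)
  have hf2 : ∑ m ∈ range D, w m * (f m) ^ 2 = W * G := by
    have h1 : ∀ m, w m * (f m) ^ 2 = ∑ q ∈ Qs, ∑ q' ∈ Qs,
        ((μ q : ℝ) / Nat.totient q) * ((μ q' : ℝ) / Nat.totient q') *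
          (w m * (cq q (g m) * cq q' (g m))) := by
      intro m
      simp only [f]
      rw [sq, Finset.sum_mul_sum, Finset.mul_sum]
      refine Finset.sum_congr rfl fun q _ => ?_
      rw [Finset.mul_sum]
      refine Finset.sum_congr rfl fun q' _ => ?_
      ring
    simp_rw [h1]
    rw [Finset.sum_comm, hG, Finset.mul_sum]
    refine Finset.sum_congr rfl fun q hq => ?_
    rw [Finset.sum_comm]
    have h2 : ∀ q' ∈ Qs, ∑ m ∈ range D, ((μ q : ℝ) / Nat.totient q) *
        ((μ q' : ℝ) / Nat.totient q') * (w m * (cq q (g m) * cq q' (g m))) =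
        if q = q' then W * ((μ q : ℝ) ^ 2 / Nat.totient q) else 0 := by
      intro q' hq'
      rw [← Finset.mul_sum, hcross q hq q' hq']
      by_cases h : q = q'
      · subst h
        rw [hQs, mem_filter, mem_Icc] at hq
        have hpos : (0 : ℝ) < Nat.totient q := by exact_mod_cast Nat.totient_pos.mpr hq.1.1
        simp only [if_true]
        field_simp
      · simp [h]
    rw [Finset.sum_congr rfl h2, Finset.sum_ite_eq, if_pos hq]
  set B := (range (h + 1)).filter (fun m => ∀ q, 0 < q → q ≤ R → Nat.Coprime q l →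
      Nat.Coprime q (l * (x + m) + 1)) with hB
  have hfB : ∀ m ∈ B, f m = G := by
    intro m hm
    rw [hB, mem_filter] at hm
    simp only [f, hG]
    refine Finset.sum_congr rfl fun q hq => ?_
    rw [hQs, mem_filter, mem_Icc] at hq
    rw [cq_coprime q _ hq.1.1 (hm.2 q hq.1.1 hq.1.2 hq.2.2)]
    ring
  have hmain : (B.card : ℝ) * G ^ 2 ≤ W * G := by
    calc (B.card : ℝ) * G ^ 2 = ∑ _m ∈ B, G ^ 2 := by simp
      _ ≤ ∑ m ∈ B, w m * (f m) ^ 2 := by
        apply Finset.sum_le_sum
        intro m hm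
        rw [hfB m hm]
        rw [hB, mem_filter, mem_range] at hm
        have := hw1 m (by omega)
        nlinarith [sq_nonneg G]
      _ ≤ ∑ m ∈ range D, w m * (f m) ^ 2 := by
        apply Finset.sum_le_sum_of_subset_of_nonneg
        · intro m hm
          rw [hB, mem_filter, mem_range] at hm
          rw [mem_range]; omega
        · intro m _ _
          exact mul_nonneg (hw0 m) (sq_nonneg _)
      _ = W * G := hf2
  have h1 : (B.card : ℝ) * G ≤ W := by
    have : (B.card : ℝ) * G * G ≤ W * G := by nlinarith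
    exact le_of_mul_le_mul_right this hG0
  calc (B.card : ℝ) * (Real.log (R + 1) / 3) ≤ (B.card : ℝ) * G := by
        apply mul_le_mul_of_nonneg_left hGlow; positivity
    _ ≤ W := h1

/-- Brun-Titchmarsh for primes `= 1` modulo `l` in a short interval -/
theorem bt_ap {l : ℕ} (hl : l.Prime) (X H : ℕ) (hH : l ≤ H) :
    (((Ioc X (X + H)).filter (fun p => p.Prime ∧ p % l = 1)).card : ℝ) ≤
      110 * ((H / l + 1 : ℕ) : ℝ) / Real.log ((H / l + 1 : ℕ) : ℝ) := by
  classical
  set h := H / l + 1 with hh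
  have hh2 : 2 ≤ h := by
    have : 1 ≤ H / l := Nat.div_pos hH hl.pos
    omega
  set R := Nat.sqrt h with hRdef
  have hR : 1 ≤ R := by
    rw [hRdef, Nat.one_le_iff_ne_zero]
    intro h0
    rw [Nat.sqrt_eq_zero] at h0
    omega
  have hR2 : R ^ 2 ≤ h := by rw [hRdef, sq]; exact Nat.sqrt_le h
  have hlogh : 0 < Real.log h := Real.log_pos (by exact_mod_cast (by omega : 1 < h))
  have hlogR : Real.log h / 2 ≤ Real.log (R + 1) := by
    have h1 : (h : ℝ) ≤ ((R : ℝ) + 1) ^ 2 := by
      have := Nat.lt_succ_sqrt h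
      have h2 : h ≤ (R + 1) ^ 2 := by rw [sq]; exact this.le
      exact_mod_cast h2
    have h2 := Real.log_le_log (by exact_mod_cast (by omega : 0 < h)) h1
    rw [Real.log_pow] at h2
    push_cast at h2
    linarith
  have hsb := sieve_bound_ap hl (X / l) h R hR
  rw [max_eq_left hR2] at hsb
  set B := (range (h + 1)).filter (fun m => ∀ q, 0 < q → q ≤ R → Nat.Coprime q l →
      Nat.Coprime q (l * (X / l + m) + 1)) with hB
  have hBle : (B.card : ℝ) ≤ 96 * h / Real.log h := by
    rw [le_div_iff₀ hlogh]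
    have : (B.card : ℝ) * (Real.log h / 6) ≤ (B.card : ℝ) * (Real.log (R + 1) / 3) := by
      apply mul_le_mul_of_nonneg_left _ (by positivity)
      linarith
    nlinarith
  have hsub : (Ioc X (X + H)).filter (fun p => p.Prime ∧ p % l = 1) ⊆
      (B.image (fun m => l * (X / l + m) + 1)) ∪ Icc 1 R := by
    intro p hp
    rw [mem_filter, mem_Ioc] at hp
    obtain ⟨⟨hp1, hp2⟩, hpp, hpl⟩ := hp
    rw [mem_union, mem_image, mem_Icc]
    by_cases hpR : p ≤ R
    · right; exact ⟨hpp.one_lt.le, hpR⟩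
    · left
      have hk : p = l * (p / l) + 1 := by
        have := Nat.div_add_mod p l
        omega
      have hk1 : X / l ≤ p / l := Nat.div_le_div_right hp1.le
      refine ⟨p / l - X / l, ?_, ?_⟩
      · rw [hB, mem_filter, mem_range]
        refine ⟨?_, ?_⟩
        · -- size
          have h3 : p / l ≤ (X + H) / l := Nat.div_le_div_right hp2
          have h4 : (X + H) / l < X / l + H / l + 2 := by
            apply Nat.div_lt_of_lt_mul
            have e1 := Nat.div_add_mod X l
            have e2 := Nat.div_add_mod H l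
            have e3 := Nat.mod_lt X hl.pos
            have e4 := Nat.mod_lt H hl.pos
            have e5 : l * (X / l + H / l + 2) = l * (X / l) + l * (H / l) + 2 * l := by ring
            omega
          omega
        · intro q hq0 hqR hql
          rw [show X / l + (p / l - X / l) = p / l by omega, ← hk]
          rw [Nat.coprime_comm, Nat.Prime.coprime_iff_not_dvd hpp]
          intro hdvd
          have := Nat.le_of_dvd hq0 hdvd
          omega
      · rw [show X / l + (p / l - X / l) = p / l by omega, ← hk]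
  have hcard : (((Ioc X (X + H)).filter (fun p => p.Prime ∧ p % l = 1)).card : ℝ) ≤ B.card + R := by
    have h1 := Finset.card_le_card hsub
    have h2 := Finset.card_union_le (B.image (fun m => l * (X / l + m) + 1)) (Icc 1 R)
    have h3 : (B.image (fun m => l * (X / l + m) + 1)).card ≤ B.card := Finset.card_image_le
    have h4 : (Icc 1 R).card = R := by simp
    have h5 : ((Ioc X (X + H)).filter (fun p => p.Prime ∧ p % l = 1)).card ≤ B.card + R := by omega
    exact_mod_cast h5
  have hRle : (R : ℝ) ≤ 2 * h / Real.log h := by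
    rw [le_div_iff₀ hlogh]
    have h1 : Real.log h ≤ 2 * Real.sqrt h := by
      have h2 : Real.log (Real.sqrt h) ≤ Real.sqrt h := by
        have := Real.log_le_sub_one_of_pos (Real.sqrt_pos.mpr (by exact_mod_cast (by omega : 0 < h) : (0:ℝ) < h))
        linarith
      rw [Real.log_sqrt (by positivity)] at h2
      linarith
    have h3 : (R : ℝ) ≤ Real.sqrt h := by
      apply Real.le_sqrt_of_sq_le
      exact_mod_cast hR2
    have h4 : Real.sqrt h * Real.sqrt h = h := Real.mul_self_sqrt (by positivity)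
    have h5 : 0 ≤ Real.sqrt h := Real.sqrt_nonneg _
    nlinarith
  have hfin : (96 * h / Real.log h : ℝ) + 2 * h / Real.log h ≤ 110 * h / Real.log h := by
    rw [← add_div]
    apply div_le_div_of_nonneg_right _ hlogh.le
    have : (0 : ℝ) ≤ h := by positivity
    linarith
  linarith

end Pool.Agent.Work.MP_2738db_nt_V
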