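import Pool.Agent.Work.MP_2738db_nt_V.TK
import Pool.Agent.Work.PNT70.PNT

/-!
`∑_{x < p ≤ y, p = a mod q} 1 / p = (log log y - log log x) / φ(q) + o(...)`.
-/

namespace Pool.Agent.Work.MP_2738db_nt_V

open Finset Filter Topology ArithmeticFunction

noncomputable section

/-- summation by parts -/
lemma abel_identity (b f : ℕ → ℝ) (x y : ℕ) (hxy : x ≤ y) :
    ∑ k ∈ Ioc x y, b k * f k = (∑ k ∈ Icc 1 y, b k) * f (y + 1) - (∑ k ∈ Icc 1 x, b k) * f (x + 1) +
      ∑ k ∈ Ioc x y, (∑ j ∈ Icc 1 k, b j) * (f k - f (k + 1)) := by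
  induction y, hxy using Nat.le_induction with
  | base => simp
  | succ y hxy ih =>
    rw [Finset.sum_Ioc_succ_top (by omega), Finset.sum_Ioc_succ_top (by omega), ih]
    have h : ∑ k ∈ Icc 1 (y + 1), b k = ∑ k ∈ Icc 1 y, b k + b (y + 1) :=
      Finset.sum_Icc_succ_top (by omega) _
    rw [h]
    ring

lemma abel_bound (b f : ℕ → ℝ) (x y : ℕ) (hxy : x ≤ y) {ε : ℝ}
    (hf0 : ∀ k, x < k → 0 ≤ f k) (hf : ∀ k, x < k → f (k + 1) ≤ f k)
    (hb : ∀ n, x ≤ n → |∑ k ∈ Icc 1 n, b k| ≤ ε * n) :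
    |∑ k ∈ Ioc x y, b k * f k| ≤ ε * (∑ k ∈ Ioc x y, f k + 2 * (x * f (x + 1))) := by
  have h1 := abel_identity b f x y hxy
  have h2 := abel_identity (fun _ => 1) f x y hxy
  simp only [one_mul, sum_const, Nat.card_Icc, Nat.add_sub_cancel, nsmul_eq_mul, mul_one] at h2
  have h3 : |∑ k ∈ Ioc x y, (∑ j ∈ Icc 1 k, b j) * (f k - f (k + 1))| ≤
      ∑ k ∈ Ioc x y, ε * (k * (f k - f (k + 1))) := by
    refine (abs_sum_le_sum_abs _ _).trans (sum_le_sum ?_)
    intro k hk
    rw [mem_Ioc] at hk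
    rw [abs_mul, abs_of_nonneg (sub_nonneg.mpr (hf k hk.1)), ← mul_assoc]
    exact mul_le_mul_of_nonneg_right (hb k (by omega)) (sub_nonneg.mpr (hf k hk.1))
  rw [← mul_sum] at h3
  have h4 : |(∑ k ∈ Icc 1 y, b k) * f (y + 1)| ≤ ε * y * f (y + 1) := by
    rw [abs_mul, abs_of_nonneg (hf0 (y + 1) (by omega))]
    exact mul_le_mul_of_nonneg_right (hb y hxy) (hf0 (y + 1) (by omega))
  have h5 : |(∑ k ∈ Icc 1 x, b k) * f (x + 1)| ≤ ε * x * f (x + 1) := by
    rw [abs_mul, abs_of_nonneg (hf0 (x + 1) (by omega))]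
    exact mul_le_mul_of_nonneg_right (hb x le_rfl) (hf0 (x + 1) (by omega))
  have h6 : ε * (∑ k ∈ Ioc x y, f k + 2 * (x * f (x + 1))) = ε * y * f (y + 1) +
      ε * x * f (x + 1) + ε * ∑ k ∈ Ioc x y, (k : ℝ) * (f k - f (k + 1)) := by
    rw [h2]; ring
  rw [h1, h6]
  rw [abs_le] at h3 h4 h5 ⊢
  constructor <;> linarith

/-- `1 / (k log k)` -/
def ff (k : ℕ) : ℝ := 1 / (k * Real.log k)

lemma ff_nonneg (k : ℕ) : 0 ≤ ff k := by
  unfold ff
  rcases Nat.eq_zero_or_pos k with h | h
  · subst h; simp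
  · have : 0 ≤ Real.log k := Real.log_nonneg (by exact_mod_cast h)
    positivity

lemma ff_anti (k : ℕ) (hk : 2 ≤ k) : ff (k + 1) ≤ ff k := by
  unfold ff
  have hk' : (2 : ℝ) ≤ k := by exact_mod_cast hk
  have h1 : 0 < Real.log k := Real.log_pos (by linarith)
  have h2 : Real.log k ≤ Real.log ((k + 1 : ℕ) : ℝ) :=
    Real.log_le_log (by linarith) (by push_cast; linarith)
  apply one_div_le_one_div_of_le (by positivity)
  apply mul_le_mul (by push_cast; linarith) h2 h1.le (by positivity)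

/-- `log log n` -/
def LL (n : ℕ) : ℝ := Real.log (Real.log n)

lemma ff_le (k : ℕ) (hk : 3 ≤ k) : ff k ≤ LL k - LL (k - 1) := by
  unfold ff LL
  have hk' : (3 : ℝ) ≤ k := by exact_mod_cast hk
  have hc : ((k - 1 : ℕ) : ℝ) = k - 1 := by rw [Nat.cast_sub (by omega)]; simp
  rw [hc]
  have h1 : 0 < Real.log (k - 1 : ℝ) := Real.log_pos (by linarith)
  have h2 : 0 < Real.log k := Real.log_pos (by linarith)
  rw [← Real.log_div h2.ne' h1.ne']
  have h3 : Real.log ((k : ℝ) - 1) ≤ Real.log k - 1 / k := by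
    have h4 : Real.log ((k - 1) / k) ≤ (k - 1) / k - 1 := by
      apply Real.log_le_sub_one_of_pos
      apply div_pos <;> linarith
    rw [Real.log_div (by linarith) (by linarith)] at h4
    have h5 : ((k : ℝ) - 1) / k - 1 = -(1 / k) := by field_simp; ring
    linarith
  have h4 : 1 - Real.log (k - 1 : ℝ) / Real.log k ≤ Real.log (Real.log k / Real.log (k - 1 : ℝ)) := by
    have := Real.log_le_sub_one_of_pos (x := Real.log (k - 1 : ℝ) / Real.log k) (div_pos h1 h2)
    rw [Real.log_div h1.ne' h2.ne'] at this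
    rw [Real.log_div h2.ne' h1.ne']
    linarith
  refine le_trans ?_ h4
  rw [div_le_iff₀ (by positivity)]
  have : (1 - Real.log (k - 1 : ℝ) / Real.log k) * (k * Real.log k) =
      k * (Real.log k - Real.log (k - 1 : ℝ)) := by
    field_simp
  rw [this]
  have h6 : 1 = (k : ℝ) * (1 / k) := by field_simp
  nlinarith

lemma ff_ge (k : ℕ) (hk : 2 ≤ k) : LL (k + 1) - LL k ≤ ff k := by
  unfold ff LL
  have hk' : (2 : ℝ) ≤ k := by exact_mod_cast hk
  push_cast
  have h1 : 0 < Real.log (k + 1 : ℝ) := Real.log_pos (by linarith)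
  have h2 : 0 < Real.log k := Real.log_pos (by linarith)
  rw [← Real.log_div h1.ne' h2.ne']
  refine (Real.log_le_sub_one_of_pos (div_pos h1 h2)).trans ?_
  have h3 : Real.log ((k : ℝ) + 1) ≤ Real.log k + 1 / k := by
    have h4 : Real.log ((k + 1) / k) ≤ (k + 1) / k - 1 := by
      apply Real.log_le_sub_one_of_pos
      apply div_pos <;> linarith
    rw [Real.log_div (by linarith) (by linarith)] at h4
    have h5 : ((k : ℝ) + 1) / k - 1 = 1 / k := by field_simp; ring
    linarith
  rw [le_div_iff₀ (by positivity)]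
  have : (Real.log (k + 1 : ℝ) / Real.log k - 1) * (k * Real.log k) =
      k * (Real.log (k + 1 : ℝ) - Real.log k) := by
    field_simp
  rw [this]
  have h6 : 1 = (k : ℝ) * (1 / k) := by field_simp
  nlinarith

lemma sum_ff_le (x y : ℕ) (hx : 2 ≤ x) (hxy : x ≤ y) : ∑ k ∈ Ioc x y, ff k ≤ LL y - LL x := by
  induction y, hxy using Nat.le_induction with
  | base => simp
  | succ y hxy ih =>
    rw [Finset.sum_Ioc_succ_top (by omega)]
    have := ff_le (y + 1) (by omega)
    simp only [Nat.add_sub_cancel] at this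
    linarith

lemma sum_ff_ge (x y : ℕ) (hx : 2 ≤ x) (hxy : x ≤ y) :
    LL (y + 1) - LL (x + 1) ≤ ∑ k ∈ Ioc x y, ff k := by
  induction y, hxy using Nat.le_induction with
  | base => simp
  | succ y hxy ih =>
    rw [Finset.sum_Ioc_succ_top (by omega)]
    have := ff_ge (y + 1) (by omega)
    linarith

lemma LL_mono {x y : ℕ} (hx : 2 ≤ x) (hxy : x ≤ y) : LL x ≤ LL y := by
  unfold LL
  have hx' : (2 : ℝ) ≤ x := by exact_mod_cast hx
  have hxy' : (x : ℝ) ≤ y := by exact_mod_cast hxy
  apply Real.log_le_log (Real.log_pos (by linarith))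
  exact Real.log_le_log (by linarith) hxy'

/-- the primes in `(x, y]` that are `= a` modulo `q` -/
def PA (q : ℕ) (a : ZMod q) (x y : ℕ) : Finset ℕ :=
  (Ioc x y).filter (fun p => p.Prime ∧ (p : ZMod q) = a)

lemma sum_residueClass_eq {q : ℕ} (a : ZMod q) (x y : ℕ) :
    ∑ k ∈ Ioc x y, vonMangoldt.residueClass a k * ff k = rs (PA q a x y) +
      ∑ k ∈ Ioc x y, (if k.Prime then 0 else vonMangoldt.residueClass a k) * ff k := by
  unfold rs PA
  rw [sum_filter, ← sum_add_distrib]
  apply sum_congr rfl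
  intro k hk
  rw [mem_Ioc] at hk
  by_cases hp : k.Prime
  · rw [if_pos hp, zero_mul, add_zero]
    have hk2 : (2 : ℝ) ≤ k := by exact_mod_cast hp.two_le
    have hlog : 0 < Real.log k := Real.log_pos (by linarith)
    by_cases ha : (k : ZMod q) = a
    · rw [if_pos ⟨hp, ha⟩]
      have : vonMangoldt.residueClass a k = Real.log k := by
        simp only [vonMangoldt.residueClass]
        rw [Set.indicator_of_mem]
        · exact vonMangoldt_apply_prime hp
        · exact ha
      rw [this]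
      unfold ff
      field_simp
    · rw [if_neg (fun h => ha h.2)]
      have : vonMangoldt.residueClass a k = 0 := by
        simp only [vonMangoldt.residueClass]
        rw [Set.indicator_of_notMem]
        exact ha
      rw [this, zero_mul]
  · rw [if_neg hp, if_neg (fun h => hp h.1), zero_add]

/-- the contribution of the prime powers -/
lemma nonprime_bound {q : ℕ} (a : ZMod q) : ∃ C : ℝ, 0 ≤ C ∧ ∀ x y : ℕ, 2 ≤ x →
    ∑ k ∈ Ioc x y, (if k.Prime then 0 else vonMangoldt.residueClass a k) * ff k ≤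
      C / Real.log x := by
  refine ⟨∑' n : ℕ, (if n.Prime then 0 else vonMangoldt.residueClass a n) / n, ?_, ?_⟩
  · apply tsum_nonneg
    intro n
    have := vonMangoldt.residueClass_nonneg a n
    split_ifs <;> positivity
  · intro x y hx
    have hx' : (2 : ℝ) ≤ x := by exact_mod_cast hx
    have hlog : 0 < Real.log x := Real.log_pos (by linarith)
    have h1 : ∑ k ∈ Ioc x y, (if k.Prime then 0 else vonMangoldt.residueClass a k) * ff k ≤
        ∑ k ∈ Ioc x y, ((if k.Prime then 0 else vonMangoldt.residueClass a k) / k) / Real.log x := by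
      apply sum_le_sum
      intro k hk
      rw [mem_Ioc] at hk
      have hk' : (x : ℝ) < k := by exact_mod_cast hk.1
      have h2 : 0 ≤ (if k.Prime then 0 else vonMangoldt.residueClass a k) := by
        have := vonMangoldt.residueClass_nonneg a k
        split_ifs <;> positivity
      rw [div_div, div_eq_mul_one_div]
      apply mul_le_mul_of_nonneg_left _ h2
      unfold ff
      apply one_div_le_one_div_of_le (mul_pos (by linarith) hlog)
      apply mul_le_mul_of_nonneg_left (Real.log_le_log (by linarith) hk'.le) (by positivity)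
    refine h1.trans ?_
    rw [← sum_div]
    apply div_le_div_of_nonneg_right _ hlog.le
    apply (vonMangoldt.summable_residueClass_non_primes_div a).sum_le_tsum
    intro n _
    have := vonMangoldt.residueClass_nonneg a n
    split_ifs <;> positivity

/-- the sum of the reciprocals of the primes in an arithmetic progression -/
theorem rs_PA_asymp {q : ℕ} [NeZero q] {a : ZMod q} (ha : IsUnit a) {ε : ℝ} (hε : 0 < ε) :
    ∃ x0 : ℕ, 2 ≤ x0 ∧ ∀ x y : ℕ, x0 ≤ x → x ≤ y →
      |rs (PA q a x y) - (q.totient : ℝ)⁻¹ * (LL y - LL x)| ≤ ε * (LL y - LL x + 1) := by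
  obtain ⟨C, hC0, hC⟩ := nonprime_bound a
  set c : ℝ := (q.totient : ℝ)⁻¹ with hc
  have hc0 : 0 ≤ c := by rw [hc]; positivity
  have h1 := (Pool.Agent.Work.PNT70.pnt_ap ha).comp tendsto_natCast_atTop_atTop
  rw [Metric.tendsto_atTop] at h1
  obtain ⟨n0, hn0⟩ := h1 (ε / 4) (by linarith)
  have h2 : Tendsto (fun x : ℕ => (ε / 2 + c + C) / Real.log x) atTop (𝓝 0) :=
    (Real.tendsto_log_atTop.comp tendsto_natCast_atTop_atTop).const_div_atTop _
  rw [Metric.tendsto_atTop] at h2
  obtain ⟨n1, hn1⟩ := h2 (ε / 2) (by linarith)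
  refine ⟨max 2 (max n0 n1), le_max_left _ _, fun x y hx hxy => ?_⟩
  have hx2 : 2 ≤ x := (le_max_left _ _).trans hx
  have hxn0 : n0 ≤ x := ((le_max_left _ _).trans (le_max_right _ _)).trans hx
  have hxn1 : n1 ≤ x := ((le_max_right _ _).trans (le_max_right _ _)).trans hx
  have hx2' : (2 : ℝ) ≤ x := by exact_mod_cast hx2
  have hlog : 0 < Real.log x := Real.log_pos (by linarith)
  have hB : ∀ n, x ≤ n → |∑ k ∈ Icc 1 n, (vonMangoldt.residueClass a k - c)| ≤ ε / 4 * n := by
    intro n hn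
    have h3 := hn0 n (by omega)
    simp only [Function.comp_apply, Nat.floor_natCast] at h3
    rw [Real.dist_eq] at h3
    have hn' : (0 : ℝ) < n := by
      have : 0 < n := by omega
      exact_mod_cast this
    rw [sum_sub_distrib]
    simp only [sum_const, Nat.card_Icc, Nat.add_sub_cancel, nsmul_eq_mul]
    have h4 : ∑ k ∈ Icc 1 n, vonMangoldt.residueClass a k - n * c =
        ((∑ k ∈ Icc 1 n, vonMangoldt.residueClass a k) / n - c) * n := by
      field_simp
    rw [h4, abs_mul, abs_of_pos hn']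
    exact mul_le_mul_of_nonneg_right h3.le hn'.le
  have h3 := abel_bound (fun k => vonMangoldt.residueClass a k - c) ff x y hxy
    (fun k _ => ff_nonneg k) (fun k hk => ff_anti k (by omega)) hB
  have h4 := sum_residueClass_eq a x y
  have h5 := hC x y hx2
  have h6 : 0 ≤ ∑ k ∈ Ioc x y, (if k.Prime then 0 else vonMangoldt.residueClass a k) * ff k := by
    apply sum_nonneg
    intro k _
    apply mul_nonneg _ (ff_nonneg k)
    have := vonMangoldt.residueClass_nonneg a k
    split_ifs <;> positivity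
  have h7 : ∑ k ∈ Ioc x y, (vonMangoldt.residueClass a k - c) * ff k =
      ∑ k ∈ Ioc x y, vonMangoldt.residueClass a k * ff k - c * ∑ k ∈ Ioc x y, ff k := by
    simp_rw [sub_mul]
    rw [sum_sub_distrib, mul_sum]
  have h8 := sum_ff_le x y hx2 hxy
  have h9 := sum_ff_ge x y hx2 hxy
  have h10 := ff_ge x hx2
  have h11 := LL_mono (x := y) (y := y + 1) (by omega) (by omega)
  have h12 : ff x ≤ 1 / Real.log x := by
    unfold ff
    apply one_div_le_one_div_of_le hlog
    nlinarith
  have h13 : x * ff (x + 1) ≤ 1 / Real.log x := by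
    have h14 := ff_anti x hx2
    calc x * ff (x + 1) ≤ x * ff x := mul_le_mul_of_nonneg_left h14 (by positivity)
      _ = 1 / Real.log x := by unfold ff; field_simp
  have h15 := hn1 x hxn1
  rw [Real.dist_eq, sub_zero, abs_of_nonneg (by positivity)] at h15
  have h16 : (ε / 2 + c + C) / Real.log x = ε / 2 * (1 / Real.log x) + c * (1 / Real.log x) +
      C / Real.log x := by ring
  rw [h16] at h15
  set S := ∑ k ∈ Ioc x y, ff k with hS
  set NP := ∑ k ∈ Ioc x y, (if k.Prime then 0 else vonMangoldt.residueClass a k) * ff k with hNP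
  set R := ∑ k ∈ Ioc x y, vonMangoldt.residueClass a k * ff k with hR
  have h17 : |c * (S - (LL y - LL x))| ≤ c * (1 / Real.log x) := by
    rw [abs_mul, abs_of_nonneg hc0]
    apply mul_le_mul_of_nonneg_left _ hc0
    rw [abs_le]
    constructor <;> linarith
  have h18 : |R - c * S| ≤ ε / 4 * (LL y - LL x) + ε / 2 * (1 / Real.log x) := by
    rw [← h7]
    refine h3.trans ?_
    have : ε / 4 * (S + 2 * (x * ff (x + 1))) ≤ ε / 4 * ((LL y - LL x) + 2 * (1 / Real.log x)) := by
      apply mul_le_mul_of_nonneg_left _ (by linarith)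
      linarith
    refine this.trans (le_of_eq ?_)
    ring
  have h19 : 0 ≤ LL y - LL x := sub_nonneg.mpr (LL_mono hx2 hxy)
  have h20 : rs (PA q a x y) - c * (LL y - LL x) = (R - c * S) + c * (S - (LL y - LL x)) - NP := by
    rw [h4]; ring
  rw [h20]
  have h21 : ε * (LL y - LL x + 1) = ε / 4 * (LL y - LL x) + 3 * ε / 4 * (LL y - LL x) + ε := by ring
  have h22 : 0 ≤ 3 * ε / 4 * (LL y - LL x) := by positivity
  rw [h21]
  rw [abs_le] at h17 h18 ⊢
  constructor <;> linarith

end

end Pool.Agent.Work.MP_2738db_nt_V
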