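import Mathlib

/-!
The arithmetic of `a ^ m = X ^ l - Y ^ l` for an odd prime `l` and coprime integers `X, Y`.
-/

namespace Pool.Agent.Work.MP_2738db_nt_V

open Finset

open scoped NumberTheorySymbols

/-- the cofactor `(X ^ l - Y ^ l) / (X - Y)` -/
def Ph (l : ℕ) (X Y : ℤ) : ℤ := ∑ i ∈ range l, X ^ i * Y ^ (l - 1 - i)

lemma Ph_mul (l : ℕ) (X Y : ℤ) : Ph l X Y * (X - Y) = X ^ l - Y ^ l := geom_sum₂_mul X Y l

lemma Ph_congr (l : ℕ) (X Y : ℤ) : X - Y ∣ Ph l X Y - l * Y ^ (l - 1) := by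
  have h1 : (l : ℤ) * Y ^ (l - 1) = ∑ i ∈ range l, Y ^ i * Y ^ (l - 1 - i) := by
    rw [show (l : ℤ) * Y ^ (l - 1) = ∑ i ∈ range l, Y ^ (l - 1) by simp]
    apply sum_congr rfl
    intro i hi
    rw [mem_range] at hi
    rw [← pow_add]
    congr 1
    omega
  unfold Ph
  rw [h1, ← sum_sub_distrib]
  apply dvd_sum
  intro i _
  rw [← sub_mul]
  exact Dvd.dvd.mul_right (sub_dvd_pow_sub_pow X Y i) _

/-- `X ^ l - Y ^ l` is large compared with `(X - Y) ^ l` -/
lemma pow_sub_le {l : ℕ} (hl : Odd l) {X Y : ℤ} (hXY : Y < X) :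
    (X - Y) ^ l ≤ 2 ^ (l - 1) * (X ^ l - Y ^ l) := by
  have hl0 : l ≠ 0 := hl.pos.ne'
  have h2 : (1 : ℤ) ≤ 2 ^ (l - 1) := one_le_pow₀ (by norm_num)
  have hpos : 0 < X ^ l - Y ^ l := sub_pos.mpr (hl.strictMono_pow hXY)
  rcases le_or_gt 0 Y with hY | hY
  · have h := pow_add_pow_le hY (sub_nonneg.mpr hXY.le) hl0
    rw [show Y + (X - Y) = X by ring] at h
    nlinarith
  · rcases le_or_gt X 0 with hX | hX
    · have h := pow_add_pow_le (neg_nonneg.mpr hX) (sub_nonneg.mpr hXY.le) hl0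
      rw [show -X + (X - Y) = -Y by ring, hl.neg_pow, hl.neg_pow] at h
      nlinarith
    · have h := add_pow_le hX.le (neg_nonneg.mpr hY.le) l
      rw [hl.neg_pow] at h
      rw [show X - Y = X + -Y by ring]
      linarith

lemma coprime_primes_aux {X Y : ℤ} (hco : IsCoprime X Y) {p : ℕ} (hp : p.Prime)
    (h : (p : ℤ) ∣ X - Y) : ¬ (p : ℤ) ∣ Y := by
  intro hY
  have hX : (p : ℤ) ∣ X := by
    have := dvd_add h hY
    rwa [sub_add_cancel] at this
  have hu := hco.isUnit_of_dvd' hX hY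
  rw [Int.isUnit_iff_natAbs_eq, Int.natAbs_natCast] at hu
  exact hp.one_lt.ne' hu

/-- a prime dividing both factors is `l` -/
lemma eq_of_dvd_both {l : ℕ} {X Y : ℤ} (hco : IsCoprime X Y) {p : ℕ} (hp : p.Prime)
    (h : (p : ℤ) ∣ X - Y) (h' : (p : ℤ) ∣ Ph l X Y) : p ∣ l := by
  have h1 : (p : ℤ) ∣ l * Y ^ (l - 1) := by
    have := dvd_sub h' (h.trans (Ph_congr l X Y))
    rwa [sub_sub_cancel] at this
  have h2 := (Int.prime_iff_natAbs_prime.mpr (by simpa using hp) : Prime (p : ℤ))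
  rcases h2.dvd_or_dvd h1 with h3 | h3
  · exact_mod_cast h3
  · exact absurd (h2.dvd_of_dvd_pow h3) (coprime_primes_aux hco hp h)

/-- primes dividing the cofactor but not `X - Y` are `1` modulo `l` -/
lemma mod_eq_one {l : ℕ} (hl : l.Prime) {X Y : ℤ} (hco : IsCoprime X Y) {p : ℕ} (hp : p.Prime)
    (h : ¬ (p : ℤ) ∣ X - Y) (h' : (p : ℤ) ∣ Ph l X Y) : p % l = 1 := by
  have := Fact.mk hp
  have := Fact.mk hl
  have h1 : (p : ℤ) ∣ X ^ l - Y ^ l := by
    rw [← Ph_mul]; exact Dvd.dvd.mul_right h' _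
  have hY : ¬ (p : ℤ) ∣ Y := by
    intro hY
    have h2 : (p : ℤ) ∣ X ^ l := by
      have := dvd_add h1 (dvd_pow hY hl.ne_zero)
      rwa [sub_add_cancel] at this
    have h3 := (Int.prime_iff_natAbs_prime.mpr (by simpa using hp) : Prime (p : ℤ))
    have hX := h3.dvd_of_dvd_pow h2
    have hu := hco.isUnit_of_dvd' hX hY
    rw [Int.isUnit_iff_natAbs_eq, Int.natAbs_natCast] at hu
    exact hp.one_lt.ne' hu
  have hy : ((Y : ℤ) : ZMod p) ≠ 0 := by
    rw [Ne, ZMod.intCast_zmod_eq_zero_iff_dvd]; exact hY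
  have h2 : ((X : ℤ) : ZMod p) ^ l = ((Y : ℤ) : ZMod p) ^ l := by
    have : (((X ^ l - Y ^ l : ℤ)) : ZMod p) = 0 := by
      rw [ZMod.intCast_zmod_eq_zero_iff_dvd]; exact h1
    push_cast at this
    exact sub_eq_zero.mp this
  set t : ZMod p := (X : ZMod p) / (Y : ZMod p) with ht
  have ht1 : t ^ l = 1 := by
    rw [ht, div_pow, h2, div_self (pow_ne_zero _ hy)]
  have ht2 : t ≠ 1 := by
    intro h3
    rw [ht, div_eq_one_iff_eq hy] at h3
    apply h
    rw [← ZMod.intCast_zmod_eq_zero_iff_dvd]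
    push_cast
    rw [h3, sub_self]
  have ht0 : t ≠ 0 := by
    intro h3
    rw [h3, zero_pow hl.ne_zero] at ht1
    exact zero_ne_one ht1
  have h3 : orderOf t = l := orderOf_eq_prime ht1 ht2
  have h4 := ZMod.orderOf_dvd_card_sub_one ht0
  rw [h3] at h4
  obtain ⟨k, hk⟩ := h4
  have hp1 := hp.one_lt
  have h5 : p = l * k + 1 := by omega
  rw [h5, Nat.mul_add_mod, Nat.mod_eq_of_lt hl.one_lt]

/-- positivity of the factors -/
lemma exists_nat_factors {a m l : ℕ} (ha : 1 ≤ a) (hl : Odd l) {X Y : ℤ}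
    (h : (a : ℤ) ^ m = X ^ l - Y ^ l) :
    ∃ D F : ℕ, (D : ℤ) = X - Y ∧ (F : ℤ) = Ph l X Y ∧ 0 < D ∧ 0 < F ∧ D * F = a ^ m ∧
      D ^ l ≤ 2 ^ (l - 1) * a ^ m := by
  have hpos : 0 < X ^ l - Y ^ l := by
    rw [← h]
    have : (0 : ℤ) < a := by exact_mod_cast ha
    positivity
  have hXY : Y < X := by
    by_contra hc
    have := hl.strictMono_pow.monotone (not_lt.mp hc)
    linarith
  have hD : 0 < X - Y := sub_pos.mpr hXY
  have hF : 0 < Ph l X Y := by
    have h1 := Ph_mul l X Y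
    by_contra hc
    have : Ph l X Y * (X - Y) ≤ 0 := mul_nonpos_of_nonpos_of_nonneg (not_lt.mp hc) hD.le
    linarith
  refine ⟨(X - Y).toNat, (Ph l X Y).toNat, Int.toNat_of_nonneg hD.le, Int.toNat_of_nonneg hF.le,
    by omega, by omega, ?_, ?_⟩
  · have h1 := Ph_mul l X Y
    zify
    rw [Int.toNat_of_nonneg hD.le, Int.toNat_of_nonneg hF.le, h, ← h1]
    ring
  · zify
    rw [Int.toNat_of_nonneg hD.le, h]
    exact pow_sub_le hl hXY

/-- splitting a product of two coprime numbers which is a power -/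
lemma split_pow {A B a m : ℕ} (hm : 1 ≤ m) (hco : Nat.Coprime A B) (h : A * B = a ^ m) :
    ∃ U v : ℕ, A = U ^ m ∧ B = v ^ m ∧ a = U * v := by
  have h1 : IsUnit (GCDMonoid.gcd A B) := by
    rw [show GCDMonoid.gcd A B = Nat.gcd A B from rfl, hco]
    exact isUnit_one
  have h2 : IsUnit (GCDMonoid.gcd B A) := by
    rw [show GCDMonoid.gcd B A = Nat.gcd B A from rfl, hco.symm]
    exact isUnit_one
  obtain ⟨U, hU⟩ := exists_eq_pow_of_mul_eq_pow h1 h
  obtain ⟨v, hv⟩ := exists_eq_pow_of_mul_eq_pow h2 ((mul_comm B A).trans h)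
  refine ⟨U, v, hU, hv, ?_⟩
  have hm0 : m ≠ 0 := by omega
  apply Nat.pow_left_injective hm0
  simp only
  rw [mul_pow, ← hU, ← hv, h]

lemma coprime_of_split {A B U v m : ℕ} (hm : 1 ≤ m) (hco : Nat.Coprime A B) (hU : A = U ^ m)
    (hv : B = v ^ m) : Nat.Coprime U v := by
  rw [hU, hv] at hco
  rw [Nat.coprime_pow_left_iff (by omega), Nat.coprime_pow_right_iff (by omega)] at hco
  exact hco

lemma gcd_eq_one_of_prime {Y : ℤ} {q : ℕ} (hq : q.Prime) (h : ¬ (q : ℤ) ∣ Y) : Int.gcd Y q = 1 := by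
  rw [Int.gcd_comm]
  have h1 := (Int.prime_iff_natAbs_prime.mpr (by simpa using hq) : Prime (q : ℤ))
  rw [← Int.isCoprime_iff_gcd_eq_one]
  exact h1.irreducible.coprime_iff_not_dvd.mpr h

/-- case `l ∤ a` -/
theorem alg_one {a m l : ℕ} (ha : 1 ≤ a) (hm : 1 ≤ m) (hl : l.Prime) (hl2 : l ≠ 2) {X Y : ℤ}
    (hco : IsCoprime X Y) (h : (a : ℤ) ^ m = X ^ l - Y ^ l) (hla : ¬ l ∣ a) :
    ∃ U v : ℕ, a = U * v ∧ Nat.Coprime U v ∧ U ^ l ≤ 2 ^ l * a ∧
      (∀ p : ℕ, p.Prime → p ∣ v → p % l = 1) ∧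
      (∀ q : ℕ, q.Prime → q ∣ U → J(l * v ^ m | q) = 1) := by
  have hodd : Odd l := hl.odd_of_ne_two hl2
  obtain ⟨D, F, hD, hF, hD0, hF0, hDF, hsize⟩ := exists_nat_factors ha hodd h
  have hlam : ¬ l ∣ a ^ m := fun h => hla (hl.dvd_of_dvd_pow h)
  have hdiv : ∀ p : ℕ, p.Prime → p ∣ D → ¬ p ∣ F := by
    intro p hp h1 h2
    have h3 : p ∣ l := by
      apply eq_of_dvd_both hco hp
      · rw [← hD]; exact_mod_cast h1
      · rw [← hF]; exact_mod_cast h2
    have h4 : p = l := (Nat.prime_dvd_prime_iff_eq hp hl).mp h3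
    subst h4
    apply hlam
    rw [← hDF]
    exact Dvd.dvd.mul_right h1 _
  have hco' : Nat.Coprime D F := Nat.coprime_of_dvd hdiv
  obtain ⟨U, v, hU, hv, hUv⟩ := split_pow hm hco' hDF
  refine ⟨U, v, hUv, coprime_of_split hm hco' hU hv, ?_, ?_, ?_⟩
  · have hm0 : m ≠ 0 := by omega
    rw [← Nat.pow_le_pow_iff_left hm0]
    calc (U ^ l) ^ m = D ^ l := by rw [hU]; ring
      _ ≤ 2 ^ (l - 1) * a ^ m := hsize
      _ ≤ 2 ^ (l * m) * a ^ m := by
          apply Nat.mul_le_mul_right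
          apply Nat.pow_le_pow_right (by norm_num)
          have : l ≤ l * m := Nat.le_mul_of_pos_right l (by omega)
          omega
      _ = (2 ^ l * a) ^ m := by rw [mul_pow, ← pow_mul]
  · intro p hp hpv
    have h1 : p ∣ F := by rw [hv]; exact dvd_pow hpv (by omega)
    apply mod_eq_one hl hco hp
    · rw [← hD]
      intro h2
      exact hdiv p hp (by exact_mod_cast h2) h1
    · rw [← hF]; exact_mod_cast h1
  · intro q hq hqU
    have hqD : q ∣ D := by rw [hU]; exact dvd_pow hqU (by omega)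
    have hqD' : (q : ℤ) ∣ X - Y := by rw [← hD]; exact_mod_cast hqD
    have hqY := coprime_primes_aux hco hq hqD'
    have hql : ¬ q ∣ l := by
      intro h1
      have h2 : q = l := (Nat.prime_dvd_prime_iff_eq hq hl).mp h1
      subst h2
      apply hlam
      rw [← hDF]
      exact Dvd.dvd.mul_right hqD _
    have h1 : (v : ℤ) ^ m = Ph l X Y := by rw [← hF, hv]; push_cast; rfl
    obtain ⟨k, hk⟩ := hodd
    have h2 : J((l : ℤ) * (v : ℤ) ^ m | q) = J((l * Y ^ k) ^ 2 | q) := by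
      apply jacobiSym.mod_left'
      rw [h1]
      apply Int.emod_emod_of_dvd _ (dvd_refl _) |>.symm.trans
      have h3 : (l : ℤ) * Ph l X Y ≡ (l * Y ^ k) ^ 2 [ZMOD q] := by
        rw [Int.modEq_comm, Int.modEq_iff_dvd]
        have h4 : (l : ℤ) * Ph l X Y - (l * Y ^ k) ^ 2 = l * (Ph l X Y - l * Y ^ (l - 1)) := by
          have : l - 1 = 2 * k := by omega
          rw [this, pow_mul']
          ring
        rw [h4]
        exact Dvd.dvd.mul_left (hqD'.trans (Ph_congr l X Y)) _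
      rw [Int.emod_emod_of_dvd _ (dvd_refl _)]
      exact h3
    rw [h2]
    apply jacobiSym.sq_one'
    apply gcd_eq_one_of_prime hq
    intro h3
    have h4 := (Int.prime_iff_natAbs_prime.mpr (by simpa using hq) : Prime (q : ℤ))
    rcases h4.dvd_or_dvd h3 with h5 | h5
    · exact hql (by exact_mod_cast h5)
    · exact hqY (h4.dvd_of_dvd_pow h5)

/-- case `l ∣ a` -/
theorem alg_two {a m l : ℕ} (ha : 1 ≤ a) (hm : 1 ≤ m) (hl : l.Prime) (hl2 : l ≠ 2) {X Y : ℤ}
    (hco : IsCoprime X Y) (h : (a : ℤ) ^ m = X ^ l - Y ^ l) (hla : l ∣ a) :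
    ∃ U v : ℕ, a = U * v ∧ Nat.Coprime U v ∧ l ∣ U ∧ U ^ l ≤ (2 * l) ^ l * a ∧
      (∀ p : ℕ, p.Prime → p ∣ v → p % l = 1) ∧
      (∀ q : ℕ, q.Prime → q ∣ U → q ≠ l → J((v : ℤ) ^ m | q) = 1) := by
  have := Fact.mk hl
  have hodd : Odd l := hl.odd_of_ne_two hl2
  obtain ⟨D, F, hD, hF, hD0, hF0, hDF, hsize⟩ := exists_nat_factors ha hodd h
  -- `l ∣ X - Y`
  have hlD : (l : ℤ) ∣ X - Y := by
    have h1 : (l : ℤ) ∣ X ^ l - Y ^ l := by
      rw [← h]
      exact dvd_pow (by exact_mod_cast hla) (by omega)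
    rw [← ZMod.intCast_zmod_eq_zero_iff_dvd] at h1 ⊢
    push_cast at h1 ⊢
    rwa [ZMod.pow_card, ZMod.pow_card] at h1
  have hlY := coprime_primes_aux hco hl hlD
  have hlprime : Prime (l : ℤ) := Int.prime_iff_natAbs_prime.mpr (by simpa using hl)
  -- the cofactor is `l` times a number prime to `l`
  obtain ⟨F', hF'⟩ : ∃ F' : ℤ, Ph l X Y = l * F' ∧ ¬ (l : ℤ) ∣ F' := by
    obtain ⟨b, hb⟩ := hlD
    have h1 := odd_sq_dvd_geom_sum₂_sub Y b hodd
    have h2 : Y + (l : ℤ) * b = X := by rw [← hb]; ring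
    rw [h2] at h1
    obtain ⟨c, hc⟩ := h1
    refine ⟨Y ^ (l - 1) + l * c, ?_, ?_⟩
    · unfold Ph
      linear_combination hc
    · intro h3
      have h4 : (l : ℤ) ∣ Y ^ (l - 1) := by
        have := dvd_sub h3 (Dvd.intro c rfl : (l : ℤ) ∣ l * c)
        rwa [add_sub_cancel_right] at this
      exact hlY (hlprime.dvd_of_dvd_pow h4)
  obtain ⟨hF'1, hF'2⟩ := hF'
  have hl0 : (0 : ℤ) < l := by exact_mod_cast hl.pos
  have hF'pos : 0 < F' := by
    have h1 : (0 : ℤ) < l * F' := by rw [← hF'1, ← hF]; exact_mod_cast hF0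
    exact (mul_pos_iff_of_pos_left hl0).mp h1
  obtain ⟨G, hG⟩ : ∃ G : ℕ, (G : ℤ) = F' := ⟨F'.toNat, Int.toNat_of_nonneg hF'pos.le⟩
  have hFG : F = l * G := by
    zify
    rw [hF, hF'1, hG]
  have hprod : (l * D) * G = a ^ m := by rw [← hDF, hFG]; ring
  have hlG : ¬ l ∣ G := by
    intro h1
    apply hF'2
    rw [← hG]
    exact_mod_cast h1
  have hdiv : ∀ p : ℕ, p.Prime → p ∣ l * D → ¬ p ∣ G := by
    intro p hp h1 h2
    have hpl : p ≠ l := by rintro rfl; exact hlG h2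
    have h3 : p ∣ D := by
      rcases (hp.dvd_mul).mp h1 with h4 | h4
      · exact absurd ((Nat.prime_dvd_prime_iff_eq hp hl).mp h4) hpl
      · exact h4
    have h4 : p ∣ l := by
      apply eq_of_dvd_both hco hp
      · rw [← hD]; exact_mod_cast h3
      · rw [← hF, hFG]; exact_mod_cast Dvd.dvd.mul_left h2 l
    exact hpl ((Nat.prime_dvd_prime_iff_eq hp hl).mp h4)
  obtain ⟨U, v, hU, hv, hUv⟩ := split_pow hm (Nat.coprime_of_dvd hdiv) hprod
  refine ⟨U, v, hUv, coprime_of_split hm (Nat.coprime_of_dvd hdiv) hU hv, ?_, ?_, ?_, ?_⟩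
  · apply hl.dvd_of_dvd_pow (n := m)
    rw [← hU]
    exact Dvd.intro _ rfl
  · have hm0 : m ≠ 0 := by omega
    rw [← Nat.pow_le_pow_iff_left hm0]
    calc (U ^ l) ^ m = (l * D) ^ l := by rw [hU]; ring
      _ = l ^ l * D ^ l := mul_pow _ _ _
      _ ≤ l ^ l * (2 ^ (l - 1) * a ^ m) := Nat.mul_le_mul_left _ hsize
      _ ≤ l ^ (l * m) * (2 ^ (l * m) * a ^ m) := by
          have h1 : l ≤ l * m := Nat.le_mul_of_pos_right l (by omega)
          apply Nat.mul_le_mul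
          · exact Nat.pow_le_pow_right hl.pos h1
          · apply Nat.mul_le_mul_right
            apply Nat.pow_le_pow_right (by norm_num)
            omega
      _ = ((2 * l) ^ l * a) ^ m := by
          rw [mul_pow ((2 * l) ^ l), ← pow_mul, mul_pow 2 l]; ring
  · intro p hp hpv
    have h1 : p ∣ G := by rw [hv]; exact dvd_pow hpv (by omega)
    apply mod_eq_one hl hco hp
    · rw [← hD]
      intro h2
      exact hdiv p hp (Dvd.dvd.mul_left (by exact_mod_cast h2) _) h1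
    · rw [← hF, hFG]
      exact_mod_cast Dvd.dvd.mul_left h1 l
  · intro q hq hqU hql
    have hqlD : q ∣ l * D := by rw [hU]; exact dvd_pow hqU (by omega)
    have hqD : q ∣ D := by
      rcases (hq.dvd_mul).mp hqlD with h4 | h4
      · exact absurd ((Nat.prime_dvd_prime_iff_eq hq hl).mp h4) hql
      · exact h4
    have hqD' : (q : ℤ) ∣ X - Y := by rw [← hD]; exact_mod_cast hqD
    have hqY := coprime_primes_aux hco hq hqD'
    have h4 := (Int.prime_iff_natAbs_prime.mpr (by simpa using hq) : Prime (q : ℤ))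
    have h1 : (v : ℤ) ^ m = F' := by rw [← hG, hv]; push_cast; rfl
    obtain ⟨k, hk⟩ := hodd
    have h2 : J((v : ℤ) ^ m | q) = J((Y ^ k) ^ 2 | q) := by
      apply jacobiSym.mod_left'
      rw [h1]
      have h3 : F' ≡ (Y ^ k) ^ 2 [ZMOD q] := by
        rw [Int.modEq_comm, Int.modEq_iff_dvd]
        have h5 : (q : ℤ) ∣ l * (F' - (Y ^ k) ^ 2) := by
          have h6 : (l : ℤ) * (F' - (Y ^ k) ^ 2) = Ph l X Y - l * Y ^ (l - 1) := by
            have : l - 1 = 2 * k := by omega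
            rw [this, pow_mul', hF'1]
            ring
          rw [h6]
          exact hqD'.trans (Ph_congr l X Y)
        rcases h4.dvd_or_dvd h5 with h6 | h6
        · exfalso
          apply hql
          exact (Nat.prime_dvd_prime_iff_eq hq hl).mp (by exact_mod_cast h6)
        · exact h6
      exact h3
    rw [h2]
    apply jacobiSym.sq_one'
    apply gcd_eq_one_of_prime hq
    intro h3
    exact hqY (h4.dvd_of_dvd_pow h3)

end Pool.Agent.Work.MP_2738db_nt_V
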