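import Pool.Agent.Work.MP_2738db_nt_V.Alg

/-!
The arithmetic of `a ^ m = x ^ 4 - y ^ 4` and `a ^ m = x ^ 4 + y ^ 4`.
-/

namespace Pool.Agent.Work.MP_2738db_nt_V

open Finset

open scoped NumberTheorySymbols

lemma not_dvd_both {x y : ℕ} (hco : Nat.Coprime x y) {p : ℕ} (hp : p.Prime) (hx : p ∣ x)
    (hy : p ∣ y) : False := by
  have := Nat.dvd_gcd hx hy
  rw [hco] at this
  exact hp.one_lt.ne' (Nat.dvd_one.mp this)

lemma mod_four_of_dvd {x y : ℕ} (hco : Nat.Coprime x y) {p : ℕ} (hp : p.Prime) (hp2 : p ≠ 2)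
    (h : p ∣ x ^ 2 + y ^ 2) : p % 4 = 1 := by
  have := Fact.mk hp
  have hy : (y : ZMod p) ≠ 0 := by
    intro h0
    have h1 : p ∣ y := (ZMod.natCast_eq_zero_iff _ _).mp h0
    have h2 : p ∣ x ^ 2 := (Nat.dvd_add_left (dvd_pow h1 two_ne_zero)).mp h
    exact not_dvd_both hco hp (hp.dvd_of_dvd_pow h2) h1
  have h1 : ((x ^ 2 + y ^ 2 : ℕ) : ZMod p) = 0 := (ZMod.natCast_eq_zero_iff _ _).mpr h
  push_cast at h1
  have h2 : IsSquare (-1 : ZMod p) := by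
    refine ⟨(x : ZMod p) / y, ?_⟩
    field_simp
    linear_combination -h1
  have h3 := (ZMod.exists_sq_eq_neg_one_iff (p := p)).mp h2
  have h4 := hp.eq_two_or_odd
  omega

lemma jac_two_aux {x y v m q : ℕ} (hco : Nat.Coprime x y) (hq : q.Prime) (hq2 : q ≠ 2)
    (hqd : (q : ℤ) ∣ (x : ℤ) ^ 2 - (y : ℤ) ^ 2) (hv : x ^ 2 + y ^ 2 = v ^ m) :
    J(2 * (v : ℤ) ^ m | q) = 1 := by
  have hqp := (Int.prime_iff_natAbs_prime.mpr (by simpa using hq) : Prime (q : ℤ))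
  have hqx : ¬ (q : ℤ) ∣ (x : ℤ) := by
    intro h0
    have h1 : (q : ℤ) ∣ (y : ℤ) ^ 2 := by
      have := dvd_sub (dvd_pow h0 two_ne_zero : (q : ℤ) ∣ (x : ℤ) ^ 2) hqd
      rwa [sub_sub_cancel] at this
    exact not_dvd_both hco hq (by exact_mod_cast h0) (by exact_mod_cast hqp.dvd_of_dvd_pow h1)
  have h2 : J(2 * (v : ℤ) ^ m | q) = J((2 * (x : ℤ)) ^ 2 | q) := by
    apply jacobiSym.mod_left'
    have h3 : (2 : ℤ) * (v : ℤ) ^ m ≡ (2 * (x : ℤ)) ^ 2 [ZMOD q] := by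
      rw [Int.modEq_comm, Int.modEq_iff_dvd]
      have h4 : (2 : ℤ) * (v : ℤ) ^ m - (2 * (x : ℤ)) ^ 2 = -2 * ((x : ℤ) ^ 2 - (y : ℤ) ^ 2) := by
        have h5 : (v : ℤ) ^ m = (x : ℤ) ^ 2 + (y : ℤ) ^ 2 := by exact_mod_cast hv.symm
        rw [h5]; ring
      rw [h4]
      exact Dvd.dvd.mul_left hqd _
    exact h3
  rw [h2]
  apply jacobiSym.sq_one'
  apply gcd_eq_one_of_prime hq
  intro h3
  rcases hqp.dvd_or_dvd h3 with h5 | h5
  · have h6 : q ∣ 2 := by exact_mod_cast h5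
    exact hq2 ((Nat.prime_dvd_prime_iff_eq hq Nat.prime_two).mp h6)
  · exact hqx h5

/-- `a ^ m = x ^ 4 - y ^ 4`, `a` odd -/
theorem alg4_odd {a m x y : ℕ} (ha : 1 ≤ a) (hm : 1 ≤ m) (hco : Nat.Coprime x y)
    (h : a ^ m + y ^ 4 = x ^ 4) (hodd : ¬ 2 ∣ a) :
    ∃ U v : ℕ, a = U * v ∧ Nat.Coprime U v ∧ U ^ 2 ≤ 4 * a ∧
      (∀ p : ℕ, p.Prime → p ∣ v → p % 4 = 1) ∧
      (∀ q : ℕ, q.Prime → q ≠ 2 → q ∣ U → J(2 * (v : ℤ) ^ m | q) = 1) := by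
  have hapos : 0 < a ^ m := Nat.pow_pos ha
  have hxy : y ^ 2 < x ^ 2 := by
    by_contra hc
    have h1 : (x ^ 2) ^ 2 ≤ (y ^ 2) ^ 2 := Nat.pow_le_pow_left (not_lt.mp hc) 2
    have h2 : (x ^ 2) ^ 2 = x ^ 4 := by ring
    have h3 : (y ^ 2) ^ 2 = y ^ 4 := by ring
    omega
  obtain ⟨A, hA⟩ : ∃ A, x ^ 2 = y ^ 2 + A := ⟨x ^ 2 - y ^ 2, by omega⟩
  set B := x ^ 2 + y ^ 2 with hB
  have hAB : A * B = a ^ m := by
    have h2 : (x ^ 2) ^ 2 = x ^ 4 := by ring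
    have h3 : (y ^ 2) ^ 2 = y ^ 4 := by ring
    have h4 : (y ^ 2 + A) ^ 2 = A * (y ^ 2 + A + y ^ 2) + (y ^ 2) ^ 2 := by ring
    rw [hB, hA]
    rw [← h2, hA, h4, h3] at h
    omega
  have ham : ¬ 2 ∣ a ^ m := fun h => hodd (Nat.prime_two.dvd_of_dvd_pow h)
  have hdiv : ∀ p : ℕ, p.Prime → p ∣ A → ¬ p ∣ B := by
    intro p hp h1 h2
    have hp2 : p ≠ 2 := by
      rintro rfl
      apply ham
      rw [← hAB]; exact Dvd.dvd.mul_right h1 _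
    have h3 : p ∣ 2 * y ^ 2 := by
      have h4 : B = 2 * y ^ 2 + A := by rw [hB, hA]; ring
      rw [h4] at h2
      exact (Nat.dvd_add_left h1).mp h2
    rcases hp.dvd_mul.mp h3 with h4 | h4
    · exact hp2 ((Nat.prime_dvd_prime_iff_eq hp Nat.prime_two).mp h4)
    · have hy := hp.dvd_of_dvd_pow h4
      have hx : p ∣ x ^ 2 := by rw [hA]; exact dvd_add h4 h1
      exact not_dvd_both hco hp (hp.dvd_of_dvd_pow hx) hy
  have hcoAB := Nat.coprime_of_dvd hdiv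
  obtain ⟨U, v, hU, hv, hUv⟩ := split_pow hm hcoAB hAB
  have hv0 : v ≠ 0 := by rintro rfl; simp at hUv; omega
  refine ⟨U, v, hUv, coprime_of_split hm hcoAB hU hv, ?_, ?_, ?_⟩
  · have h1 : U ^ m ≤ v ^ m := by rw [← hU, ← hv, hB]; omega
    have h2 : U ≤ v := (Nat.pow_le_pow_iff_left (by omega)).mp h1
    rw [hUv]
    nlinarith
  · intro p hp hpv
    have hpB : p ∣ B := by rw [hv]; exact dvd_pow hpv (by omega)
    apply mod_four_of_dvd hco hp _ hpB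
    rintro rfl
    apply ham
    rw [← hAB]; exact Dvd.dvd.mul_left hpB _
  · intro q hq hq2 hqU
    have hqA : q ∣ A := by rw [hU]; exact dvd_pow hqU (by omega)
    apply jac_two_aux hco hq hq2 _ hv
    have h1 : (x : ℤ) ^ 2 - (y : ℤ) ^ 2 = A := by
      have : (x : ℤ) ^ 2 = (y : ℤ) ^ 2 + A := by exact_mod_cast hA
      rw [this]; ring
    rw [h1]
    exact_mod_cast hqA

/-- `a ^ m = x ^ 4 - y ^ 4`, `a` even -/
theorem alg4_even {a m x y : ℕ} (ha : 1 ≤ a) (hm : 1 ≤ m) (hco : Nat.Coprime x y)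
    (h : a ^ m + y ^ 4 = x ^ 4) (heven : 2 ∣ a) :
    ∃ U v : ℕ, a = U * v ∧ Nat.Coprime U v ∧ U ^ 2 ≤ 4 * a ∧
      (∀ p : ℕ, p.Prime → p ∣ v → p % 4 = 1) ∧
      (∀ q : ℕ, q.Prime → q ≠ 2 → q ∣ U → J((v : ℤ) ^ m | q) = 1) := by
  have hapos : 0 < a ^ m := Nat.pow_pos ha
  have ham : 2 ∣ a ^ m := dvd_pow heven (by omega)
  -- both are odd
  have hpar : x % 2 = 1 ∧ y % 2 = 1 := by
    have h1 : (a ^ m + y ^ 4) % 2 = x ^ 4 % 2 := by rw [h]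
    obtain ⟨k, hk⟩ := ham
    have h2 : y ^ 4 % 2 = x ^ 4 % 2 := by omega
    rcases Nat.mod_two_eq_zero_or_one x with hx | hx <;>
      rcases Nat.mod_two_eq_zero_or_one y with hy | hy
    · exfalso
      exact not_dvd_both hco Nat.prime_two (Nat.dvd_of_mod_eq_zero hx) (Nat.dvd_of_mod_eq_zero hy)
    · rw [Nat.pow_mod, hy, Nat.pow_mod x, hx] at h2; norm_num at h2
    · rw [Nat.pow_mod, hy, Nat.pow_mod x, hx] at h2; norm_num at h2
    · exact ⟨hx, hy⟩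
  obtain ⟨x', hx'⟩ : ∃ x', x = 2 * x' + 1 := ⟨x / 2, by omega⟩
  obtain ⟨y', hy'⟩ : ∃ y', y = 2 * y' + 1 := ⟨y / 2, by omega⟩
  have hxy : y ^ 2 < x ^ 2 := by
    by_contra hc
    have h1 : (x ^ 2) ^ 2 ≤ (y ^ 2) ^ 2 := Nat.pow_le_pow_left (not_lt.mp hc) 2
    have h2 : (x ^ 2) ^ 2 = x ^ 4 := by ring
    have h3 : (y ^ 2) ^ 2 = y ^ 4 := by ring
    omega
  obtain ⟨A, hA⟩ : ∃ A, x ^ 2 = y ^ 2 + A := ⟨x ^ 2 - y ^ 2, by omega⟩
  -- `x ^ 2 + y ^ 2 = 2 B` with `B` odd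
  set B := 2 * (x' * x' + x' + y' * y' + y') + 1 with hB
  have hxyB : x ^ 2 + y ^ 2 = 2 * B := by rw [hx', hy', hB]; ring
  have hAB : (2 * A) * B = a ^ m := by
    have h2 : (x ^ 2) ^ 2 = x ^ 4 := by ring
    have h3 : (y ^ 2) ^ 2 = y ^ 4 := by ring
    have h4 : (y ^ 2 + A) ^ 2 = A * (y ^ 2 + A + y ^ 2) + (y ^ 2) ^ 2 := by ring
    have h5 : 2 * A * B = A * (2 * B) := by ring
    rw [h5, ← hxyB, hA]
    rw [← h2, hA, h4, h3] at h
    omega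
  have hdiv : ∀ p : ℕ, p.Prime → p ∣ 2 * A → ¬ p ∣ B := by
    intro p hp h1 h2
    have hp2 : p ≠ 2 := by
      rintro rfl
      omega
    have h1' : p ∣ A := by
      rcases hp.dvd_mul.mp h1 with h4 | h4
      · exact absurd ((Nat.prime_dvd_prime_iff_eq hp Nat.prime_two).mp h4) hp2
      · exact h4
    have h3 : p ∣ 2 * y ^ 2 := by
      have h4 : 2 * B = 2 * y ^ 2 + A := by rw [← hxyB, hA]; ring
      have h5 : p ∣ 2 * B := Dvd.dvd.mul_left h2 2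
      rw [h4] at h5
      exact (Nat.dvd_add_left h1').mp h5
    rcases hp.dvd_mul.mp h3 with h4 | h4
    · exact hp2 ((Nat.prime_dvd_prime_iff_eq hp Nat.prime_two).mp h4)
    · have hy := hp.dvd_of_dvd_pow h4
      have hx : p ∣ x ^ 2 := by rw [hA]; exact dvd_add h4 h1'
      exact not_dvd_both hco hp (hp.dvd_of_dvd_pow hx) hy
  have hcoAB := Nat.coprime_of_dvd hdiv
  obtain ⟨U, v, hU, hv, hUv⟩ := split_pow hm hcoAB hAB
  have hv0 : v ≠ 0 := by rintro rfl; simp at hUv; omega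
  refine ⟨U, v, hUv, coprime_of_split hm hcoAB hU hv, ?_, ?_, ?_⟩
  · have h1 : U ^ m ≤ (4 * v) ^ m := by
      calc U ^ m = 2 * A := hU.symm
        _ ≤ 4 * B := by omega
        _ = 4 ^ 1 * v ^ m := by rw [hv]; ring
        _ ≤ 4 ^ m * v ^ m := Nat.mul_le_mul_right _ (Nat.pow_le_pow_right (by norm_num) hm)
        _ = (4 * v) ^ m := (mul_pow 4 v m).symm
    have h2 : U ≤ 4 * v := (Nat.pow_le_pow_iff_left (by omega)).mp h1
    rw [hUv]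
    nlinarith
  · intro p hp hpv
    have hpB : p ∣ B := by rw [hv]; exact dvd_pow hpv (by omega)
    apply mod_four_of_dvd hco hp _ (by rw [hxyB]; exact Dvd.dvd.mul_left hpB 2)
    rintro rfl
    omega
  · intro q hq hq2 hqU
    have hq2A : q ∣ 2 * A := by rw [hU]; exact dvd_pow hqU (by omega)
    have hqA : q ∣ A := by
      rcases hq.dvd_mul.mp hq2A with h4 | h4
      · exact absurd ((Nat.prime_dvd_prime_iff_eq hq Nat.prime_two).mp h4) hq2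
      · exact h4
    have hqd : (q : ℤ) ∣ (x : ℤ) ^ 2 - (y : ℤ) ^ 2 := by
      have h1 : (x : ℤ) ^ 2 - (y : ℤ) ^ 2 = A := by
        have : (x : ℤ) ^ 2 = (y : ℤ) ^ 2 + A := by exact_mod_cast hA
        rw [this]; ring
      rw [h1]
      exact_mod_cast hqA
    have hqp := (Int.prime_iff_natAbs_prime.mpr (by simpa using hq) : Prime (q : ℤ))
    have hqx : ¬ (q : ℤ) ∣ (x : ℤ) := by
      intro h0
      have h1 : (q : ℤ) ∣ (y : ℤ) ^ 2 := by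
        have := dvd_sub (dvd_pow h0 two_ne_zero : (q : ℤ) ∣ (x : ℤ) ^ 2) hqd
        rwa [sub_sub_cancel] at this
      exact not_dvd_both hco hq (by exact_mod_cast h0) (by exact_mod_cast hqp.dvd_of_dvd_pow h1)
    have h2 : J((v : ℤ) ^ m | q) = J((x : ℤ) ^ 2 | q) := by
      apply jacobiSym.mod_left'
      have h3 : (v : ℤ) ^ m ≡ (x : ℤ) ^ 2 [ZMOD q] := by
        rw [Int.modEq_comm, Int.modEq_iff_dvd]
        have h5 : (q : ℤ) ∣ 2 * ((v : ℤ) ^ m - (x : ℤ) ^ 2) := by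
          have h6 : 2 * ((v : ℤ) ^ m - (x : ℤ) ^ 2) = -((x : ℤ) ^ 2 - (y : ℤ) ^ 2) := by
            have h7 : 2 * (v : ℤ) ^ m = (x : ℤ) ^ 2 + (y : ℤ) ^ 2 := by
              rw [hv] at hxyB; exact_mod_cast hxyB.symm
            rw [mul_sub, h7]; ring
          rw [h6]
          exact hqd.neg_right
        rcases hqp.dvd_or_dvd h5 with h6 | h6
        · exfalso
          have h7 : q ∣ 2 := by exact_mod_cast h6
          exact hq2 ((Nat.prime_dvd_prime_iff_eq hq Nat.prime_two).mp h7)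
        · exact h6
      exact h3
    rw [h2]
    apply jacobiSym.sq_one'
    exact gcd_eq_one_of_prime hq hqx

/-- `a ^ m = x ^ 4 + y ^ 4` -/
theorem alg4_add {a m x y : ℕ} (hm : 1 ≤ m) (hco : Nat.Coprime x y)
    (h : a ^ m = x ^ 4 + y ^ 4) :
    (∀ p : ℕ, p.Prime → p ≠ 2 → p ∣ a → p % 4 = 1) ∧ ¬ 4 ∣ a := by
  have hco2 : Nat.Coprime (x ^ 2) (y ^ 2) := hco.pow 2 2
  constructor
  · intro p hp hp2 hpa
    apply mod_four_of_dvd hco2 hp hp2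
    have h1 : (x ^ 2) ^ 2 + (y ^ 2) ^ 2 = a ^ m := by rw [h]; ring
    rw [h1]
    exact dvd_pow hpa (by omega)
  · intro h4
    have h5 : 4 ∣ x ^ 4 + y ^ 4 := by
      rw [← h]; exact h4.trans (dvd_pow_self a (by omega))
    have h6 : (x ^ 4 + y ^ 4) % 4 = 0 := Nat.mod_eq_zero_of_dvd h5
    have hx : x ^ 4 % 4 = (x % 4) ^ 4 % 4 := Nat.pow_mod x 4 4
    have hy : y ^ 4 % 4 = (y % 4) ^ 4 % 4 := Nat.pow_mod y 4 4
    have hx4 : x % 4 < 4 := Nat.mod_lt _ (by norm_num)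
    have hy4 : y % 4 < 4 := Nat.mod_lt _ (by norm_num)
    have hnot : ¬ (x % 2 = 0 ∧ y % 2 = 0) := by
      rintro ⟨e1, e2⟩
      exact not_dvd_both hco Nat.prime_two (Nat.dvd_of_mod_eq_zero e1) (Nat.dvd_of_mod_eq_zero e2)
    generalize hxx : x % 4 = X at *
    generalize hyy : y % 4 = Y at *
    interval_cases X <;> interval_cases Y <;> omega

end Pool.Agent.Work.MP_2738db_nt_V
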