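import Mathlib

/-!
Sets of integers of density zero.
-/

namespace Pool.Agent.Work.MP_2738db_nt_V

open Finset Filter Topology

noncomputable section

/-- the number of elements of `E` in `[1, N]`, as a real number -/
def cnt (E : Set ℕ) (N : ℕ) : ℝ := ∑ a ∈ Icc 1 N, E.indicator (fun _ => (1 : ℝ)) a

/-- `E` has upper density `≤ δ` -/
def UD (E : Set ℕ) (δ : ℝ) : Prop := ∀ ε : ℝ, 0 < ε → ∀ᶠ N : ℕ in atTop, cnt E N ≤ (δ + ε) * N

lemma ind_nonneg (E : Set ℕ) (a : ℕ) : 0 ≤ E.indicator (fun _ => (1 : ℝ)) a :=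
  Set.indicator_nonneg (fun _ _ => zero_le_one) a

lemma ind_of_mem {E : Set ℕ} {a : ℕ} (h : a ∈ E) : E.indicator (fun _ => (1 : ℝ)) a = 1 :=
  Set.indicator_of_mem h _

lemma ind_of_not_mem {E : Set ℕ} {a : ℕ} (h : a ∉ E) : E.indicator (fun _ => (1 : ℝ)) a = 0 :=
  Set.indicator_of_notMem h _

lemma ind_mono {E F : Set ℕ} (h : E ⊆ F) (a : ℕ) :
    E.indicator (fun _ => (1 : ℝ)) a ≤ F.indicator (fun _ => (1 : ℝ)) a :=
  Set.indicator_le_indicator_of_subset h (fun _ => zero_le_one) a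

lemma ind_union (E F : Set ℕ) (a : ℕ) :
    (E ∪ F).indicator (fun _ => (1 : ℝ)) a ≤
      E.indicator (fun _ => (1 : ℝ)) a + F.indicator (fun _ => (1 : ℝ)) a := by
  by_cases h : a ∈ E
  · rw [ind_of_mem (Set.mem_union_left F h), ind_of_mem h]
    linarith [ind_nonneg F a]
  · by_cases h' : a ∈ F
    · rw [ind_of_mem (Set.mem_union_right E h'), ind_of_mem h']
      linarith [ind_nonneg E a]
    · rw [ind_of_not_mem (fun hh => hh.elim h h')]
      linarith [ind_nonneg E a, ind_nonneg F a]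

lemma cnt_nonneg (E : Set ℕ) (N : ℕ) : 0 ≤ cnt E N := sum_nonneg fun a _ => ind_nonneg E a

lemma cnt_mono {E F : Set ℕ} {N : ℕ} (h : ∀ a, 1 ≤ a → a ≤ N → a ∈ E → a ∈ F) :
    cnt E N ≤ cnt F N := by
  apply sum_le_sum
  intro a ha
  rw [mem_Icc] at ha
  by_cases hE : a ∈ E
  · rw [ind_of_mem hE, ind_of_mem (h a ha.1 ha.2 hE)]
  · rw [ind_of_not_mem hE]; exact ind_nonneg F a

lemma cnt_union (E F : Set ℕ) (N : ℕ) : cnt (E ∪ F) N ≤ cnt E N + cnt F N := by
  unfold cnt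
  rw [← sum_add_distrib]
  exact sum_le_sum fun a _ => ind_union E F a

lemma cnt_le (E : Set ℕ) (N : ℕ) : cnt E N ≤ N := by
  unfold cnt
  calc _ ≤ ∑ a ∈ Icc 1 N, (1 : ℝ) := by
        apply sum_le_sum
        intro a _
        by_cases h : a ∈ E
        · rw [ind_of_mem h]
        · rw [ind_of_not_mem h]; exact zero_le_one
    _ = N := by simp

lemma cnt_le_sum {E : Set ℕ} {N : ℕ} {f : ℕ → ℝ} (h0 : ∀ a, 0 ≤ f a)
    (h1 : ∀ a, 1 ≤ a → a ≤ N → a ∈ E → 1 ≤ f a) : cnt E N ≤ ∑ a ∈ Icc 1 N, f a := by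
  apply sum_le_sum
  intro a ha
  rw [mem_Icc] at ha
  by_cases hE : a ∈ E
  · rw [ind_of_mem hE]; exact h1 a ha.1 ha.2 hE
  · rw [ind_of_not_mem hE]; exact h0 a

/-- Markov's inequality -/
lemma cnt_markov {E : Set ℕ} {N : ℕ} {f : ℕ → ℝ} {t : ℝ} (ht : 0 < t) (h0 : ∀ a, 0 ≤ f a)
    (h1 : ∀ a, 1 ≤ a → a ≤ N → a ∈ E → t ≤ f a) : cnt E N ≤ (∑ a ∈ Icc 1 N, f a) / t := by
  rw [sum_div]
  apply cnt_le_sum
  · intro a; exact div_nonneg (h0 a) ht.le
  · intro a h2 h3 h4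
    rw [one_le_div ht]
    exact h1 a h2 h3 h4

lemma UD.mono {E F : Set ℕ} {δ : ℝ} (h : UD F δ) (hEF : E ⊆ F) : UD E δ := by
  intro ε hε
  filter_upwards [h ε hε] with N hN
  exact (cnt_mono fun a _ _ ha => hEF ha).trans hN

lemma UD.union {E F : Set ℕ} {δ δ' : ℝ} (hE : UD E δ) (hF : UD F δ') : UD (E ∪ F) (δ + δ') := by
  intro ε hε
  filter_upwards [hE (ε / 2) (by linarith), hF (ε / 2) (by linarith)] with N h1 h2
  have := cnt_union E F N
  nlinarith

lemma UD.le {E : Set ℕ} {δ δ' : ℝ} (hE : UD E δ) (h : δ ≤ δ') : UD E δ' := by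
  intro ε hε
  filter_upwards [hE ε hε] with N h1
  refine h1.trans ?_
  apply mul_le_mul_of_nonneg_right _ (Nat.cast_nonneg N)
  linarith

lemma UD.of_forall {E : Set ℕ} (h : ∀ δ : ℝ, 0 < δ → UD E δ) : UD E 0 := by
  intro ε hε
  filter_upwards [h (ε / 2) (by linarith) (ε / 2) (by linarith)] with N h1
  refine h1.trans (le_of_eq ?_)
  ring

lemma UD_empty : UD ∅ 0 := by
  intro ε hε
  filter_upwards with N
  unfold cnt
  simp
  positivity

lemma UD.biUnion {ι : Type*} (s : Finset ι) (E : ι → Set ℕ) (h : ∀ i ∈ s, UD (E i) 0) :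
    UD (⋃ i ∈ s, E i) 0 := by
  classical
  induction s using Finset.induction_on with
  | empty => simpa using UD_empty
  | insert i s hi ih =>
    rw [Finset.set_biUnion_insert]
    have h1 := (h i (mem_insert_self i s)).union (ih fun j hj => h j (mem_insert_of_mem hj))
    rwa [add_zero] at h1

/-- eventual bound for the counting function gives a bound for the upper density -/
lemma UD.of_eventually {E : Set ℕ} {δ : ℝ} (h : ∀ᶠ N : ℕ in atTop, cnt E N ≤ δ * N) : UD E δ := by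
  intro ε hε
  filter_upwards [h] with N hN
  refine hN.trans ?_
  apply mul_le_mul_of_nonneg_right _ (Nat.cast_nonneg N)
  linarith

lemma UD_zero_iff {E : Set ℕ} : UD E 0 ↔ Tendsto (fun N : ℕ => cnt E N / N) atTop (𝓝 0) := by
  constructor
  · intro h
    rw [Metric.tendsto_atTop']
    intro ε hε
    have h1 := h (ε / 2) (by linarith)
    rw [eventually_atTop] at h1
    obtain ⟨n0, hn0⟩ := h1
    refine ⟨n0, fun N hN => ?_⟩
    have h2 := hn0 N hN.le
    rw [Real.dist_eq, sub_zero, abs_of_nonneg (div_nonneg (cnt_nonneg E N) (Nat.cast_nonneg N))]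
    have hN0 : (0 : ℝ) < N := by
      have : 0 < N := by omega
      exact_mod_cast this
    rw [div_lt_iff₀ hN0]
    nlinarith
  · intro h ε hε
    have h1 := h.eventually (gt_mem_nhds hε)
    filter_upwards [h1, eventually_gt_atTop 0] with N hN hN0
    have hN0' : (0 : ℝ) < N := by exact_mod_cast hN0
    rw [div_lt_iff₀ hN0'] at hN
    linarith

end

end Pool.Agent.Work.MP_2738db_nt_V
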