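import Mathlib

/-!
An elementary large sieve type inequality for Jacobi symbols.
-/

namespace Pool.Agent.Work.MP_2738db_nt_V

open Finset

open scoped NumberTheorySymbols

lemma exists_neg_one_prime (p : ℕ) (hp : p.Prime) (hp2 : p ≠ 2) : ∃ r : ℕ, J(r | p) = -1 := by
  have := Fact.mk hp
  obtain ⟨a, ha⟩ := FiniteField.exists_nonsquare (F := ZMod p) (by
    rw [ZMod.ringChar_zmod_n]; exact hp2)
  refine ⟨a.val, ?_⟩
  rw [← jacobiSym.legendreSym.to_jacobiSym, legendreSym.eq_neg_one_iff]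
  have : (((a.val : ℕ) : ℤ) : ZMod p) = a := by
    simp
  rw [this]
  exact ha

/-- if `p ∤ M` then some `n` has `(n/p) = -1` and `(n/M) = 1` -/
lemma exists_neg_one_aux (p M : ℕ) (hp : p.Prime) (hp2 : p ≠ 2) (hM : ¬ p ∣ M) (hM0 : M ≠ 0) :
    ∃ n : ℕ, J(n | p * M) = -1 := by
  obtain ⟨r, hr⟩ := exists_neg_one_prime p hp hp2
  have hco : Nat.Coprime p M := (Nat.Prime.coprime_iff_not_dvd hp).mpr hM
  obtain ⟨n, hn1, hn2⟩ := Nat.chineseRemainder hco r 1
  refine ⟨n, ?_⟩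
  have : NeZero p := ⟨hp.ne_zero⟩
  have : NeZero M := ⟨hM0⟩
  rw [jacobiSym.mul_right]
  have h1 : J(n | p) = J(r | p) := by
    rw [jacobiSym.mod_left n p, jacobiSym.mod_left r p]
    congr 1
    have : n % p = r % p := hn1
    exact_mod_cast this
  have h2 : J(n | M) = J(1 | M) := by
    rw [jacobiSym.mod_left n M, jacobiSym.mod_left 1 M]
    congr 1
    have : n % M = 1 % M := hn2
    exact_mod_cast this
  rw [h1, hr, h2, jacobiSym.one_left]
  norm_num

lemma exists_neg_one {d e : ℕ} (hd : Odd d) (he : Odd e) (hds : Squarefree d) (hes : Squarefree e)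
    (hne : d ≠ e) : ∃ n : ℕ, J(n | d * e) = -1 := by
  -- there is a prime dividing exactly one of them
  have key : ∀ d e : ℕ, Odd d → Odd e → Squarefree d → Squarefree e → (∃ p : ℕ, p.Prime ∧ p ∣ d ∧ ¬ p ∣ e) →
      ∃ n : ℕ, J(n | d * e) = -1 := by
    intro d e hd he hds hes ⟨p, hp, hpd, hpe⟩
    obtain ⟨k, rfl⟩ := hpd
    have hk : ¬ p ∣ k := by
      intro ⟨j, hj⟩
      rw [hj, ← mul_assoc] at hds
      have := hds p (Dvd.intro _ rfl)
      exact hp.one_lt.ne' (Nat.isUnit_iff.mp this)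
    have hp2 : p ≠ 2 := by
      rintro rfl
      rw [Nat.odd_mul] at hd
      exact absurd hd.1 (by decide)
    rw [mul_assoc]
    apply exists_neg_one_aux p (k * e) hp hp2
    · rw [hp.dvd_mul]; tauto
    · have := (Nat.odd_mul.mp hd).2.pos
      have := he.pos
      positivity
  by_cases h : ∃ p : ℕ, p.Prime ∧ p ∣ d ∧ ¬ p ∣ e
  · exact key d e hd he hds hes h
  · by_cases h' : ∃ p : ℕ, p.Prime ∧ p ∣ e ∧ ¬ p ∣ d
    · rw [mul_comm]
      exact key e d he hd hes hds h'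
    · exfalso
      push Not at h h'
      apply hne
      rw [Nat.Squarefree.ext_iff hds hes]
      intro p hp
      exact ⟨h p hp, h' p hp⟩

lemma sum_jacobi_eq_zero (M : ℕ) (hM : M ≠ 0) {n : ℕ} (hn : J(n | M) = -1) :
    ∑ k ∈ range M, J(k | M) = 0 := by
  obtain ⟨m, rfl⟩ := Nat.exists_eq_succ_of_ne_zero hM
  have hco : Nat.Coprime n (m + 1) := by
    have : NeZero (m + 1) := ⟨by omega⟩
    by_contra h
    have h2 : J((n : ℤ) | m + 1) = 0 := by
      rw [jacobiSym.eq_zero_iff_not_coprime, Int.gcd_natCast_natCast]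
      exact h
    rw [h2] at hn
    norm_num at hn
  set G : ZMod (m + 1) → ℤ := fun a => J((a.val : ℤ) | m + 1) with hG
  have h1 : ∑ k ∈ range (m + 1), J(k | m + 1) = ∑ a : ZMod (m + 1), G a := by
    rw [← Fin.sum_univ_eq_sum_range (fun k => J((k : ℤ) | m + 1))]
    rfl
  have hu : IsUnit (n : ZMod (m + 1)) := (ZMod.isUnit_iff_coprime n (m + 1)).mpr hco
  obtain ⟨u, hu⟩ := hu
  have h2 : ∀ a : ZMod (m + 1), G (u * a) = - G a := by
    intro a
    simp only [hG]
    rw [ZMod.val_mul, hu]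
    have h3 : J(((((n : ZMod (m + 1)).val * a.val) % (m + 1) : ℕ) : ℤ) | m + 1) =
        J(((n * a.val : ℕ) : ℤ) | m + 1) := by
      have : NeZero (m + 1) := ⟨by omega⟩
      rw [jacobiSym.mod_left _ (m + 1), jacobiSym.mod_left ((n * a.val : ℕ) : ℤ) (m + 1)]
      congr 1
      rw [ZMod.val_natCast]
      norm_cast
      simp [Nat.mul_mod]
    rw [h3]
    push_cast
    rw [jacobiSym.mul_left, hn]
    ring
  have h3 : ∑ a : ZMod (m + 1), G a = - ∑ a : ZMod (m + 1), G a := by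
    calc ∑ a : ZMod (m + 1), G a = ∑ a : ZMod (m + 1), G (u * a) :=
          (Fintype.sum_equiv (Units.mulLeft u) (fun a => G (u * a)) G (fun a => rfl)).symm
      _ = - ∑ a : ZMod (m + 1), G a := by
          rw [← sum_neg_distrib]
          exact sum_congr rfl fun a _ => h2 a
  rw [h1]
  omega

/-- partial sums of a periodic function with vanishing sum over a period -/
lemma abs_sum_periodic (F : ℕ → ℤ) (M : ℕ) (hM : 0 < M) (hper : ∀ k, F (k + M) = F k)
    (h0 : ∑ k ∈ range M, F k = 0) (hb : ∀ k, |F k| ≤ 1) (n : ℕ) : |∑ k ∈ range n, F k| ≤ M := by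
  induction n using Nat.strong_induction_on with
  | _ n ih =>
    by_cases hn : n < M
    · calc |∑ k ∈ range n, F k| ≤ ∑ k ∈ range n, |F k| := abs_sum_le_sum_abs _ _
        _ ≤ ∑ k ∈ range n, 1 := sum_le_sum fun k _ => hb k
        _ = n := by simp
        _ ≤ M := by exact_mod_cast hn.le
    · have h1 : ∑ k ∈ range n, F k = ∑ k ∈ range (n - M), F k := by
        have h2 : n = M + (n - M) := by omega
        conv_lhs => rw [h2]
        rw [sum_range_add, h0, zero_add]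
        apply sum_congr rfl
        intro k _
        rw [add_comm, hper]
      rw [h1]
      exact ih (n - M) (by omega)

lemma abs_sum_Ioc_periodic (F : ℕ → ℤ) (M : ℕ) (hM : 0 < M) (hper : ∀ k, F (k + M) = F k)
    (h0 : ∑ k ∈ range M, F k = 0) (hb : ∀ k, |F k| ≤ 1) (x y : ℕ) (hxy : x ≤ y) :
    |∑ k ∈ Ioc x y, F k| ≤ 2 * M := by
  have h1 : ∑ k ∈ Ioc x y, F k = ∑ k ∈ range (y + 1), F k - ∑ k ∈ range (x + 1), F k := by
    have h2 : Ioc x y = Ico (x + 1) (y + 1) := by ext; simp only [mem_Ioc, mem_Ico]; omega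
    rw [h2, Finset.sum_Ico_eq_sub _ (by omega)]
  rw [h1]
  have h2 := abs_sum_periodic F M hM hper h0 hb (y + 1)
  have h3 := abs_sum_periodic F M hM hper h0 hb (x + 1)
  rw [abs_le] at h2 h3 ⊢
  constructor <;> linarith

lemma abs_jacobi_le (a : ℤ) (b : ℕ) : |J(a | b)| ≤ 1 := by
  rcases jacobiSym.trichotomy a b with h | h | h <;> rw [h] <;> norm_num

lemma abs_sum_jacobi_le {d e : ℕ} (hd : Odd d) (he : Odd e) (hds : Squarefree d)
    (hes : Squarefree e) (hne : d ≠ e) (x y : ℕ) (hxy : x ≤ y) :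
    |∑ n ∈ Ioc x y, J(n | d) * J(n | e)| ≤ 2 * (d * e : ℕ) := by
  have hd0 : NeZero d := ⟨hd.pos.ne'⟩
  have he0 : NeZero e := ⟨he.pos.ne'⟩
  obtain ⟨n0, hn0⟩ := exists_neg_one hd he hds hes hne
  have hM : d * e ≠ 0 := mul_ne_zero hd.pos.ne' he.pos.ne'
  have hz := sum_jacobi_eq_zero (d * e) hM hn0
  have h1 : ∑ n ∈ Ioc x y, J(n | d) * J(n | e) = ∑ n ∈ Ioc x y, J(n | d * e) := by
    apply sum_congr rfl
    intro n _
    rw [jacobiSym.mul_right]
  rw [h1]
  apply abs_sum_Ioc_periodic (fun n : ℕ => J((n : ℤ) | d * e)) (d * e) (Nat.pos_of_ne_zero hM) _ hz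
    (fun k => abs_jacobi_le _ _) x y hxy
  intro k
  apply jacobiSym.mod_left'
  push_cast
  simp

/-- the bilinear bound -/
theorem bilin (x y z D : ℕ) (hxy : x ≤ y) (hz : 1 ≤ z) (S P : Finset ℕ)
    (hS : ∀ d ∈ S, Odd d ∧ Squarefree d ∧ z < d ∧ d ≤ D) (hP : P ⊆ Ioc x y) :
    (∑ d ∈ S, (1 / (d : ℝ)) * |∑ n ∈ P, (J(n | d) : ℝ)|) ^ 2 ≤
      (y - x : ℝ) * ((y - x : ℝ) / z + 2 * (D : ℝ) ^ 2) := by
  classical
  set c : ℕ → ℝ := fun d => (if 0 ≤ ∑ n ∈ P, (J(n | d) : ℝ) then 1 else -1) * (1 / (d : ℝ)) with hc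
  have hcabs : ∀ d, |c d| = 1 / (d : ℝ) := by
    intro d
    simp only [hc]
    rw [abs_mul, abs_of_nonneg (by positivity : (0 : ℝ) ≤ 1 / (d : ℝ))]
    split_ifs <;> simp
  have h1 : ∑ d ∈ S, (1 / (d : ℝ)) * |∑ n ∈ P, (J(n | d) : ℝ)| =
      ∑ n ∈ P, ∑ d ∈ S, c d * (J(n | d) : ℝ) := by
    rw [sum_comm]
    apply sum_congr rfl
    intro d _
    rw [← mul_sum]
    simp only [hc]
    split_ifs with h
    · rw [abs_of_nonneg h, one_mul]
    · rw [abs_of_neg (not_le.mp h)]; ring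
  have hh : (0 : ℝ) ≤ (y : ℝ) - x := by
    have : (x : ℝ) ≤ y := by exact_mod_cast hxy
    linarith
  have hPcard : (P.card : ℝ) ≤ (y : ℝ) - x := by
    have h2 := card_le_card hP
    rw [Nat.card_Ioc] at h2
    have h3 : ((y - x : ℕ) : ℝ) = (y : ℝ) - x := Nat.cast_sub hxy
    rw [← h3]
    exact_mod_cast h2
  have h2 : (∑ n ∈ P, ∑ d ∈ S, c d * (J(n | d) : ℝ)) ^ 2 ≤
      P.card * ∑ n ∈ P, (∑ d ∈ S, c d * (J(n | d) : ℝ)) ^ 2 := sq_sum_le_card_mul_sum_sq
  have h3 : ∑ n ∈ P, (∑ d ∈ S, c d * (J(n | d) : ℝ)) ^ 2 ≤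
      ∑ n ∈ Ioc x y, (∑ d ∈ S, c d * (J(n | d) : ℝ)) ^ 2 :=
    sum_le_sum_of_subset_of_nonneg hP fun n _ _ => sq_nonneg _
  have h4 : ∑ n ∈ Ioc x y, (∑ d ∈ S, c d * (J(n | d) : ℝ)) ^ 2 =
      ∑ d ∈ S, ∑ e ∈ S, c d * c e * ∑ n ∈ Ioc x y, ((J(n | d) : ℝ) * (J(n | e) : ℝ)) := by
    have h5 : ∀ n : ℕ, (∑ d ∈ S, c d * (J(n | d) : ℝ)) ^ 2 =
        ∑ d ∈ S, ∑ e ∈ S, c d * c e * ((J(n | d) : ℝ) * (J(n | e) : ℝ)) := by
      intro n
      rw [sq, sum_mul_sum]
      apply sum_congr rfl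
      intro d _
      apply sum_congr rfl
      intro e _
      ring
    simp_rw [h5]
    rw [sum_comm]
    apply sum_congr rfl
    intro d _
    rw [sum_comm]
    apply sum_congr rfl
    intro e _
    rw [mul_sum]
  have h5 : ∀ d ∈ S, ∀ e ∈ S, c d * c e * ∑ n ∈ Ioc x y, ((J(n | d) : ℝ) * (J(n | e) : ℝ)) ≤
      (if d = e then (1 / (d : ℝ) ^ 2) * ((y : ℝ) - x) else 0) + 2 := by
    intro d hd e he
    have hd' : (0 : ℝ) < d := by
      have := (hS d hd).2.2.1
      have : 0 < d := by omega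
      exact_mod_cast this
    have he' : (0 : ℝ) < e := by
      have := (hS e he).2.2.1
      have : 0 < e := by omega
      exact_mod_cast this
    have h6 : c d * c e * ∑ n ∈ Ioc x y, ((J(n | d) : ℝ) * (J(n | e) : ℝ)) ≤
        (1 / (d : ℝ)) * (1 / (e : ℝ)) * |∑ n ∈ Ioc x y, ((J(n | d) : ℝ) * (J(n | e) : ℝ))| := by
      refine (le_abs_self _).trans (le_of_eq ?_)
      rw [abs_mul, abs_mul, hcabs, hcabs]
    refine h6.trans ?_
    by_cases hde : d = e
    · rw [if_pos hde]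
      subst hde
      have h7 : |∑ n ∈ Ioc x y, ((J(n | d) : ℝ) * (J(n | d) : ℝ))| ≤ (y : ℝ) - x := by
        refine (abs_sum_le_sum_abs _ _).trans ?_
        calc _ ≤ ∑ n ∈ Ioc x y, (1 : ℝ) := by
              apply sum_le_sum
              intro n _
              rw [abs_mul]
              have h8 : |(J(n | d) : ℝ)| ≤ 1 := by exact_mod_cast abs_jacobi_le n d
              have h9 := abs_nonneg (J(n | d) : ℝ)
              nlinarith
          _ = _ := by
              rw [sum_const, Nat.card_Ioc, nsmul_eq_mul, mul_one, Nat.cast_sub hxy]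
      have h8 : (1 / (d : ℝ)) * (1 / (d : ℝ)) = 1 / (d : ℝ) ^ 2 := by field_simp
      rw [h8]
      have h9 : (0 : ℝ) ≤ 1 / (d : ℝ) ^ 2 := by positivity
      nlinarith
    · rw [if_neg hde, zero_add]
      have h7 := abs_sum_jacobi_le (hS d hd).1 (hS e he).1 (hS d hd).2.1 (hS e he).2.1 hde x y hxy
      have h8 : |∑ n ∈ Ioc x y, ((J(n | d) : ℝ) * (J(n | e) : ℝ))| ≤ 2 * (d * e) := by
        exact_mod_cast h7
      calc (1 / (d : ℝ)) * (1 / (e : ℝ)) * |∑ n ∈ Ioc x y, ((J(n | d) : ℝ) * (J(n | e) : ℝ))|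
          ≤ (1 / (d : ℝ)) * (1 / (e : ℝ)) * (2 * (d * e)) :=
            mul_le_mul_of_nonneg_left h8 (by positivity)
        _ = 2 := by field_simp
  have h6 : ∑ n ∈ Ioc x y, (∑ d ∈ S, c d * (J(n | d) : ℝ)) ^ 2 ≤
      ((y : ℝ) - x) / z + 2 * (D : ℝ) ^ 2 := by
    rw [h4]
    calc _ ≤ ∑ d ∈ S, ∑ e ∈ S, ((if d = e then (1 / (d : ℝ) ^ 2) * ((y : ℝ) - x) else 0) + 2) :=
          sum_le_sum fun d hd => sum_le_sum fun e he => h5 d hd e he
      _ = ∑ d ∈ S, (1 / (d : ℝ) ^ 2) * ((y : ℝ) - x) + 2 * (S.card : ℝ) ^ 2 := by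
          simp_rw [sum_add_distrib]
          congr 1
          · apply sum_congr rfl
            intro d hd
            rw [sum_ite_eq, if_pos hd]
          · simp; ring
      _ ≤ _ := by
          apply add_le_add
          · rw [← sum_mul, div_eq_mul_one_div, mul_comm]
            apply mul_le_mul_of_nonneg_left _ hh
            -- `∑_{z < d} 1 / d ^ 2 ≤ 1 / z`
            have h7 : ∀ D : ℕ, z ≤ D → ∑ d ∈ Ioc z D, 1 / (d : ℝ) ^ 2 ≤ 1 / (z : ℝ) - 1 / (D : ℝ) := by
              intro D hD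
              induction D, hD using Nat.le_induction with
              | base => simp
              | succ D hD ih =>
                rw [Finset.sum_Ioc_succ_top (by omega)]
                have hD' : (0 : ℝ) < D := by
                  have : 0 < D := by omega
                  exact_mod_cast this
                have h8 : 1 / ((D + 1 : ℕ) : ℝ) ^ 2 ≤ 1 / D - 1 / ((D + 1 : ℕ) : ℝ) := by
                  push_cast
                  rw [div_sub_div _ _ (by positivity) (by positivity),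
                    div_le_div_iff₀ (by positivity) (by positivity)]
                  nlinarith
                linarith
            have h8 : S ⊆ Ioc z (max z D) := by
              intro d hd
              rw [mem_Ioc]
              exact ⟨(hS d hd).2.2.1, (hS d hd).2.2.2.trans (le_max_right _ _)⟩
            calc ∑ d ∈ S, 1 / (d : ℝ) ^ 2 ≤ ∑ d ∈ Ioc z (max z D), 1 / (d : ℝ) ^ 2 :=
                  sum_le_sum_of_subset_of_nonneg h8 fun d _ _ => by positivity
              _ ≤ 1 / (z : ℝ) - 1 / ((max z D : ℕ) : ℝ) := h7 _ (le_max_left _ _)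
              _ ≤ 1 / (z : ℝ) := by
                have : (0 : ℝ) ≤ 1 / ((max z D : ℕ) : ℝ) := by positivity
                linarith
          · have h7 : S ⊆ Ioc 0 D := by
              intro d hd
              rw [mem_Ioc]
              have := (hS d hd).2.2.1
              exact ⟨by omega, (hS d hd).2.2.2⟩
            have h8 := card_le_card h7
            rw [Nat.card_Ioc, Nat.sub_zero] at h8
            have h9 : (S.card : ℝ) ≤ D := by exact_mod_cast h8
            have h10 : (0 : ℝ) ≤ S.card := Nat.cast_nonneg _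
            nlinarith
  rw [h1]
  calc _ ≤ P.card * ∑ n ∈ P, (∑ d ∈ S, c d * (J(n | d) : ℝ)) ^ 2 := h2
    _ ≤ ((y : ℝ) - x) * (((y : ℝ) - x) / z + 2 * (D : ℝ) ^ 2) := by
        apply mul_le_mul hPcard (h3.trans h6) _ hh
        exact sum_nonneg fun n _ => sq_nonneg _

end Pool.Agent.Work.MP_2738db_nt_V
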