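import Pool.Agent.Work.MP_2738db_nt_V.Core

/-!
Summation over dyadic boxes of the largest prime.
-/

namespace Pool.Agent.Work.MP_2738db_nt_V

open Finset

open scoped NumberTheorySymbols

noncomputable section

/-- the exceptional set, with all parameters -/
def ES (c h : ℕ) (Q : Finset ℕ) (W : ℝ) (D Y : ℕ) : Set ℕ :=
  {a | ∃ P : ℕ, P.Prime ∧ Y < P ∧ P ∣ a ∧ a / P ∈ TT h Q W D ∧
    ∃ U ∈ GU h (a / P), ∀ q ∈ Q, q ∣ U → J((c * (a / P / U) * P : ℕ) | q) = 1}

/-- the summand -/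
def FF (c h : ℕ) (Q : Finset ℕ) (W : ℝ) (D P : ℕ) (a : ℕ) : ℝ :=
  (TT h Q W D).indicator (fun a => ∑ U ∈ GU h a, wt c Q U (a / U) P) a

lemma FF_nonneg (c h : ℕ) (Q : Finset ℕ) (W : ℝ) (D P : ℕ) (a : ℕ) : 0 ≤ FF c h Q W D P a := by
  unfold FF
  apply Set.indicator_nonneg
  intro a _
  exact sum_nonneg fun U _ => wt_nonneg _ _ _ _ _

lemma cnt_ES_le (c h : ℕ) (Q : Finset ℕ) (W : ℝ) (D Y N : ℕ) :
    cnt (ES c h Q W D Y) N ≤ ∑ P ∈ (Ioc Y N).filter Nat.Prime,
      ∑ a ∈ Icc 1 (N / P), FF c h Q W D P a := by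
  classical
  have h1 : cnt (ES c h Q W D Y) N ≤ ∑ a ∈ Icc 1 N, ∑ P ∈ (Ioc Y N).filter Nat.Prime,
      (if P ∣ a then FF c h Q W D P (a / P) else 0) := by
    have h0 : ∀ a, 0 ≤ ∑ P ∈ (Ioc Y N).filter Nat.Prime,
        (if P ∣ a then FF c h Q W D P (a / P) else 0) := by
      intro a
      apply sum_nonneg
      intro P _
      split_ifs
      · exact FF_nonneg _ _ _ _ _ _ _
      · exact le_rfl
    apply cnt_le_sum h0
    rintro a ha1 haN ⟨P, hP, hYP, hPa, haT, U, hU, hq⟩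
    have hPN : P ≤ N := (Nat.le_of_dvd ha1 hPa).trans haN
    have hmem : P ∈ (Ioc Y N).filter Nat.Prime := by
      rw [mem_filter, mem_Ioc]; exact ⟨⟨hYP, hPN⟩, hP⟩
    have h2 : (1 : ℝ) ≤ FF c h Q W D P (a / P) := by
      unfold FF
      rw [Set.indicator_of_mem haT]
      have h3 : wt c Q U (a / P / U) P = 1 := wt_eq_one fun q hq1 hq2 => hq q hq1 hq2
      rw [← h3]
      exact single_le_sum (f := fun U => wt c Q U (a / P / U) P) (fun U _ => wt_nonneg _ _ _ _ _) hU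
    refine h2.trans ?_
    have h4 : FF c h Q W D P (a / P) = (if P ∣ a then FF c h Q W D P (a / P) else 0) := by
      rw [if_pos hPa]
    rw [h4]
    apply single_le_sum (f := fun P => (if P ∣ a then FF c h Q W D P (a / P) else 0)) _ hmem
    intro P _
    split_ifs
    · exact FF_nonneg _ _ _ _ _ _ _
    · exact le_rfl
  refine h1.trans ?_
  rw [sum_comm]
  apply sum_le_sum
  intro P hP
  rw [mem_filter, mem_Ioc] at hP
  rw [← sum_filter]
  apply le_of_eq
  apply sum_nbij' (i := fun a => a / P) (j := fun a => P * a)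
  · intro a ha
    rw [mem_filter, mem_Icc] at ha
    rw [mem_Icc]
    exact ⟨Nat.div_pos (Nat.le_of_dvd ha.1.1 ha.2) hP.2.pos, Nat.div_le_div_right ha.1.2⟩
  · intro a ha
    rw [mem_Icc] at ha
    rw [mem_filter, mem_Icc]
    refine ⟨⟨?_, ?_⟩, Dvd.intro _ rfl⟩
    · exact Nat.mul_pos hP.2.pos ha.1
    · rw [mul_comm]
      exact (Nat.le_div_iff_mul_le hP.2.pos).mp ha.2
  · intro a ha
    rw [mem_filter] at ha
    exact Nat.mul_div_cancel' ha.2
  · intro a _
    exact Nat.mul_div_cancel_left a hP.2.pos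
  · intro a _
    rfl

/-- the number of primes in a dyadic box -/
lemma card_box (j : ℕ) (hj : 1 ≤ j) (P : Finset ℕ)
    (hP : P ⊆ (Ioc (2 ^ j - 1) (2 ^ (j + 1) - 1)).filter Nat.Prime) :
    (P.card : ℝ) ≤ 2 ^ j * (70 / (j * Real.log 2)) := by
  have h2 : 2 ≤ 2 ^ j := by
    calc 2 = 2 ^ 1 := by norm_num
      _ ≤ 2 ^ j := Nat.pow_le_pow_right (by norm_num) hj
  have h1 := MP_0b7501_nt.brun_titchmarsh (2 ^ j - 1) (2 ^ j) h2
  have h3 : 2 ^ j - 1 + 2 ^ j = 2 ^ (j + 1) - 1 := by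
    rw [pow_succ]; omega
  rw [h3] at h1
  have h4 : (P.card : ℝ) ≤ (((Ioc (2 ^ j - 1) (2 ^ (j + 1) - 1)).filter Nat.Prime).card : ℝ) := by
    exact_mod_cast card_le_card hP
  refine h4.trans (h1.trans (le_of_eq ?_))
  push_cast
  rw [Real.log_pow]
  ring

theorem cnt_ES_bound (c h : ℕ) (Q : Finset ℕ) (z D Y N : ℕ) (hz : 1 ≤ z) (hY : 2 ≤ Y)
    (hN : 1 ≤ N) (hQ : ∀ q ∈ Q, q.Prime ∧ z < q ∧ q ≠ 2) (W : ℝ) (hW : 0 ≤ W) :
    cnt (ES c h Q W D Y) N ≤ N * ((Real.log N / Real.log 2 + 1) *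
      (140 * W / Real.log Y + (1 + Real.log N) * Real.sqrt (1 / z + 4 * (D : ℝ) ^ 2 / Y))) := by
  classical
  have hlog2 : 0 < Real.log 2 := Real.log_pos (by norm_num)
  have hlogN : 0 ≤ Real.log N := Real.log_natCast_nonneg N
  have hYR : (2 : ℝ) ≤ Y := by exact_mod_cast hY
  have hlogY : 0 < Real.log Y := Real.log_pos (by linarith)
  refine (cnt_ES_le c h Q W D Y N).trans ?_
  by_cases hYN : Y < N
  swap
  · have : Ioc Y N = ∅ := by ext; simp only [mem_Ioc, notMem_empty, iff_false]; omega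
    rw [this]
    simp only [filter_empty, sum_empty]
    positivity
  set S := (Ioc Y N).filter Nat.Prime with hS
  set J := Icc (Nat.log 2 Y) (Nat.log 2 N) with hJ
  -- enlarge the range of `a`
  have h1 : ∑ P ∈ S, ∑ a ∈ Icc 1 (N / P), FF c h Q W D P a ≤
      ∑ P ∈ S, ∑ a ∈ Icc 1 (N / 2 ^ (Nat.log 2 P)), FF c h Q W D P a := by
    apply sum_le_sum
    intro P hP
    rw [hS, mem_filter, mem_Ioc] at hP
    apply sum_le_sum_of_subset_of_nonneg
    · apply Icc_subset_Icc_right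
      apply Nat.div_le_div_left
      · exact Nat.pow_log_le_self 2 (by omega)
      · positivity
    · intro a _ _
      exact FF_nonneg _ _ _ _ _ _ _
  refine h1.trans ?_
  have hmaps : ∀ P ∈ S, Nat.log 2 P ∈ J := by
    intro P hP
    rw [hS, mem_filter, mem_Ioc] at hP
    rw [hJ, mem_Icc]
    exact ⟨Nat.log_mono_right hP.1.1.le, Nat.log_mono_right hP.1.2⟩
  rw [← sum_fiberwise_of_maps_to hmaps]
  -- the bound for one box
  have hj0 : 1 ≤ Nat.log 2 Y := by
    apply Nat.le_log_of_pow_le (by norm_num)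
    simpa using hY
  have hbox : ∀ j ∈ J, ∑ P ∈ S.filter (fun P => Nat.log 2 P = j),
      ∑ a ∈ Icc 1 (N / 2 ^ (Nat.log 2 P)), FF c h Q W D P a ≤
      N * (140 * W / Real.log Y + (1 + Real.log N) * Real.sqrt (1 / z + 4 * (D : ℝ) ^ 2 / Y)) := by
    intro j hj
    rw [hJ, mem_Icc] at hj
    set Pj := S.filter (fun P => Nat.log 2 P = j) with hPj
    have h2 : ∑ P ∈ Pj, ∑ a ∈ Icc 1 (N / 2 ^ (Nat.log 2 P)), FF c h Q W D P a =
        ∑ P ∈ Pj, ∑ a ∈ Icc 1 (N / 2 ^ j), FF c h Q W D P a := by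
      apply sum_congr rfl
      intro P hP
      rw [hPj, mem_filter] at hP
      rw [hP.2]
    rw [h2]
    have hsub : Pj ⊆ (Ioc (2 ^ j - 1) (2 ^ (j + 1) - 1)).filter Nat.Prime := by
      intro P hP
      rw [hPj, mem_filter, hS, mem_filter, mem_Ioc] at hP
      rw [mem_filter, mem_Ioc]
      have h3 : 2 ^ Nat.log 2 P ≤ P := Nat.pow_log_le_self 2 (by omega)
      have h4 : P < 2 ^ (Nat.log 2 P + 1) := Nat.lt_pow_succ_log_self (by norm_num) P
      rw [hP.2] at h3 h4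
      have h5 : 1 ≤ 2 ^ j := Nat.one_le_two_pow
      exact ⟨⟨by omega, by omega⟩, hP.1.2⟩
    have h3 := box_bound c h Q z D (N / 2 ^ j) (2 ^ j - 1) (2 ^ (j + 1) - 1) hz
      (by have : 2 ^ j ≤ 2 ^ (j + 1) := Nat.pow_le_pow_right (by norm_num) (by omega)
          omega) hQ W hW Pj (hsub.trans (filter_subset _ _))
    refine h3.trans ?_
    have h4 : (((2 ^ (j + 1) - 1 : ℕ) : ℝ) - ((2 ^ j - 1 : ℕ) : ℝ)) = 2 ^ j := by
      rw [Nat.cast_sub Nat.one_le_two_pow, Nat.cast_sub Nat.one_le_two_pow]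
      push_cast
      ring
    rw [h4]
    have hM : ((N / 2 ^ j : ℕ) : ℝ) ≤ N / 2 ^ j := by
      have := Nat.cast_div_le (α := ℝ) (m := N) (n := 2 ^ j)
      push_cast at this
      exact this
    have h2j : (0 : ℝ) < 2 ^ j := by positivity
    have hjpos : 1 ≤ j := hj0.trans hj.1
    have hcard := card_box j hjpos Pj hsub
    -- lower bounds for `j`
    have hjR : (Nat.log 2 Y : ℝ) ≤ j := by exact_mod_cast hj.1
    have hj0R : (1 : ℝ) ≤ Nat.log 2 Y := by exact_mod_cast hj0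
    have hYlt : Y < 2 ^ (Nat.log 2 Y + 1) := Nat.lt_pow_succ_log_self (by norm_num) Y
    have hYltR : (Y : ℝ) < 2 ^ (Nat.log 2 Y + 1) := by exact_mod_cast hYlt
    have hlogYle : Real.log Y ≤ 2 * (j * Real.log 2) := by
      have h5 := Real.log_le_log (by linarith) hYltR.le
      rw [Real.log_pow] at h5
      push_cast at h5
      nlinarith
    have h2jY : (Y : ℝ) ≤ 2 * 2 ^ j := by
      have h5 : (2 : ℝ) ^ (Nat.log 2 Y + 1) ≤ 2 ^ (j + 1) :=
        pow_le_pow_right₀ (by norm_num) (by omega)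
      rw [pow_succ 2 j] at h5
      linarith
    have hjl : 0 < j * Real.log 2 := by positivity
    have hA : (70 : ℝ) / (j * Real.log 2) ≤ 140 / Real.log Y := by
      rw [div_le_div_iff₀ hjl hlogY]
      linarith
    -- first part
    have hfirst : ((N / 2 ^ j : ℕ) : ℝ) * (W * Pj.card) ≤ N * (140 * W / Real.log Y) := by
      calc ((N / 2 ^ j : ℕ) : ℝ) * (W * Pj.card) ≤
            (N / 2 ^ j) * (W * (2 ^ j * (70 / (j * Real.log 2)))) := by
            apply mul_le_mul hM _ (by positivity) (by positivity)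
            exact mul_le_mul_of_nonneg_left hcard hW
        _ = N * (W * (70 / (j * Real.log 2))) := by
            field_simp
        _ ≤ N * (W * (140 / Real.log Y)) := by
            apply mul_le_mul_of_nonneg_left _ (Nat.cast_nonneg _)
            exact mul_le_mul_of_nonneg_left hA hW
        _ = _ := by ring
    -- second part
    have hsq : Real.sqrt ((2 : ℝ) ^ j * ((2 : ℝ) ^ j / z + 2 * (D : ℝ) ^ 2)) ≤
        2 ^ j * Real.sqrt (1 / z + 4 * (D : ℝ) ^ 2 / Y) := by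
      rw [Real.sqrt_le_left (by positivity), mul_pow, Real.sq_sqrt (by positivity)]
      have h5 : (2 : ℝ) * (D : ℝ) ^ 2 ≤ 2 ^ j * (4 * (D : ℝ) ^ 2 / Y) := by
        rw [mul_div_assoc', le_div_iff₀ (by linarith)]
        have : (0 : ℝ) ≤ (D : ℝ) ^ 2 := by positivity
        nlinarith
      have h6 : ((2 : ℝ) ^ j) ^ 2 * (1 / z + 4 * (D : ℝ) ^ 2 / Y) =
          2 ^ j * (2 ^ j / z + 2 ^ j * (4 * (D : ℝ) ^ 2 / Y)) := by ring
      rw [h6]
      apply mul_le_mul_of_nonneg_left _ h2j.le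
      linarith
    have hlogM : Real.log ((N / 2 ^ j : ℕ) : ℝ) ≤ Real.log N := by
      rcases Nat.eq_zero_or_pos (N / 2 ^ j) with h0 | h0
      · rw [h0]; simpa using hlogN
      · apply Real.log_le_log (by exact_mod_cast h0)
        exact_mod_cast Nat.div_le_self _ _
    have hlogM0 : 0 ≤ Real.log ((N / 2 ^ j : ℕ) : ℝ) := Real.log_natCast_nonneg _
    have hsecond : ((N / 2 ^ j : ℕ) : ℝ) * (1 + Real.log ((N / 2 ^ j : ℕ) : ℝ)) *
        Real.sqrt ((2 : ℝ) ^ j * ((2 : ℝ) ^ j / z + 2 * (D : ℝ) ^ 2)) ≤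
        N * ((1 + Real.log N) * Real.sqrt (1 / z + 4 * (D : ℝ) ^ 2 / Y)) := by
      calc _ ≤ (N / 2 ^ j) * (1 + Real.log N) * (2 ^ j * Real.sqrt (1 / z + 4 * (D : ℝ) ^ 2 / Y)) := by
            apply mul_le_mul _ hsq (Real.sqrt_nonneg _) (by positivity)
            apply mul_le_mul hM (by linarith) (by linarith) (by positivity)
        _ = _ := by
            field_simp
    linarith
  refine (sum_le_sum hbox).trans ?_
  rw [sum_const, nsmul_eq_mul]
  have hcardJ : (J.card : ℝ) ≤ Real.log N / Real.log 2 + 1 := by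
    rw [hJ, Nat.card_Icc]
    have h5 : ((Nat.log 2 N + 1 - Nat.log 2 Y : ℕ) : ℝ) ≤ (Nat.log 2 N : ℝ) + 1 := by
      have : Nat.log 2 N + 1 - Nat.log 2 Y ≤ Nat.log 2 N + 1 := Nat.sub_le _ _
      exact_mod_cast this
    have h6 : (Nat.log 2 N : ℝ) ≤ Real.log N / Real.log 2 := by
      rw [le_div_iff₀ hlog2, ← Real.log_pow]
      apply Real.log_le_log (by positivity)
      exact_mod_cast Nat.pow_log_le_self 2 (by omega)
    linarith
  have hnn : 0 ≤ 140 * W / Real.log Y + (1 + Real.log N) * Real.sqrt (1 / z + 4 * (D : ℝ) ^ 2 / Y) := by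
    positivity
  calc (J.card : ℝ) * (N * (140 * W / Real.log Y +
        (1 + Real.log N) * Real.sqrt (1 / z + 4 * (D : ℝ) ^ 2 / Y))) ≤
        (Real.log N / Real.log 2 + 1) * (N * (140 * W / Real.log Y +
        (1 + Real.log N) * Real.sqrt (1 / z + 4 * (D : ℝ) ^ 2 / Y))) :=
        mul_le_mul_of_nonneg_right hcardJ (by positivity)
    _ = _ := by ring

end

end Pool.Agent.Work.MP_2738db_nt_V
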