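import Pool.Agent.Work.MP_2738db_nt_V.Mert
import Pool.Agent.Work.MP_2738db_nt_V.Bilin
import Pool.Agent.Work.MP_0b7501_nt.BT

/-!
The counting inequality for integers `a = U * v` such that all primes of `v` are `1` modulo `h` and
`(c v / q) = 1` for the primes `q ∣ U` in a range.
-/

namespace Pool.Agent.Work.MP_2738db_nt_V

open Finset

open scoped NumberTheorySymbols

noncomputable section

/-- unitary divisors `U` of `a` such that all primes dividing `a / U` are `1` modulo `h` -/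
def GU (h a : ℕ) : Finset ℕ :=
  open Classical in
  a.divisors.filter (fun U => Nat.Coprime U (a / U) ∧ ∀ p : ℕ, p.Prime → p ∣ a / U → p % h = 1)

/-- the weight detecting `(c P v / q) = 1` for all `q ∈ Q` with `q ∣ U` -/
def wt (c : ℕ) (Q : Finset ℕ) (U v P : ℕ) : ℝ :=
  ∏ q ∈ Q.filter (fun q => q ∣ U), (1 + (J((c * v * P : ℕ) | q) : ℝ)) / 2

lemma jac_real_abs_le (a : ℤ) (b : ℕ) : |(J(a | b) : ℝ)| ≤ 1 := by
  exact_mod_cast abs_jacobi_le a b

lemma wt_nonneg (c : ℕ) (Q : Finset ℕ) (U v P : ℕ) : 0 ≤ wt c Q U v P := by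
  unfold wt
  apply prod_nonneg
  intro q _
  have := jac_real_abs_le ((c * v * P : ℕ) : ℤ) q
  rw [abs_le] at this
  linarith [this.1]

lemma wt_eq_one {c : ℕ} {Q : Finset ℕ} {U v P : ℕ}
    (h : ∀ q ∈ Q, q ∣ U → J((c * v * P : ℕ) | q) = 1) : wt c Q U v P = 1 := by
  unfold wt
  apply prod_eq_one
  intro q hq
  rw [mem_filter] at hq
  rw [h q hq.1 hq.2]
  norm_num

/-- the total weight of the principal terms -/
def G0 (h : ℕ) (Q : Finset ℕ) (a : ℕ) : ℝ :=
  ∑ U ∈ GU h a, (1 / 2 : ℝ) ^ (Q.filter (fun q => q ∣ U)).card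

/-- expansion of the weight -/
lemma wt_expand (c : ℕ) (Q : Finset ℕ) (hQ : ∀ q ∈ Q, q.Prime) (U v P : ℕ) :
    wt c Q U v P = (1 / 2 : ℝ) ^ (Q.filter (fun q => q ∣ U)).card *
      ∑ B ∈ (Q.filter (fun q => q ∣ U)).powerset,
        (J((c * v : ℕ) | ∏ q ∈ B, q) : ℝ) * (J((P : ℕ) | ∏ q ∈ B, q) : ℝ) := by
  unfold wt
  rw [prod_div_distrib, prod_const, Finset.prod_one_add]
  rw [one_div, inv_pow, div_eq_mul_inv, mul_comm]
  congr 1
  apply sum_congr rfl
  intro B hB
  rw [mem_powerset] at hB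
  have h1 : ∀ (x : ℤ) (B : Finset ℕ), B ⊆ Q → (J(x | ∏ q ∈ B, q) : ℝ) = ∏ q ∈ B, (J(x | q) : ℝ) := by
    intro x B
    induction B using Finset.induction_on with
    | empty => intro _; simp
    | insert q B hq ih =>
      intro hB
      have h2 : q ≠ 0 := (hQ q (hB (mem_insert_self q B))).ne_zero
      have h3 : ∏ q ∈ B, q ≠ 0 := by
        rw [prod_ne_zero_iff]
        intro q' hq'
        exact (hQ q' (hB (mem_insert_of_mem hq'))).ne_zero
      rw [prod_insert hq, prod_insert hq, jacobiSym.mul_right' x h2 h3]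
      push_cast
      rw [ih (fun y hy => hB (mem_insert_of_mem hy))]
  have hBQ : B ⊆ Q := hB.trans (filter_subset _ _)
  rw [h1 _ B hBQ, h1 _ B hBQ, ← prod_mul_distrib]
  apply prod_congr rfl
  intro q _
  rw [← Int.cast_mul, ← jacobiSym.mul_left]
  push_cast
  rfl

/-- the products of subsets of a set of primes are distinct -/
lemma prod_injOn (Q : Finset ℕ) (hQ : ∀ q ∈ Q, q.Prime) :
    Set.InjOn (fun B : Finset ℕ => ∏ q ∈ B, q) (Q.powerset : Set (Finset ℕ)) := by
  intro B hB B' hB' h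
  rw [mem_coe, mem_powerset] at hB hB'
  have h1 : ∀ B ⊆ Q, (∏ q ∈ B, q).primeFactors = B := by
    intro B hB
    exact Nat.primeFactors_prod fun q hq => hQ q (hB hq)
  rw [← h1 B hB, ← h1 B' hB']
  simp only at h
  rw [h]

/-- the odd squarefree integers in `(z, D]` -/
def Sd (z D : ℕ) : Finset ℕ := (Ioc z D).filter (fun d => Odd d ∧ Squarefree d)

/-- sum over the nonempty subsets of the primes dividing `U` -/
lemma sum_powerset_le (Q : Finset ℕ) (z D : ℕ) (hQ : ∀ q ∈ Q, q.Prime ∧ z < q ∧ q ≠ 2) (U a : ℕ)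
    (hU : U ∣ a) (hD : ∏ q ∈ Q.filter (fun q => q ∣ a), q ≤ D)
    (T : ℕ → ℝ) (hT : ∀ d, 0 ≤ T d) :
    ∑ B ∈ (Q.filter (fun q => q ∣ U)).powerset.erase ∅, T (∏ q ∈ B, q) ≤
      ∑ d ∈ (Sd z D).filter (fun d => d ∣ U), T d := by
  classical
  have hinj : Set.InjOn (fun B : Finset ℕ => ∏ q ∈ B, q)
      ((Q.filter (fun q => q ∣ U)).powerset.erase ∅ : Finset (Finset ℕ)) := by
    apply (prod_injOn Q (fun q hq => (hQ q hq).1)).mono
    intro B hB
    rw [mem_coe, mem_erase, mem_powerset] at hB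
    rw [mem_coe, mem_powerset]
    exact hB.2.trans (filter_subset _ _)
  rw [← sum_image (f := T) hinj]
  apply sum_le_sum_of_subset_of_nonneg _ fun d _ _ => hT d
  intro d hd
  rw [mem_image] at hd
  obtain ⟨B, hB, rfl⟩ := hd
  rw [mem_erase, mem_powerset] at hB
  obtain ⟨hB0, hB⟩ := hB
  have hBQ : ∀ q ∈ B, q ∈ Q ∧ q ∣ U := fun q hq => mem_filter.mp (hB hq)
  have hpos : ∀ q ∈ B, 0 < q := fun q hq => (hQ q (hBQ q hq).1).1.pos
  have hdvd : ∏ q ∈ B, q ∣ U := by
    apply Finset.prod_primes_dvd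
    · intro q hq; exact (hQ q (hBQ q hq).1).1.prime
    · intro q hq; exact (hBQ q hq).2
  rw [mem_filter, Sd, mem_filter, mem_Ioc]
  refine ⟨⟨⟨?_, ?_⟩, ?_, ?_⟩, hdvd⟩
  · obtain ⟨q, hq⟩ := nonempty_iff_ne_empty.mpr hB0
    have h1 : q ∣ ∏ q ∈ B, q := dvd_prod_of_mem _ hq
    have h2 : q ≤ ∏ q ∈ B, q := Nat.le_of_dvd (prod_pos hpos) h1
    exact lt_of_lt_of_le (hQ q (hBQ q hq).1).2.1 h2
  · refine le_trans ?_ hD
    apply prod_le_prod_of_subset_of_one_le'
    · intro q hq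
      rw [mem_filter]
      exact ⟨(hBQ q hq).1, (hBQ q hq).2.trans hU⟩
    · intro q hq _
      rw [mem_filter] at hq
      exact (hQ q hq.1).1.one_lt.le
  · rw [← Nat.not_even_iff_odd, even_iff_two_dvd, Nat.prime_two.prime.dvd_finsetProd_iff]
    rintro ⟨q, hq, h2⟩
    exact (hQ q (hBQ q hq).1).2.2 ((Nat.prime_dvd_prime_iff_eq Nat.prime_two (hQ q (hBQ q hq).1).1).mp h2).symm
  · apply Finset.squarefree_prod_of_pairwise_isCoprime
    · intro q hq q' hq' hne
      exact Nat.coprime_iff_isRelPrime.mp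
        ((Nat.coprime_primes (hQ q (hBQ q hq).1).1 (hQ q' (hBQ q' hq').1).1).mpr hne)
    · intro q hq
      exact (hQ q (hBQ q hq).1).1.prime.squarefree

/-- number of pairs `(a, U)` with `U ∣ a` and `d ∣ U` -/
lemma sum_pairs_le (M d : ℕ) (hd : 0 < d) :
    ∑ a ∈ Icc 1 M, ∑ U ∈ a.divisors, (if d ∣ U then (1 : ℝ) else 0) ≤
      (M : ℝ) / d * (1 + Real.log M) := by
  rcases Nat.eq_zero_or_pos M with hM | hM
  · subst hM; simp
  have h1 : ∀ a ∈ Icc 1 M, ∑ U ∈ a.divisors, (if d ∣ U then (1 : ℝ) else 0) ≤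
      ∑ k ∈ Icc 1 M, (if d * k ∣ a then (1 : ℝ) else 0) := by
    intro a ha
    rw [mem_Icc] at ha
    rw [← sum_filter, ← sum_filter, sum_const, sum_const, nsmul_eq_mul, nsmul_eq_mul, mul_one,
      mul_one]
    have h2 : (a.divisors.filter (fun U => d ∣ U)).card ≤
        ((Icc 1 M).filter (fun k => d * k ∣ a)).card := by
      apply card_le_card_of_injOn (fun U => U / d)
      · intro U hU
        rw [mem_coe, mem_filter, Nat.mem_divisors] at hU
        rw [mem_coe, mem_filter, mem_Icc]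
        have hUpos : 0 < U := Nat.pos_of_dvd_of_pos hU.1.1 (by omega)
        refine ⟨⟨Nat.div_pos (Nat.le_of_dvd hUpos hU.2) hd, ?_⟩, ?_⟩
        · exact ((Nat.div_le_self _ _).trans (Nat.le_of_dvd (by omega) hU.1.1)).trans ha.2
        · rw [Nat.mul_div_cancel' hU.2]; exact hU.1.1
      · intro U hU U' hU' h
        rw [mem_coe, mem_filter] at hU hU'
        simp only at h
        rw [← Nat.mul_div_cancel' hU.2, h, Nat.mul_div_cancel' hU'.2]
    exact_mod_cast h2
  calc _ ≤ ∑ a ∈ Icc 1 M, ∑ k ∈ Icc 1 M, (if d * k ∣ a then (1 : ℝ) else 0) := sum_le_sum h1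
    _ = ∑ k ∈ Icc 1 M, ∑ a ∈ Icc 1 M, (if d * k ∣ a then (1 : ℝ) else 0) := sum_comm
    _ ≤ ∑ k ∈ Icc 1 M, (M : ℝ) / (d * k : ℕ) := sum_le_sum fun k _ => sum_dvd_le M (d * k)
    _ = (M : ℝ) / d * ∑ k ∈ Icc 1 M, (1 : ℝ) / k := by
        rw [mul_sum]
        apply sum_congr rfl
        intro k _
        push_cast
        rw [div_mul_div_comm, mul_one]
    _ ≤ (M : ℝ) / d * (1 + Real.log M) := by
        apply mul_le_mul_of_nonneg_left _ (by positivity)
        have h := harmonic_le_one_add_log M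
        rw [harmonic_eq_sum_Icc] at h
        push_cast at h
        simpa [one_div] using h

/-- the set of cofactors `a'` with few principal terms and small radical -/
def TT (h : ℕ) (Q : Finset ℕ) (W : ℝ) (D : ℕ) : Set ℕ :=
  {a | G0 h Q a ≤ W ∧ ∏ q ∈ Q.filter (fun q => q ∣ a), q ≤ D}

/-- the contribution of one box of primes -/
lemma box_bound (c h : ℕ) (Q : Finset ℕ) (z D M x y : ℕ) (hz : 1 ≤ z) (hxy : x ≤ y)
    (hQ : ∀ q ∈ Q, q.Prime ∧ z < q ∧ q ≠ 2) (W : ℝ) (hW : 0 ≤ W) (P : Finset ℕ)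
    (hP : P ⊆ Ioc x y) :
    ∑ p ∈ P, ∑ a ∈ Icc 1 M, (TT h Q W D).indicator
        (fun a => ∑ U ∈ GU h a, wt c Q U (a / U) p) a ≤
      (M : ℝ) * (W * P.card) + (M : ℝ) * (1 + Real.log M) *
        Real.sqrt ((y - x : ℝ) * ((y - x : ℝ) / z + 2 * (D : ℝ) ^ 2)) := by
  classical
  set T : ℕ → ℝ := fun d => |∑ n ∈ P, (J(n | d) : ℝ)| with hT
  have hlogM : 0 ≤ Real.log M := Real.log_natCast_nonneg M
  -- pointwise bound
  have key : ∀ a ∈ Icc 1 M, ∑ p ∈ P, (TT h Q W D).indicator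
      (fun a => ∑ U ∈ GU h a, wt c Q U (a / U) p) a ≤
      W * P.card + ∑ U ∈ a.divisors, ∑ d ∈ (Sd z D).filter (fun d => d ∣ U), T d := by
    intro a ha
    rw [mem_Icc] at ha
    have hT0 : ∀ d, 0 ≤ T d := fun d => abs_nonneg _
    by_cases haT : a ∈ TT h Q W D
    · simp only [Set.indicator_of_mem haT]
      rw [sum_comm]
      have h1 : ∀ U ∈ GU h a, ∑ p ∈ P, wt c Q U (a / U) p ≤
          (1 / 2 : ℝ) ^ (Q.filter (fun q => q ∣ U)).card * P.card +
            ∑ d ∈ (Sd z D).filter (fun d => d ∣ U), T d := by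
        intro U hU
        unfold GU at hU
        rw [mem_filter, Nat.mem_divisors] at hU
        have h2 : ∑ p ∈ P, wt c Q U (a / U) p = (1 / 2 : ℝ) ^ (Q.filter (fun q => q ∣ U)).card *
            ∑ B ∈ (Q.filter (fun q => q ∣ U)).powerset,
              (J((c * (a / U) : ℕ) | ∏ q ∈ B, q) : ℝ) * ∑ p ∈ P, (J((p : ℕ) | ∏ q ∈ B, q) : ℝ) := by
          rw [sum_congr rfl fun p _ => wt_expand c Q (fun q hq => (hQ q hq).1) U (a / U) p]
          rw [← mul_sum, sum_comm]
          congr 1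
          apply sum_congr rfl
          intro B _
          rw [mul_sum]
        rw [h2, ← Finset.add_sum_erase _ _ (empty_mem_powerset _), mul_add]
        apply add_le_add
        · simp
        · have h3 : ∑ B ∈ (Q.filter (fun q => q ∣ U)).powerset.erase ∅,
              (J((c * (a / U) : ℕ) | ∏ q ∈ B, q) : ℝ) * ∑ p ∈ P, (J((p : ℕ) | ∏ q ∈ B, q) : ℝ) ≤
              ∑ d ∈ (Sd z D).filter (fun d => d ∣ U), T d := by
            refine le_trans (sum_le_sum fun B _ => ?_)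
              (sum_powerset_le Q z D hQ U a hU.1.1 haT.2 T hT0)
            refine (le_abs_self _).trans ?_
            rw [abs_mul]
            have h4 := jac_real_abs_le ((c * (a / U) : ℕ) : ℤ) (∏ q ∈ B, q)
            have h5 : 0 ≤ T (∏ q ∈ B, q) := hT0 _
            simp only [hT] at h5 ⊢
            calc _ ≤ 1 * |∑ n ∈ P, (J((n : ℕ) | ∏ q ∈ B, q) : ℝ)| :=
                  mul_le_mul_of_nonneg_right h4 (abs_nonneg _)
              _ = _ := one_mul _
          have h6 : (1 / 2 : ℝ) ^ (Q.filter (fun q => q ∣ U)).card ≤ 1 :=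
            pow_le_one₀ (by norm_num) (by norm_num)
          have h7 : (0 : ℝ) ≤ (1 / 2 : ℝ) ^ (Q.filter (fun q => q ∣ U)).card := by positivity
          have h8 : 0 ≤ ∑ d ∈ (Sd z D).filter (fun d => d ∣ U), T d := sum_nonneg fun d _ => hT0 d
          calc _ ≤ (1 / 2 : ℝ) ^ (Q.filter (fun q => q ∣ U)).card *
                ∑ d ∈ (Sd z D).filter (fun d => d ∣ U), T d := mul_le_mul_of_nonneg_left h3 h7
            _ ≤ 1 * ∑ d ∈ (Sd z D).filter (fun d => d ∣ U), T d :=
                mul_le_mul_of_nonneg_right h6 h8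
            _ = _ := one_mul _
      refine (sum_le_sum h1).trans ?_
      rw [sum_add_distrib]
      apply add_le_add
      · rw [← sum_mul]
        exact mul_le_mul_of_nonneg_right haT.1 (Nat.cast_nonneg _)
      · apply sum_le_sum_of_subset_of_nonneg
        · unfold GU; exact filter_subset _ _
        · intro U _ _
          exact sum_nonneg fun d _ => hT0 d
    · simp only [Set.indicator_of_notMem haT, sum_const_zero]
      have : 0 ≤ ∑ U ∈ a.divisors, ∑ d ∈ (Sd z D).filter (fun d => d ∣ U), T d :=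
        sum_nonneg fun U _ => sum_nonneg fun d _ => hT0 d
      positivity
  rw [sum_comm]
  refine (sum_le_sum key).trans ?_
  rw [sum_add_distrib]
  apply add_le_add
  · simp
  · have h1 : ∑ a ∈ Icc 1 M, ∑ U ∈ a.divisors, ∑ d ∈ (Sd z D).filter (fun d => d ∣ U), T d =
        ∑ d ∈ Sd z D, T d * ∑ a ∈ Icc 1 M, ∑ U ∈ a.divisors, (if d ∣ U then (1 : ℝ) else 0) := by
      simp_rw [sum_filter]
      simp_rw [mul_sum]
      rw [sum_congr rfl fun a _ => sum_comm]
      rw [sum_comm]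
      apply sum_congr rfl
      intro d _
      apply sum_congr rfl
      intro a _
      apply sum_congr rfl
      intro U _
      split_ifs <;> simp
    rw [h1]
    have h2 : ∀ d ∈ Sd z D, T d * ∑ a ∈ Icc 1 M, ∑ U ∈ a.divisors, (if d ∣ U then (1 : ℝ) else 0) ≤
        (M : ℝ) * (1 + Real.log M) * ((1 / (d : ℝ)) * T d) := by
      intro d hd
      rw [Sd, mem_filter, mem_Ioc] at hd
      have h3 := sum_pairs_le M d (by omega)
      calc _ ≤ T d * ((M : ℝ) / d * (1 + Real.log M)) :=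
            mul_le_mul_of_nonneg_left h3 (abs_nonneg _)
        _ = _ := by ring
    refine (sum_le_sum h2).trans ?_
    rw [← mul_sum]
    apply mul_le_mul_of_nonneg_left _ (by positivity)
    apply Real.le_sqrt_of_sq_le
    apply bilin x y z D hxy hz (Sd z D) P _ hP
    intro d hd
    rw [Sd, mem_filter, mem_Ioc] at hd
    exact ⟨hd.2.1, hd.2.2, hd.1.1, hd.1.2⟩

end

end Pool.Agent.Work.MP_2738db_nt_V
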