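import Pool.Agent.Work.MP_2738db_nt_V.Fixed

/-!
The density theorem for a fixed modulus.
-/

namespace Pool.Agent.Work.MP_2738db_nt_V

open Finset Filter Topology

noncomputable section

lemma ES_small (c h : ℕ) {η : ℝ} (hη : 0 < η) (hη1 : η ≤ 1) : ∀ᶠ N : ℕ in atTop,
    cnt (ES c h (QN N) (Real.exp (-(LL N / 10))) (pN (η / 4) N) (pN η N)) N ≤ η * N := by
  have hW : Tendsto (fun t : ℝ => 840 / η * Real.exp (-(t / 10))) atTop (𝓝 (840 / η * 0)) := by
    apply Tendsto.const_mul
    apply Real.tendsto_exp_neg_atTop_nhds_zero.comp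
    exact tendsto_id.atTop_div_const (by norm_num)
  rw [mul_zero] at hW
  have hexp : Tendsto (fun L : ℝ => Real.exp (η / 2 * L) / L ^ 6) atTop atTop := by
    have h2 := (Real.tendsto_exp_div_pow_atTop 6).comp (tendsto_id.const_mul_atTop (show (0 : ℝ) < η / 2 by linarith))
    have h3 : Tendsto (fun t : ℝ => (η / 2) ^ 6 * (Real.exp (η / 2 * t) / (η / 2 * t) ^ 6)) atTop atTop :=
      h2.const_mul_atTop (by positivity)
    refine h3.congr' ?_
    filter_upwards [eventually_gt_atTop 0] with t ht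
    field_simp
  filter_upwards [params1, pN_props hη hη1, pN_props (η := η / 4) (by linarith) (by linarith),
    zN_tendsto.eventually_ge_atTop 2, ev_t (hW.eventually (ge_mem_nhds (show (0 : ℝ) < η / 2 by linarith))),
    tendsto_logN.eventually (hexp.eventually_ge_atTop 8), tendsto_logN.eventually_ge_atTop (18 / η),
    tendsto_logN.eventually_ge_atTop 2]
    with N h1 h2 h3 hz2 hW1 hexp1 hL18 hL2
  obtain ⟨hN, h8, he, h4, hz, hy1, hy2, hzy⟩ := h1
  obtain ⟨g1, g2, g3, g4, g5, g6⟩ := h2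
  obtain ⟨-, -, k3, -, -, -⟩ := h3
  set L := Real.log N with hL
  have hL0 : 0 < L := by linarith
  have hbound := cnt_ES_bound c h (QN N) (zN N) (pN (η / 4) N) (pN η N) N (by omega) g5 (by omega)
    (by
      intro q hq
      refine ⟨QN_prime hq, ?_, ?_⟩
      · unfold QN at hq; rw [mem_filter, mem_Ioc] at hq; exact hq.1.1
      · unfold QN at hq; rw [mem_filter, mem_Ioc] at hq; omega)
    (Real.exp (-(LL N / 10))) (Real.exp_pos _).le
  refine hbound.trans ?_
  rw [mul_comm η (N : ℝ)]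
  apply mul_le_mul_of_nonneg_left _ (Nat.cast_nonneg N)
  set W := Real.exp (-(LL N / 10)) with hWdef
  have hW0 : 0 < W := Real.exp_pos _
  have hlog2a := Real.log_two_gt_d9
  have hlogY : 0 < Real.log (pN η N) := by
    have : 0 < η / 2 * L := by positivity
    linarith
  -- number of boxes
  have e1 : L / Real.log 2 + 1 ≤ 3 * L := by
    have : L / Real.log 2 ≤ 2 * L := by
      rw [div_le_iff₀ (by linarith)]
      nlinarith
    linarith
  -- first part
  have e2 : 140 * W / Real.log (pN η N) ≤ 280 * W / (η * L) := by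
    rw [div_le_div_iff₀ hlogY (by positivity)]
    nlinarith
  have e3 : 3 * L * (280 * W / (η * L)) = 840 / η * W := by
    field_simp
    ring
  -- second part
  have hz6 : L ^ 6 ≤ zN N := Nat.le_ceil _
  have e4 : 1 / (zN N : ℝ) ≤ 1 / L ^ 6 := one_div_le_one_div_of_le (by positivity) hz6
  have e5 : 4 * (pN (η / 4) N : ℝ) ^ 2 / (pN η N : ℝ) ≤ 1 / L ^ 6 := by
    have f1 : (pN (η / 4) N : ℝ) ^ 2 ≤ Real.exp (η / 2 * L) := by
      calc (pN (η / 4) N : ℝ) ^ 2 ≤ (Real.exp (η / 4 * L)) ^ 2 :=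
            pow_le_pow_left₀ (Nat.cast_nonneg _) k3 2
        _ = Real.exp (η / 2 * L) := by
            rw [← Real.exp_nat_mul]
            congr 1
            push_cast
            ring
    have f2 : Real.exp (η * L) = Real.exp (η / 2 * L) * Real.exp (η / 2 * L) := by
      rw [← Real.exp_add]; congr 1; ring
    have f3 : 8 * L ^ 6 ≤ Real.exp (η / 2 * L) := by
      have := hexp1
      rwa [le_div_iff₀ (by positivity)] at this
    have f4 := Real.exp_pos (η / 2 * L)
    rw [div_le_div_iff₀ (by linarith [Real.exp_pos (η * L)]) (by positivity)]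
    rw [f2] at g4
    have f5 : (4 : ℝ) * (pN (η / 4) N : ℝ) ^ 2 * L ^ 6 ≤ 4 * Real.exp (η / 2 * L) * L ^ 6 := by
      apply mul_le_mul_of_nonneg_right _ (by positivity)
      linarith
    have f6 : 8 * L ^ 6 * Real.exp (η / 2 * L) ≤ Real.exp (η / 2 * L) * Real.exp (η / 2 * L) :=
      mul_le_mul_of_nonneg_right f3 f4.le
    linarith
  have e6 : Real.sqrt (1 / (zN N : ℝ) + 4 * (pN (η / 4) N : ℝ) ^ 2 / (pN η N : ℝ)) ≤ 3 / 2 / L ^ 3 := by
    rw [Real.sqrt_le_left (by positivity), div_pow]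
    have f1 : (L ^ 3) ^ 2 = L ^ 6 := by ring
    rw [f1]
    have f2 : (1 : ℝ) / L ^ 6 + 1 / L ^ 6 ≤ (3 / 2) ^ 2 / L ^ 6 := by
      rw [← add_div]
      apply div_le_div_of_nonneg_right _ (by positivity)
      norm_num
    linarith
  have e7 : 3 * L * ((1 + L) * (3 / 2 / L ^ 3)) ≤ 9 / L := by
    have f1 : 3 * L * ((1 + L) * (3 / 2 / L ^ 3)) = (9 / 2 * (1 + L)) / L ^ 2 := by
      field_simp
      ring
    rw [f1, div_le_div_iff₀ (by positivity) hL0]
    nlinarith
  have e8 : 9 / L ≤ η / 2 := by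
    rw [div_le_iff₀ hL0]
    rw [div_le_iff₀ hη] at hL18
    linarith
  calc (L / Real.log 2 + 1) * (140 * W / Real.log (pN η N) + (1 + L) *
        Real.sqrt (1 / (zN N : ℝ) + 4 * (pN (η / 4) N : ℝ) ^ 2 / (pN η N : ℝ))) ≤
        (3 * L) * (280 * W / (η * L) + (1 + L) * (3 / 2 / L ^ 3)) := by
        apply mul_le_mul e1 _ (by positivity) (by positivity)
        apply add_le_add e2
        exact mul_le_mul_of_nonneg_left e6 (by linarith)
    _ = 840 / η * W + 3 * L * ((1 + L) * (3 / 2 / L ^ 3)) := by rw [mul_add, e3]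
    _ ≤ η := by linarith

lemma rs_filter_le (P : Finset ℕ) (r : ℕ → Prop) [DecidablePred r] : rs (P.filter r) ≤ rs P := by
  unfold rs
  apply sum_le_sum_of_subset_of_nonneg (filter_subset _ _)
  intro p _ _; positivity

lemma rs_split (P : Finset ℕ) (r : ℕ → Prop) [DecidablePred r] :
    rs (P.filter r) + rs (P.filter (fun p => ¬ r p)) = rs P := by
  unfold rs
  exact sum_filter_add_sum_filter_not P r _

lemma QN_le {N q : ℕ} (hy : yN N ≤ N) (hq : q ∈ QN N) : q ≤ N := by
  unfold QN at hq; rw [mem_filter, mem_Ioc] at hq; omega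

/-- the structured integers have density zero -/
theorem SS_density {h c C : ℕ} (hh : 3 ≤ h) (hc : 1 ≤ c) (hC : 1 ≤ C) : UD (SS h c C) 0 := by
  apply UD.of_forall
  intro δ hδ
  set η : ℝ := min (δ / 13) 1 with hηdef
  have hη : 0 < η := lt_min (by linarith) one_pos
  have hη1 : η ≤ 1 := min_le_right _ _
  have hηδ : 13 * η ≤ δ := by
    have := min_le_left (δ / 13) (1 : ℝ)
    rw [← hηdef] at this
    linarith
  apply UD.of_eventually
  have htot : (2 : ℝ) ≤ h.totient := by
    have h1 : 2 ≤ h.totient := by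
      have h2 : 0 < h.totient := Nat.totient_pos.mpr (by omega)
      have h3 : h.totient ≠ 1 := by
        intro h4
        rw [Nat.totient_eq_one_iff] at h4
        omega
      omega
    exact_mod_cast h1
  have hinv : ((h.totient : ℝ))⁻¹ ≤ 1 / 2 := by
    rw [one_div]
    exact inv_anti₀ (by norm_num) htot
  have hexp3 : Tendsto (fun L : ℝ => Real.exp (L / 3)) atTop atTop :=
    Real.tendsto_exp_atTop.comp (tendsto_id.atTop_div_const (by norm_num))
  filter_upwards [params1, pN_props hη hη1, zN_tendsto.eventually_ge_atTop (max c 2),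
    ES_small c h hη hη1, rs_Q1 (h := h) (by omega) (ε := 1 / 200) (by norm_num),
    rs_Q (ε := min (1 / 400) (η / 100)) (by positivity),
    rs_all (ε := min (1 / 400) (η / 100)) (by positivity),
    tendsto_LL.eventually_ge_atTop (60000 / η), tendsto_LL.eventually_ge_atTop (16 / η ^ 2),
    tendsto_logN.eventually_ge_atTop (22.4 / η ^ 2),
    tendsto_logN.eventually (hexp3.eventually_ge_atTop (C / η))]
    with N h1 h2 hz hES hrs1 hrs hrsall hLL1 hLL2 hL1 hexpL
  obtain ⟨hN, h8, he, h4, hzz, hy1, hy2, hzy⟩ := h1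
  obtain ⟨g1, g2, g3, g4, g5, g6⟩ := h2
  have hzc : c ≤ zN N := (le_max_left _ _).trans hz
  have hz2 : 2 ≤ zN N := (le_max_right _ _).trans hz
  have hyN : yN N ≤ N := g1.trans g2
  have hNR : (0 : ℝ) < N := by
    have : 0 < N := by omega
    exact_mod_cast this
  set L := Real.log N with hL
  have hLL0 : 0 < LL N := by linarith
  have hL0 : 0 < L := by
    have : 0 < 22.4 / η ^ 2 := by positivity
    linarith
  have hε1 : min (1 / 400 : ℝ) (η / 100) ≤ 1 / 400 := min_le_left _ _
  have hε2 : min (1 / 400 : ℝ) (η / 100) ≤ η / 100 := min_le_right _ _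
  set ε := min (1 / 400 : ℝ) (η / 100) with hε
  -- reciprocal sums
  have hQ1eq : rs (Q1 h N) = rs (PA h 1 (zN N) (yN N)) := by
    unfold Q1 QN PA
    rw [filter_filter]
    congr 1
    apply filter_congr
    intro q _
    constructor
    · rintro ⟨h5, h6⟩
      refine ⟨h5, ?_⟩
      have h7 : ((q : ℕ) : ZMod h) = ((1 : ℕ) : ZMod h) := by
        rw [ZMod.natCast_eq_natCast_iff]
        unfold Nat.ModEq
        rw [h6, Nat.mod_eq_of_lt (by omega)]
      simpa using h7
    · rintro ⟨h5, h6⟩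
      refine ⟨h5, ?_⟩
      have h7 : ((q : ℕ) : ZMod h) = ((1 : ℕ) : ZMod h) := by simpa using h6
      rw [ZMod.natCast_eq_natCast_iff] at h7
      unfold Nat.ModEq at h7
      rw [h7, Nat.mod_eq_of_lt (by omega)]
  have r1 : rs (Q1 h N) ≤ (1 / 2 + 1 / 100) * LL N := by
    rw [hQ1eq]
    refine hrs1.trans ?_
    apply mul_le_mul_of_nonneg_right _ hLL0.le
    linarith
  have r2 : (1 / 2 - 1 / 100) * LL N ≤ rs (Q2 h N) := by
    have h5 := rs_split (QN N) (fun q => q % h = 1)
    have h6 : rs (Q1 h N) ≤ (1 / 2 + 1 / 200) * LL N := by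
      rw [hQ1eq]
      refine hrs1.trans ?_
      apply mul_le_mul_of_nonneg_right _ hLL0.le
      linarith
    unfold Q1 at h6
    unfold Q2
    nlinarith
  have r3 : rs (QN N) ≤ 2 * LL N := by
    have h5 : rs (QN N) ≤ rs ((Ioc 0 N).filter Nat.Prime) := by
      unfold rs QN
      apply sum_le_sum_of_subset_of_nonneg
      · apply filter_subset_filter
        intro q hq
        rw [mem_Ioc] at hq ⊢
        omega
      · intro p _ _; positivity
    have h6 : (1 + ε) * LL N ≤ 2 * LL N := mul_le_mul_of_nonneg_right (by linarith) hLL0.le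
    linarith
  have r4 : rs (Q3 N) ≤ η / 50 * LL N := by
    have h5 := rs_split ((Ioc 0 N).filter Nat.Prime) (fun q => q ∈ QN N)
    have h6 : ((Ioc 0 N).filter Nat.Prime).filter (fun q => q ∈ QN N) = QN N := by
      ext q
      rw [mem_filter]
      constructor
      · intro h; exact h.2
      · intro h
        refine ⟨?_, h⟩
        rw [mem_filter, mem_Ioc]
        exact ⟨⟨(QN_prime h).pos, QN_le hyN h⟩, QN_prime h⟩
    rw [h6] at h5
    unfold Q3
    nlinarith
  -- the bad sets
  set B1 : Set ℕ := {a | LL N / 100 ≤ |om (Q1 h N) a - rs (Q1 h N)|} with hB1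
  set B2 : Set ℕ := {a | LL N / 100 ≤ |om (Q2 h N) a - rs (Q2 h N)|} with hB2
  set B3 : Set ℕ := {a | LL N / 50 ≤ om (Q3 N) a} with hB3
  set B4 : Set ℕ := {a | η / 4 * L ≤ ls (yN N) a} with hB4
  set B5 : Set ℕ := {a | L / 3 ≤ ls (pN η N) a} with hB5
  set B6 : Set ℕ := {a | Real.log a < 2 / 3 * L + Real.log C} with hB6
  set EE := ES c h (QN N) (Real.exp (-(LL N / 10))) (pN (η / 4) N) (pN η N) with hEE
  have hsub : cnt (SS h c C) N ≤ cnt (EE ∪ (B1 ∪ (B2 ∪ (B3 ∪ (B4 ∪ (B5 ∪ B6)))))) N := by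
    apply cnt_mono
    intro a ha1 haN haS
    by_contra hcon
    simp only [Set.mem_union, not_or] at hcon
    obtain ⟨n0, n1, n2, n3, n4, n5, n6⟩ := hcon
    apply n0
    exact mem_ES hc hC (by linarith) hzc hz2 g1 r1 r2 ha1 haN haS (not_le.mp n1) (not_le.mp n2)
      (not_le.mp n3) (not_le.mp n4) (not_le.mp n5) (not_lt.mp n6)
  have c1 : cnt B1 N ≤ η * N := by
    have h5 := cnt_abnormal (Q1 h N) (fun q hq => by unfold Q1 at hq; rw [mem_filter] at hq; exact QN_prime hq.1) N
      (fun q hq => by unfold Q1 at hq; rw [mem_filter] at hq; exact QN_le hyN hq.1)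
      (t := LL N / 100) (by positivity)
    refine h5.trans ?_
    rw [div_le_iff₀ (by positivity)]
    have h6 : 60000 ≤ η * LL N := by rw [div_le_iff₀ hη] at hLL1; linarith
    have h7 : 3 * rs (Q1 h N) ≤ 3 * LL N := by linarith
    have h8 : 3 * LL N ≤ η * (LL N / 100) ^ 2 := by nlinarith
    calc 3 * rs (Q1 h N) * N ≤ (η * (LL N / 100) ^ 2) * N :=
          mul_le_mul_of_nonneg_right (h7.trans h8) hNR.le
      _ = _ := by ring
  have c2 : cnt B2 N ≤ η * N := by
    have h5 := cnt_abnormal (Q2 h N) (fun q hq => by unfold Q2 at hq; rw [mem_filter] at hq; exact QN_prime hq.1) N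
      (fun q hq => by unfold Q2 at hq; rw [mem_filter] at hq; exact QN_le hyN hq.1)
      (t := LL N / 100) (by positivity)
    refine h5.trans ?_
    rw [div_le_iff₀ (by positivity)]
    have h6 : 60000 ≤ η * LL N := by rw [div_le_iff₀ hη] at hLL1; linarith
    have h7 : rs (Q2 h N) ≤ 2 * LL N := (rs_filter_le _ _).trans r3
    have h8 : 3 * (2 * LL N) ≤ η * (LL N / 100) ^ 2 := by nlinarith
    calc 3 * rs (Q2 h N) * N ≤ (η * (LL N / 100) ^ 2) * N :=
          mul_le_mul_of_nonneg_right (by linarith) hNR.le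
      _ = _ := by ring
  have c3 : cnt B3 N ≤ η * N := by
    have h5 := cnt_om_ge (Q3 N) N (t := LL N / 50) (by positivity)
    refine h5.trans ?_
    rw [div_le_iff₀ (by positivity)]
    nlinarith
  have c4 : cnt B4 N ≤ η * N := by
    have h5 := cnt_ls_ge (yN N) N (by omega) (t := η / 4 * L) (by positivity)
    refine h5.trans ?_
    rw [div_le_iff₀ (by positivity)]
    have h6 : Real.log (yN N) ≤ L / LL N := by
      have hypos : (0 : ℝ) < yN N := by
        have : 0 < yN N := by omega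
        exact_mod_cast this
      have h7 := Real.log_le_log hypos hy2
      rwa [Real.log_exp] at h7
    have h7 : L / LL N ≤ η ^ 2 / 16 * L := by
      rw [div_le_iff₀ hLL0]
      have h8 : 16 ≤ LL N * η ^ 2 := by rwa [div_le_iff₀ (by positivity)] at hLL2
      nlinarith
    have h8 : (22.4 : ℝ) ≤ L * η ^ 2 := by rwa [div_le_iff₀ (by positivity)] at hL1
    have h9 : Real.log (yN N) + 1.4 ≤ η ^ 2 / 8 * L := by nlinarith
    calc 2 * (N : ℝ) * (Real.log (yN N) + 1.4) ≤ 2 * N * (η ^ 2 / 8 * L) :=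
          mul_le_mul_of_nonneg_left h9 (by positivity)
      _ = η * N * (η / 4 * L) := by ring
  have c5 : cnt B5 N ≤ 7 * η * N := by
    have h5 := cnt_ls_ge (pN η N) N (by omega) (t := L / 3) (by positivity)
    refine h5.trans ?_
    rw [div_le_iff₀ (by positivity)]
    have h6 : Real.log (pN η N) ≤ η * L := by
      have hypos : (0 : ℝ) < pN η N := by
        have : 0 < pN η N := by omega
        exact_mod_cast this
      have h7 := Real.log_le_log hypos g3
      rwa [Real.log_exp] at h7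
    have h8 : (22.4 : ℝ) ≤ L * η ^ 2 := by rwa [div_le_iff₀ (by positivity)] at hL1
    have h9 : (22.4 : ℝ) ≤ L * η := by
      have : L * η ^ 2 ≤ L * η := by
        apply mul_le_mul_of_nonneg_left _ hL0.le
        nlinarith
      linarith
    have h10 : Real.log (pN η N) + 1.4 ≤ 7 * η / 6 * L := by nlinarith
    calc 2 * (N : ℝ) * (Real.log (pN η N) + 1.4) ≤ 2 * N * (7 * η / 6 * L) :=
          mul_le_mul_of_nonneg_left h10 (by positivity)
      _ = 7 * η * N * (L / 3) := by ring
  have c6 : cnt B6 N ≤ η * N := by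
    have hCR : (0 : ℝ) < C := by exact_mod_cast hC
    set M := ⌊(C : ℝ) * Real.exp (2 / 3 * L)⌋₊ with hM
    have h5 : cnt B6 N ≤ M := by
      have h6 : cnt B6 N ≤ ∑ a ∈ Icc 1 N, (if a ≤ M then (1 : ℝ) else 0) := by
        apply cnt_le_sum
        · intro a; split_ifs <;> norm_num
        · intro a ha1 _ haB
          rw [if_pos]
          rw [hM]
          apply Nat.le_floor
          have haR : (0 : ℝ) < a := by exact_mod_cast ha1
          have h7 : Real.log a < 2 / 3 * L + Real.log C := haB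
          have h8 : (a : ℝ) < Real.exp (2 / 3 * L + Real.log C) := by
            rwa [← Real.log_lt_iff_lt_exp haR]
          rw [Real.exp_add, Real.exp_log hCR] at h8
          linarith
      refine h6.trans ?_
      rw [← sum_filter, sum_const, nsmul_eq_mul, mul_one]
      have h7 : (Icc 1 N).filter (fun a => a ≤ M) ⊆ Icc 1 M := by
        intro a ha
        rw [mem_filter, mem_Icc] at ha
        rw [mem_Icc]; omega
      have h8 := card_le_card h7
      rw [Nat.card_Icc, Nat.add_sub_cancel] at h8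
      exact_mod_cast h8
    have h6 : (M : ℝ) ≤ C * Real.exp (2 / 3 * L) := Nat.floor_le (by positivity)
    have h7 : (C : ℝ) ≤ η * Real.exp (L / 3) := by
      rw [div_le_iff₀ hη] at hexpL
      linarith
    have h8 : (N : ℝ) = Real.exp (L / 3) * Real.exp (2 / 3 * L) := by
      rw [← Real.exp_add, show L / 3 + 2 / 3 * L = L by ring, hL, Real.exp_log hNR]
    calc cnt B6 N ≤ C * Real.exp (2 / 3 * L) := h5.trans h6
      _ ≤ (η * Real.exp (L / 3)) * Real.exp (2 / 3 * L) :=
          mul_le_mul_of_nonneg_right h7 (Real.exp_pos _).le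
      _ = η * N := by rw [h8]; ring
  have u1 := cnt_union EE (B1 ∪ (B2 ∪ (B3 ∪ (B4 ∪ (B5 ∪ B6))))) N
  have u2 := cnt_union B1 (B2 ∪ (B3 ∪ (B4 ∪ (B5 ∪ B6)))) N
  have u3 := cnt_union B2 (B3 ∪ (B4 ∪ (B5 ∪ B6))) N
  have u4 := cnt_union B3 (B4 ∪ (B5 ∪ B6)) N
  have u5 := cnt_union B4 (B5 ∪ B6) N
  have u6 := cnt_union B5 B6 N
  have hfin : cnt (SS h c C) N ≤ 13 * η * N := by linarith
  refine hfin.trans ?_
  exact mul_le_mul_of_nonneg_right hηδ hNR.le

end

end Pool.Agent.Work.MP_2738db_nt_V
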