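import Pool.Agent.Work.MP_2738db_nt_V.Core

/-!
The principal terms.
-/

namespace Pool.Agent.Work.MP_2738db_nt_V

open Finset

noncomputable section

lemma mem_GU {h a U : ℕ} : U ∈ GU h a ↔ (U ∣ a ∧ a ≠ 0) ∧ Nat.Coprime U (a / U) ∧
    ∀ p : ℕ, p.Prime → p ∣ a / U → p % h = 1 := by
  classical
  unfold GU
  simp only [mem_filter, Nat.mem_divisors]

/-- the exponents of a unitary divisor -/
lemma GU_factorization {h a U : ℕ} (hU : U ∈ GU h a) (p : ℕ) (hp : p.Prime) :
    U.factorization p = if p ∣ U then a.factorization p else 0 := by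
  rw [mem_GU] at hU
  obtain ⟨⟨hUa, ha⟩, hco, _⟩ := hU
  split_ifs with hpU
  · have h1 : a = U * (a / U) := (Nat.mul_div_cancel' hUa).symm
    have hU0 : U ≠ 0 := by rintro rfl; exact ha (zero_dvd_iff.mp hUa)
    have hv0 : a / U ≠ 0 := by
      intro h0; rw [h0, mul_zero] at h1; exact ha h1
    have h2 : a.factorization p = U.factorization p + (a / U).factorization p := by
      conv_lhs => rw [h1]
      rw [Nat.factorization_mul hU0 hv0]
      rfl
    have h3 : (a / U).factorization p = 0 := by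
      apply Nat.factorization_eq_zero_of_not_dvd
      intro h4
      have := Nat.dvd_gcd hpU h4
      rw [hco] at this
      exact hp.one_lt.ne' (Nat.dvd_one.mp this)
    omega
  · exact Nat.factorization_eq_zero_of_not_dvd hpU

lemma GU_dvd_iff {h a U : ℕ} (hU : U ∈ GU h a) (p : ℕ) (hp : p.Prime) (hph : p % h ≠ 1) :
    p ∣ U ↔ p ∣ a := by
  rw [mem_GU] at hU
  obtain ⟨⟨hUa, ha⟩, _, hmod⟩ := hU
  constructor
  · intro h1; exact h1.trans hUa
  · intro h1
    rw [← Nat.mul_div_cancel' hUa, hp.dvd_mul] at h1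
    rcases h1 with h2 | h2
    · exact h2
    · exact absurd (hmod p hp h2) hph

lemma GU_injOn (h a : ℕ) : Set.InjOn (fun U : ℕ => U.primeFactors.filter (fun p => p % h = 1))
    (GU h a : Set ℕ) := by
  intro U hU U' hU' heq
  rw [mem_coe] at hU hU'
  simp only at heq
  have hU0 : U ≠ 0 := by
    rw [mem_GU] at hU
    rintro rfl
    exact hU.1.2 (zero_dvd_iff.mp hU.1.1)
  have hU'0 : U' ≠ 0 := by
    rw [mem_GU] at hU'
    rintro rfl
    exact hU'.1.2 (zero_dvd_iff.mp hU'.1.1)
  have hiff : ∀ p : ℕ, p.Prime → (p ∣ U ↔ p ∣ U') := by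
    intro p hp
    by_cases hph : p % h = 1
    · have h1 : p ∈ U.primeFactors.filter (fun p => p % h = 1) ↔ p ∣ U := by
        rw [mem_filter, Nat.mem_primeFactors]
        exact ⟨fun h => h.1.2.1, fun h => ⟨⟨hp, h, hU0⟩, hph⟩⟩
      have h2 : p ∈ U'.primeFactors.filter (fun p => p % h = 1) ↔ p ∣ U' := by
        rw [mem_filter, Nat.mem_primeFactors]
        exact ⟨fun h => h.1.2.1, fun h => ⟨⟨hp, h, hU'0⟩, hph⟩⟩
      rw [← h1, ← h2, heq]
    · rw [GU_dvd_iff hU p hp hph, GU_dvd_iff hU' p hp hph]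
  apply Nat.eq_of_factorization_eq hU0 hU'0
  intro p
  by_cases hp : p.Prime
  · rw [GU_factorization hU p hp, GU_factorization hU' p hp]
    by_cases h1 : p ∣ U
    · rw [if_pos h1, if_pos ((hiff p hp).mp h1)]
    · rw [if_neg h1, if_neg (fun h => h1 ((hiff p hp).mpr h))]
  · rw [Nat.factorization_eq_zero_of_not_prime _ hp, Nat.factorization_eq_zero_of_not_prime _ hp]

/-- bound for the principal terms -/
theorem G0_le (h : ℕ) (Q : Finset ℕ) (hQ : ∀ q ∈ Q, q.Prime) (a : ℕ) :
    G0 h Q a ≤ (1 / 2 : ℝ) ^ (Q.filter (fun q => q % h ≠ 1 ∧ q ∣ a)).card *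
      ((3 / 2 : ℝ) ^ (Q.filter (fun q => q % h = 1 ∧ q ∣ a)).card *
        2 ^ (a.primeFactors.filter (fun q => q ∉ Q)).card) := by
  classical
  unfold G0
  set f : ℕ → ℝ := fun p => if p ∈ Q then 1 / 2 else 1 with hf
  set A := a.primeFactors.filter (fun p => p % h = 1) with hA
  have hf0 : ∀ p, 0 ≤ f p := fun p => by simp only [hf]; split_ifs <;> norm_num
  have h1 : ∀ U ∈ GU h a, (1 / 2 : ℝ) ^ (Q.filter (fun q => q ∣ U)).card =
      (1 / 2 : ℝ) ^ (Q.filter (fun q => q % h ≠ 1 ∧ q ∣ a)).card *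
        ∏ p ∈ U.primeFactors.filter (fun p => p % h = 1), f p := by
    intro U hU
    have hU0 : U ≠ 0 := by
      rw [mem_GU] at hU
      rintro rfl
      exact hU.1.2 (zero_dvd_iff.mp hU.1.1)
    have h2 : ∏ p ∈ U.primeFactors.filter (fun p => p % h = 1), f p =
        (1 / 2 : ℝ) ^ ((U.primeFactors.filter (fun p => p % h = 1)).filter (fun p => p ∈ Q)).card := by
      simp only [hf]
      rw [prod_ite]
      simp
    rw [h2, ← pow_add]
    congr 1
    rw [← card_union_of_disjoint]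
    · congr 1
      ext q
      simp only [mem_filter, mem_union, Nat.mem_primeFactors]
      constructor
      · rintro ⟨hq, hqU⟩
        by_cases hqh : q % h = 1
        · right; exact ⟨⟨⟨hQ q hq, hqU, hU0⟩, hqh⟩, hq⟩
        · left; exact ⟨hq, hqh, (GU_dvd_iff hU q (hQ q hq) hqh).mp hqU⟩
      · rintro (⟨hq, hqh, hqa⟩ | ⟨⟨⟨_, hqU, _⟩, _⟩, hq⟩)
        · exact ⟨hq, (GU_dvd_iff hU q (hQ q hq) hqh).mpr hqa⟩
        · exact ⟨hq, hqU⟩
    · rw [disjoint_left]
      intro q h3 h4
      simp only [mem_filter] at h3 h4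
      exact h3.2.1 h4.1.2
  rw [sum_congr rfl h1, ← mul_sum]
  apply mul_le_mul_of_nonneg_left _ (by positivity)
  have h2 : ∑ U ∈ GU h a, ∏ p ∈ U.primeFactors.filter (fun p => p % h = 1), f p ≤
      ∑ B ∈ A.powerset, ∏ p ∈ B, f p := by
    rw [← sum_image (f := fun B : Finset ℕ => ∏ p ∈ B, f p) (GU_injOn h a)]
    apply sum_le_sum_of_subset_of_nonneg
    · intro B hB
      rw [mem_image] at hB
      obtain ⟨U, hU, rfl⟩ := hB
      rw [mem_powerset, hA]
      apply filter_subset_filter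
      rw [mem_GU] at hU
      exact Nat.primeFactors_mono hU.1.1 hU.1.2
    · intro B _ _
      exact prod_nonneg fun p _ => hf0 p
  refine h2.trans ?_
  rw [← Finset.prod_one_add]
  have h3 : ∀ p ∈ A, 1 + f p = (if p ∈ Q then (3 / 2 : ℝ) else 2) := by
    intro p _
    simp only [hf]
    split_ifs <;> norm_num
  rw [prod_congr rfl h3, prod_ite, prod_const, prod_const]
  apply mul_le_mul
  · apply pow_le_pow_right₀ (by norm_num)
    apply card_le_card
    intro q hq
    simp only [hA, mem_filter, Nat.mem_primeFactors] at hq ⊢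
    exact ⟨hq.2, hq.1.2, hq.1.1.2.1⟩
  · apply pow_le_pow_right₀ (by norm_num)
    apply card_le_card
    intro q hq
    simp only [hA, mem_filter] at hq ⊢
    exact ⟨hq.1.1, hq.2⟩
  · positivity
  · positivity

end

end Pool.Agent.Work.MP_2738db_nt_V
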