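import Pool.Agent.Work.MP_2738db_nt_V.Params
import Pool.Agent.Work.MP_2738db_nt_V.Boxes
import Pool.Agent.Work.MP_2738db_nt_V.First

/-!
For a fixed modulus `h ≥ 3`, the set of integers `a = U v`, `U` small, all primes of `v` equal to
`1` modulo `h` and `(c v / q) = 1` for the primes `q ∣ U`, has density zero.
-/

namespace Pool.Agent.Work.MP_2738db_nt_V

open Finset Filter Topology

open scoped NumberTheorySymbols

noncomputable section

/-- the structured integers -/
def SS (h c C : ℕ) : Set ℕ :=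
  {a | ∃ U v : ℕ, a = U * v ∧ Nat.Coprime U v ∧ U ^ 2 ≤ C * a ∧
    (∀ p : ℕ, p.Prime → p ∣ v → p % h = 1) ∧
    ∀ q : ℕ, q.Prime → q ≠ 2 → q ∣ U → ¬ q ∣ c → J((c * v : ℕ) | q) = 1}

/-- the two parts of `QN` -/
def Q1 (h N : ℕ) : Finset ℕ := (QN N).filter (fun q => q % h = 1)

def Q2 (h N : ℕ) : Finset ℕ := (QN N).filter (fun q => q % h ≠ 1)

/-- the remaining primes -/
def Q3 (N : ℕ) : Finset ℕ := ((Ioc 0 N).filter Nat.Prime).filter (fun q => q ∉ QN N)

lemma QN_prime {N q : ℕ} (hq : q ∈ QN N) : q.Prime := by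
  unfold QN at hq; rw [mem_filter] at hq; exact hq.2

/-- the logarithm of the radical is at most the logarithm of the smooth part -/
lemma log_prod_le {Q : Finset ℕ} {Y a : ℕ} (hQ : ∀ q ∈ Q, q.Prime ∧ q ≤ Y) (ha : a ≠ 0)
    (hQa : ∀ q ∈ Q, q ∣ a) : Real.log (∏ q ∈ Q, q : ℕ) ≤ ls Y a := by
  push_cast
  rw [Real.log_prod]
  · unfold ls
    calc ∑ q ∈ Q, Real.log q ≤ ∑ q ∈ Q, (a.factorization q : ℝ) * Real.log q := by
          apply sum_le_sum
          intro q hq
          have h1 : 1 ≤ a.factorization q :=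
            (hQ q hq).1.factorization_pos_of_dvd ha (hQa q hq)
          have h2 : (1 : ℝ) ≤ a.factorization q := by exact_mod_cast h1
          have h3 : 0 ≤ Real.log q := Real.log_nonneg (by exact_mod_cast (hQ q hq).1.one_lt.le)
          nlinarith
      _ ≤ _ := by
          apply sum_le_sum_of_subset_of_nonneg
          · intro q hq
            rw [mem_filter, mem_Ioc]
            exact ⟨⟨(hQ q hq).1.pos, (hQ q hq).2⟩, (hQ q hq).1⟩
          · intro q hq _
            rw [mem_filter] at hq
            have h3 : 0 ≤ Real.log q := Real.log_nonneg (by exact_mod_cast hq.2.one_lt.le)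
            positivity
  · intro q hq
    exact_mod_cast (hQ q hq).1.ne_zero

/-- a divisor all of whose primes are at most `Y` is bounded by the smooth part -/
lemma log_le_ls {Y a v : ℕ} (ha : a ≠ 0) (hva : v ∣ a) (hv : ∀ p : ℕ, p.Prime → p ∣ v → p ≤ Y) :
    Real.log v ≤ ls Y a := by
  have hv0 : v ≠ 0 := by rintro rfl; exact ha (zero_dvd_iff.mp hva)
  have h1 : Real.log v = ∑ p ∈ v.primeFactors, (v.factorization p : ℝ) * Real.log p := by
    conv_lhs => rw [← Nat.prod_factorization_pow_eq_self hv0]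
    rw [Nat.prod_factorization_eq_prod_primeFactors]
    push_cast
    rw [Real.log_prod]
    · apply sum_congr rfl
      intro p _
      rw [Real.log_pow]
    · intro p hp
      have := (Nat.prime_of_mem_primeFactors hp).pos
      positivity
  rw [h1]
  unfold ls
  calc ∑ p ∈ v.primeFactors, (v.factorization p : ℝ) * Real.log p ≤
        ∑ p ∈ v.primeFactors, (a.factorization p : ℝ) * Real.log p := by
        apply sum_le_sum
        intro p hp
        have h3 : 0 ≤ Real.log p := Real.log_nonneg (by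
          exact_mod_cast (Nat.prime_of_mem_primeFactors hp).one_lt.le)
        apply mul_le_mul_of_nonneg_right _ h3
        exact_mod_cast (Nat.factorization_le_iff_dvd hv0 ha).mpr hva p
    _ ≤ _ := by
        apply sum_le_sum_of_subset_of_nonneg
        · intro p hp
          rw [mem_filter, mem_Ioc]
          have hpp := Nat.prime_of_mem_primeFactors hp
          exact ⟨⟨hpp.pos, hv p hpp (Nat.dvd_of_mem_primeFactors hp)⟩, hpp⟩
        · intro p hp _
          rw [mem_filter] at hp
          have h3 : 0 ≤ Real.log p := Real.log_nonneg (by exact_mod_cast hp.2.one_lt.le)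
          positivity

lemma om_mono {P : Finset ℕ} {a b : ℕ} (h : a ∣ b) : om P a ≤ om P b := by
  unfold om
  apply sum_le_sum
  intro p _
  by_cases h1 : p ∣ a
  · rw [if_pos h1, if_pos (h1.trans h)]
  · rw [if_neg h1]; split_ifs <;> norm_num

lemma filter_filter_card (Q : Finset ℕ) (r : ℕ → Prop) [DecidablePred r] (a : ℕ) :
    ((Q.filter (fun q => r q ∧ q ∣ a)).card : ℝ) = om (Q.filter r) a := by
  rw [om_eq_card, filter_filter]

/-- the combinatorial heart: outside the bad sets, `a` lies in `ES` -/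
lemma mem_ES {h c C : ℕ} (hc : 1 ≤ c) (hC : 1 ≤ C) {η : ℝ} {N : ℕ}
    (hLL : 1 ≤ LL N)
    (hzc : c ≤ zN N) (hz2 : 2 ≤ zN N) (hyY : yN N ≤ pN η N)
    (h1 : rs (Q1 h N) ≤ (1 / 2 + 1 / 100) * LL N)
    (h2 : (1 / 2 - 1 / 100) * LL N ≤ rs (Q2 h N))
    {a : ℕ} (ha1 : 1 ≤ a) (haN : a ≤ N) (haS : a ∈ SS h c C)
    (b1 : |om (Q1 h N) a - rs (Q1 h N)| < LL N / 100)
    (b2 : |om (Q2 h N) a - rs (Q2 h N)| < LL N / 100)
    (b3 : om (Q3 N) a < LL N / 50)
    (b4 : ls (yN N) a < η / 4 * Real.log N)
    (b5 : ls (pN η N) a < Real.log N / 3)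
    (b6 : 2 / 3 * Real.log N + Real.log C ≤ Real.log a) :
    a ∈ ES c h (QN N) (Real.exp (-(LL N / 10))) (pN (η / 4) N) (pN η N) := by
  obtain ⟨U, v, hUv, hco, hsize, hmod, hjac⟩ := haS
  have ha0 : a ≠ 0 := by omega
  have haR : (0 : ℝ) < a := by exact_mod_cast ha1
  have hU0 : 0 < U := Nat.pos_of_ne_zero (by rintro rfl; simp at hUv; omega)
  have hv0 : 0 < v := Nat.pos_of_ne_zero (by rintro rfl; simp at hUv; omega)
  have hCR : (0 : ℝ) < C := by exact_mod_cast hC
  -- a large prime dividing `v`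
  obtain ⟨P, hP, hPv, hYP⟩ : ∃ P : ℕ, P.Prime ∧ P ∣ v ∧ pN η N < P := by
    by_contra hcon
    push Not at hcon
    have h3 := log_le_ls ha0 (Dvd.intro_left U hUv.symm) hcon
    have h4 : Real.log a = Real.log U + Real.log v := by
      rw [hUv]; push_cast
      rw [Real.log_mul (by positivity) (by positivity)]
    have h5 : 2 * Real.log U ≤ Real.log C + Real.log a := by
      have h6 : (U : ℝ) ^ 2 ≤ C * a := by exact_mod_cast hsize
      have h7 := Real.log_le_log (by positivity) h6
      rw [Real.log_pow, Real.log_mul (by positivity) (by positivity)] at h7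
      push_cast at h7
      exact h7
    have h8 : 0 ≤ Real.log C := Real.log_natCast_nonneg C
    linarith
  have hPa : P ∣ a := by rw [hUv]; exact Dvd.dvd.mul_left hPv U
  obtain ⟨v', hv'⟩ := hPv
  have hv'0 : 0 < v' := Nat.pos_of_ne_zero (by rintro rfl; simp at hv'; omega)
  have haP : a / P = U * v' := by
    rw [hUv, hv']
    rw [show U * (P * v') = P * (U * v') by ring, Nat.mul_div_cancel_left _ hP.pos]
  have haPU : a / P / U = v' := by rw [haP, Nat.mul_div_cancel_left _ hU0]
  have ha'0 : a / P ≠ 0 := by rw [haP]; positivity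
  have ha'dvd : a / P ∣ a := Nat.div_dvd_of_dvd hPa
  have hUGU : U ∈ GU h (a / P) := by
    rw [mem_GU, haPU]
    refine ⟨⟨?_, ha'0⟩, ?_, ?_⟩
    · rw [haP]; exact Dvd.intro _ rfl
    · rw [hv'] at hco
      exact Nat.Coprime.coprime_mul_left_right hco
    · intro p hp hpv
      exact hmod p hp (by rw [hv']; exact Dvd.dvd.mul_left hpv P)
  have hPnotQ : ∀ q ∈ QN N, q ≠ P := by
    intro q hq
    unfold QN at hq
    rw [mem_filter, mem_Ioc] at hq
    omega
  have hdvd_iff : ∀ q ∈ QN N, (q ∣ a / P ↔ q ∣ a) := by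
    intro q hq
    constructor
    · intro h3; exact h3.trans ha'dvd
    · intro h3
      have h4 : a = P * (a / P) := (Nat.mul_div_cancel' hPa).symm
      rw [h4, (QN_prime hq).dvd_mul] at h3
      rcases h3 with h5 | h5
      · exact absurd ((Nat.prime_dvd_prime_iff_eq (QN_prime hq) hP).mp h5) (hPnotQ q hq)
      · exact h5
  refine ⟨P, hP, hYP, hPa, ⟨?_, ?_⟩, U, hUGU, ?_⟩
  · -- principal terms
    refine (G0_le h (QN N) (fun q hq => QN_prime hq) (a / P)).trans ?_
    set n1 := ((QN N).filter (fun q => q % h = 1 ∧ q ∣ a / P)).card with hn1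
    set n2 := ((QN N).filter (fun q => q % h ≠ 1 ∧ q ∣ a / P)).card with hn2
    set n3 := ((a / P).primeFactors.filter (fun q => q ∉ QN N)).card with hn3
    have e1 : (n1 : ℝ) ≤ (1 / 2 + 1 / 50) * LL N := by
      have h3 : (n1 : ℝ) = om (Q1 h N) (a / P) := filter_filter_card _ _ _
      have h4 := om_mono (P := Q1 h N) ha'dvd
      rw [abs_lt] at b1
      rw [h3]
      linarith [b1.2]
    have e2 : (1 / 2 - 1 / 50) * LL N ≤ n2 := by
      have h3 : (n2 : ℝ) = om (Q2 h N) (a / P) := filter_filter_card _ _ _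
      have h4 : om (Q2 h N) (a / P) = om (Q2 h N) a := by
        unfold om
        apply sum_congr rfl
        intro q hq
        unfold Q2 at hq
        rw [mem_filter] at hq
        simp only [hdvd_iff q hq.1]
      rw [abs_lt] at b2
      rw [h3, h4]
      linarith [b2.1]
    have e3 : (n3 : ℝ) ≤ (1 / 50) * LL N := by
      have h3 : (n3 : ℝ) ≤ om (Q3 N) a := by
        rw [om_eq_card]
        have h4 : (a / P).primeFactors.filter (fun q => q ∉ QN N) ⊆
            (Q3 N).filter (fun q => q ∣ a) := by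
          intro q hq
          rw [mem_filter, Nat.mem_primeFactors] at hq
          unfold Q3
          rw [mem_filter, mem_filter, mem_filter, mem_Ioc]
          have h5 : q ∣ a := hq.1.2.1.trans ha'dvd
          exact ⟨⟨⟨⟨hq.1.1.pos, (Nat.le_of_dvd ha1 h5).trans haN⟩, hq.1.1⟩, hq.2⟩, h5⟩
        exact_mod_cast card_le_card h4
      linarith
    -- numerics
    have hlog2a := Real.log_two_gt_d9
    have hlog2b := Real.log_two_lt_d9
    have hlog32 : Real.log (3 / 2) ≤ 0.4159 := by
      -- `(3/2)^5 ≤ 2^3` gives `5 log (3/2) ≤ 3 log 2`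
      have h4 : Real.log ((3 / 2 : ℝ) ^ 5) ≤ Real.log ((2 : ℝ) ^ 3) :=
        Real.log_le_log (by norm_num) (by norm_num)
      rw [Real.log_pow, Real.log_pow] at h4
      push_cast at h4
      linarith
    have hpos : (0 : ℝ) < (1 / 2 : ℝ) ^ n2 * ((3 / 2 : ℝ) ^ n1 * 2 ^ n3) := by positivity
    rw [← Real.log_le_iff_le_exp hpos, Real.log_mul (by positivity) (by positivity),
      Real.log_mul (by positivity) (by positivity), Real.log_pow, Real.log_pow, Real.log_pow]
    have hhalf : Real.log (1 / 2) = - Real.log 2 := by rw [one_div, Real.log_inv]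
    rw [hhalf]
    have hlog32' : 0 < Real.log (3 / 2) := Real.log_pos (by norm_num)
    have f1 : (n1 : ℝ) * Real.log (3 / 2) ≤ ((1 / 2 + 1 / 50) * LL N) * 0.4159 := by
      apply mul_le_mul e1 hlog32 hlog32'.le
      positivity
    have f2 : ((1 / 2 - 1 / 50) * LL N) * 0.6931 ≤ (n2 : ℝ) * Real.log 2 := by
      apply mul_le_mul e2 (by linarith) (by norm_num) (Nat.cast_nonneg _)
    have f3 : (n3 : ℝ) * Real.log 2 ≤ ((1 / 50) * LL N) * 0.6932 := by
      apply mul_le_mul e3 (by linarith) (by linarith)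
      positivity
    nlinarith
  · -- the radical
    unfold pN
    apply Nat.le_floor
    have h3 : 0 < ∏ q ∈ (QN N).filter (fun q => q ∣ a / P), q := by
      apply prod_pos
      intro q hq
      rw [mem_filter] at hq
      exact (QN_prime hq.1).pos
    have h4 : (0 : ℝ) < ((∏ q ∈ (QN N).filter (fun q => q ∣ a / P), q : ℕ) : ℝ) := by
      exact_mod_cast h3
    rw [← Real.log_le_iff_le_exp h4]
    refine le_trans (log_prod_le (Y := yN N) (a := a) ?_ ha0 ?_) b4.le
    · intro q hq
      rw [mem_filter] at hq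
      refine ⟨QN_prime hq.1, ?_⟩
      have h5 := hq.1
      unfold QN at h5
      rw [mem_filter, mem_Ioc] at h5
      exact h5.1.2
    · intro q hq
      rw [mem_filter] at hq
      exact hq.2.trans ha'dvd
  · intro q hq hqU
    have hqz : zN N < q := by
      unfold QN at hq; rw [mem_filter, mem_Ioc] at hq; exact hq.1.1
    rw [haPU]
    have h3 : c * v' * P = c * v := by rw [hv']; ring
    rw [h3]
    apply hjac q (QN_prime hq) (by omega) hqU
    intro h4
    have := Nat.le_of_dvd hc h4
    omega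

end

end Pool.Agent.Work.MP_2738db_nt_V
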