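import Pool.Agent.Work.MP_2738db_nt_V.Params
import Pool.Agent.Work.MP_2738db_nt_V.BTAP

/-!
The contribution of large primes `l`.
-/

namespace Pool.Agent.Work.MP_2738db_nt_V

open Finset Filter Topology

noncomputable section

/-- the primes in `(Y, N]` that are `1` modulo `l` -/
def PL (l Y N : ℕ) : Finset ℕ := (Ioc Y N).filter (fun p => p.Prime ∧ p % l = 1)

lemma rs_PL_le {l : ℕ} (hl : l.Prime) (Y N : ℕ) (hY : 2 * l ^ 2 ≤ Y) (hN : 1 ≤ N) :
    rs (PL l Y N) ≤ (Real.log N / Real.log 2 + 1) * (880 / (l * Real.log Y)) := by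
  classical
  have hl2 := hl.two_le
  have hY8 : 8 ≤ Y := by nlinarith
  have hlog2 : 0 < Real.log 2 := Real.log_pos (by norm_num)
  have hlogN : 0 ≤ Real.log N := Real.log_natCast_nonneg N
  have hYR : (8 : ℝ) ≤ Y := by exact_mod_cast hY8
  have hlogY : 0 < Real.log Y := Real.log_pos (by linarith)
  have hlR : (2 : ℝ) ≤ l := by exact_mod_cast hl2
  by_cases hYN : Y < N
  swap
  · have : Ioc Y N = ∅ := by ext; simp only [mem_Ioc, notMem_empty, iff_false]; omega
    unfold PL rs
    rw [this]
    simp only [filter_empty, sum_empty]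
    positivity
  set J := Icc (Nat.log 2 Y) (Nat.log 2 N) with hJ
  have hmaps : ∀ P ∈ PL l Y N, Nat.log 2 P ∈ J := by
    intro P hP
    unfold PL at hP
    rw [mem_filter, mem_Ioc] at hP
    rw [hJ, mem_Icc]
    exact ⟨Nat.log_mono_right hP.1.1.le, Nat.log_mono_right hP.1.2⟩
  have hj0 : 1 ≤ Nat.log 2 Y := by
    apply Nat.le_log_of_pow_le (by norm_num)
    omega
  unfold rs
  rw [← sum_fiberwise_of_maps_to hmaps]
  have hbox : ∀ j ∈ J, ∑ p ∈ (PL l Y N).filter (fun P => Nat.log 2 P = j), 1 / (p : ℝ) ≤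
      880 / (l * Real.log Y) := by
    intro j hj
    rw [hJ, mem_Icc] at hj
    set Pj := (PL l Y N).filter (fun P => Nat.log 2 P = j) with hPj
    have hjpos : 1 ≤ j := hj0.trans hj.1
    have hjR : (Nat.log 2 Y : ℝ) ≤ j := by exact_mod_cast hj.1
    have hj0R : (1 : ℝ) ≤ Nat.log 2 Y := by exact_mod_cast hj0
    have hYlt : Y < 2 ^ (Nat.log 2 Y + 1) := Nat.lt_pow_succ_log_self (by norm_num) Y
    have hYltR : (Y : ℝ) < 2 ^ (Nat.log 2 Y + 1) := by exact_mod_cast hYlt
    have hlogYle : Real.log Y ≤ 2 * (j * Real.log 2) := by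
      have h5 := Real.log_le_log (by linarith) hYltR.le
      rw [Real.log_pow] at h5
      push_cast at h5
      nlinarith
    have hY2j : Y < 2 * 2 ^ j := by
      have h5 : 2 ^ (Nat.log 2 Y + 1) ≤ 2 ^ (j + 1) := Nat.pow_le_pow_right (by norm_num) (by omega)
      rw [pow_succ 2 j] at h5
      omega
    have hlsq : l ^ 2 < 2 ^ j := by omega
    have hlle : l ≤ 2 ^ j := by nlinarith
    -- the elements of the box
    have hmem : ∀ p ∈ Pj, 2 ^ j ≤ p ∧ p < 2 ^ (j + 1) ∧ p.Prime ∧ p % l = 1 := by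
      intro P hP
      rw [hPj, mem_filter] at hP
      unfold PL at hP
      rw [mem_filter, mem_Ioc] at hP
      have h3 : 2 ^ Nat.log 2 P ≤ P := Nat.pow_log_le_self 2 (by omega)
      have h4 : P < 2 ^ (Nat.log 2 P + 1) := Nat.lt_pow_succ_log_self (by norm_num) P
      rw [hP.2] at h3 h4
      exact ⟨h3, h4, hP.1.2⟩
    have hcard : (Pj.card : ℝ) ≤ 110 * ((2 ^ j / l + 1 : ℕ) : ℝ) / Real.log ((2 ^ j / l + 1 : ℕ) : ℝ) := by
      refine le_trans ?_ (bt_ap hl (2 ^ j - 1) (2 ^ j) hlle)
      have h5 : Pj ⊆ (Ioc (2 ^ j - 1) (2 ^ j - 1 + 2 ^ j)).filter (fun p => p.Prime ∧ p % l = 1) := by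
        intro p hp
        obtain ⟨e1, e2, e3, e4⟩ := hmem p hp
        rw [mem_filter, mem_Ioc]
        have h6 : 1 ≤ 2 ^ j := Nat.one_le_two_pow
        rw [pow_succ] at e2
        exact ⟨⟨by omega, by omega⟩, e3, e4⟩
      exact_mod_cast card_le_card h5
    -- size of `h`
    set H := 2 ^ j / l + 1 with hH
    have h2jR : (0 : ℝ) < 2 ^ j := by positivity
    have hl0 : (0 : ℝ) < l := by linarith
    have hHle : (H : ℝ) ≤ 2 * (2 ^ j / l) := by
      have h5 : ((2 ^ j / l : ℕ) : ℝ) ≤ (2 : ℝ) ^ j / l := by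
        have := Nat.cast_div_le (α := ℝ) (m := 2 ^ j) (n := l)
        push_cast at this
        exact this
      have h6 : (1 : ℝ) ≤ 2 ^ j / l := by
        rw [one_le_div hl0]
        exact_mod_cast hlle
      rw [hH]; push_cast at h5 ⊢; linarith
    have hHge : (2 : ℝ) ^ j / l ≤ H := by
      rw [div_le_iff₀ hl0]
      have h5 : 2 ^ j < (2 ^ j / l + 1) * l := by
        have := Nat.lt_div_mul_add (a := 2 ^ j) hl.pos
        rw [add_mul, one_mul]; omega
      rw [← hH] at h5
      exact_mod_cast h5.le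
    have hlogH : j * Real.log 2 / 2 ≤ Real.log H := by
      have h5 : Real.log ((2 : ℝ) ^ j / l) ≤ Real.log H := Real.log_le_log (by positivity) hHge
      rw [Real.log_div (by positivity) (by positivity), Real.log_pow] at h5
      have h6 : 2 * Real.log l ≤ j * Real.log 2 := by
        have h7 : (l : ℝ) ^ 2 ≤ 2 ^ j := by exact_mod_cast hlsq.le
        have h8 := Real.log_le_log (by positivity) h7
        rw [Real.log_pow, Real.log_pow] at h8
        push_cast at h8
        exact h8
      linarith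
    have hjl : 0 < j * Real.log 2 := by positivity
    have hlogH4 : Real.log Y / 4 ≤ Real.log H := by linarith
    calc ∑ p ∈ Pj, 1 / (p : ℝ) ≤ ∑ p ∈ Pj, 1 / (2 : ℝ) ^ j := by
          apply sum_le_sum
          intro p hp
          apply one_div_le_one_div_of_le h2jR
          exact_mod_cast (hmem p hp).1
      _ = Pj.card * (1 / (2 : ℝ) ^ j) := by rw [sum_const, nsmul_eq_mul]
      _ ≤ (110 * (H : ℝ) / Real.log H) * (1 / (2 : ℝ) ^ j) :=
          mul_le_mul_of_nonneg_right hcard (by positivity)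
      _ ≤ (110 * (2 * (2 ^ j / l)) / (Real.log Y / 4)) * (1 / (2 : ℝ) ^ j) := by
          apply mul_le_mul_of_nonneg_right _ (by positivity)
          apply div_le_div₀ (by positivity) (by linarith) (by positivity) hlogH4
      _ = 880 / (l * Real.log Y) := by
          field_simp
          norm_num
  refine (sum_le_sum hbox).trans ?_
  rw [sum_const, nsmul_eq_mul]
  apply mul_le_mul_of_nonneg_right _ (by positivity)
  rw [hJ, Nat.card_Icc]
  have h5 : ((Nat.log 2 N + 1 - Nat.log 2 Y : ℕ) : ℝ) ≤ (Nat.log 2 N : ℝ) + 1 := by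
    have : Nat.log 2 N + 1 - Nat.log 2 Y ≤ Nat.log 2 N + 1 := Nat.sub_le _ _
    exact_mod_cast this
  have h6 : (Nat.log 2 N : ℝ) ≤ Real.log N / Real.log 2 := by
    rw [le_div_iff₀ hlog2, ← Real.log_pow]
    apply Real.log_le_log (by positivity)
    exact_mod_cast Nat.pow_log_le_self 2 (by omega)
  linarith

/-- integers with two distinct divisors in a set of primes -/
lemma cnt_two_le (P : Finset ℕ) (hP : ∀ p ∈ P, p.Prime) (N : ℕ) :
    cnt {a | 2 ≤ om P a} N ≤ N * rs P ^ 2 := by
  have h1 : cnt {a | 2 ≤ om P a} N ≤ ∑ a ∈ Icc 1 N, ∑ p ∈ P, ∑ q ∈ P,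
      (if p ≠ q ∧ p * q ∣ a then (1 : ℝ) else 0) := by
    apply cnt_le_sum
    · intro a
      exact sum_nonneg fun p _ => sum_nonneg fun q _ => by split_ifs <;> norm_num
    · intro a _ _ ha
      have ha' : (2 : ℝ) ≤ om P a := ha
      rw [om_eq_card] at ha'
      have h2 : 1 < (P.filter (fun p => p ∣ a)).card := by
        have : 2 ≤ (P.filter (fun p => p ∣ a)).card := by exact_mod_cast ha'
        omega
      obtain ⟨p, hp, q, hq, hpq⟩ := one_lt_card.mp h2
      rw [mem_filter] at hp hq
      have hdvd : p * q ∣ a :=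
        ((Nat.coprime_primes (hP p hp.1) (hP q hq.1)).mpr hpq).mul_dvd_of_dvd_of_dvd hp.2 hq.2
      have h3 : (1 : ℝ) ≤ (if p ≠ q ∧ p * q ∣ a then (1 : ℝ) else 0) := by
        rw [if_pos ⟨hpq, hdvd⟩]
      refine h3.trans ?_
      refine le_trans ?_ (single_le_sum (f := fun p => ∑ q ∈ P,
        (if p ≠ q ∧ p * q ∣ a then (1 : ℝ) else 0))
        (fun p _ => sum_nonneg fun q _ => by split_ifs <;> norm_num) hp.1)
      exact single_le_sum (f := fun q => (if p ≠ q ∧ p * q ∣ a then (1 : ℝ) else 0))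
        (fun q _ => by split_ifs <;> norm_num) hq.1
  refine h1.trans ?_
  rw [sum_comm]
  simp_rw [sum_comm (s := Icc 1 N)]
  calc _ ≤ ∑ p ∈ P, ∑ q ∈ P, (N : ℝ) * (1 / p * (1 / q)) := by
        apply sum_le_sum
        intro p _
        apply sum_le_sum
        intro q _
        calc ∑ a ∈ Icc 1 N, (if p ≠ q ∧ p * q ∣ a then (1 : ℝ) else 0) ≤
              ∑ a ∈ Icc 1 N, (if p * q ∣ a then (1 : ℝ) else 0) := by
              apply sum_le_sum
              intro a _
              by_cases h : p * q ∣ a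
              · rw [if_pos h]; split_ifs <;> norm_num
              · rw [if_neg h, if_neg (fun h' => h h'.2)]
          _ ≤ (N : ℝ) / (p * q : ℕ) := sum_dvd_le N (p * q)
          _ = _ := by push_cast; ring
    _ = _ := by
        unfold rs
        rw [sq, sum_mul_sum, mul_sum]
        apply sum_congr rfl
        intro p _
        rw [mul_sum]

lemma cnt_biUnion {ι : Type*} (s : Finset ι) (E : ι → Set ℕ) (N : ℕ) :
    cnt (⋃ i ∈ s, E i) N ≤ ∑ i ∈ s, cnt (E i) N := by
  classical
  induction s using Finset.induction_on with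
  | empty => unfold cnt; simp
  | insert i s hi ih =>
    rw [Finset.set_biUnion_insert, sum_insert hi]
    exact (cnt_union _ _ N).trans (by linarith)

/-- the tail set -/
def Tl (K : ℕ) : Set ℕ := {a | ∃ l : ℕ, l.Prime ∧ K < l ∧
  ∀ p : ℕ, p.Prime → p ∣ a → p ≠ l → (p ^ l ≤ 2 ^ l * a ∨ p % l = 1)}

lemma sum_inv_sq (K M : ℕ) (hK : 1 ≤ K) : ∑ l ∈ Ioc K M, 1 / (l : ℝ) ^ 2 ≤ 1 / (K : ℝ) := by
  have h7 : ∀ M : ℕ, K ≤ M → ∑ d ∈ Ioc K M, 1 / (d : ℝ) ^ 2 ≤ 1 / (K : ℝ) - 1 / (M : ℝ) := by
    intro D hD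
    induction D, hD using Nat.le_induction with
    | base => simp
    | succ D hD ih =>
      rw [Finset.sum_Ioc_succ_top (by omega)]
      have hD' : (0 : ℝ) < D := by
        have : 0 < D := by omega
        exact_mod_cast this
      have h8 : 1 / ((D + 1 : ℕ) : ℝ) ^ 2 ≤ 1 / D - 1 / ((D + 1 : ℕ) : ℝ) := by
        push_cast
        rw [div_sub_div _ _ (by positivity) (by positivity),
          div_le_div_iff₀ (by positivity) (by positivity)]
        nlinarith
      linarith
  rcases le_or_gt K M with h | h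
  · have h1 := h7 M h
    have h2 : (0 : ℝ) ≤ 1 / (M : ℝ) := by positivity
    linarith
  · rw [Ioc_eq_empty (by omega)]
    simp

/-- the case `l ≥ log N`: `a` has no prime factor in `(6, w]`, `w < log N` -/
lemma no_small_prime {a l N p : ℕ} (hN : 1 ≤ N) (haN : a ≤ N) (hlN : Real.log N ≤ l)
    (hp6 : 6 < p) (hpl : p < l) (h : p ^ l ≤ 2 ^ l * a ∨ p % l = 1) : False := by
  rcases h with h | h
  · have hNR : (0 : ℝ) < N := by exact_mod_cast hN
    have h1 : (N : ℝ) ≤ Real.exp l := by
      rw [← Real.log_le_iff_le_exp hNR]; exact hlN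
    have h2 : ((7 : ℝ)) ^ l ≤ p ^ l := by
      apply pow_le_pow_left₀ (by norm_num)
      exact_mod_cast hp6
    have h3 : (p : ℝ) ^ l ≤ 2 ^ l * a := by exact_mod_cast h
    have h4 : (2 : ℝ) ^ l * a ≤ 2 ^ l * Real.exp l := by
      apply mul_le_mul_of_nonneg_left _ (by positivity)
      have : (a : ℝ) ≤ N := by exact_mod_cast haN
      linarith
    have h5 : (2 : ℝ) ^ l * Real.exp l = (2 * Real.exp 1) ^ l := by
      rw [mul_pow, ← Real.exp_nat_mul, mul_one]
    have h6 : (2 * Real.exp 1) ^ l < (7 : ℝ) ^ l := by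
      apply pow_lt_pow_left₀ _ (by positivity) (by omega)
      have := Real.exp_one_lt_d9
      linarith
    linarith
  · rw [Nat.mod_eq_of_lt hpl] at h
    omega

/-- the tail has small upper density -/
theorem tail_small {δ : ℝ} (hδ : 0 < δ) : ∃ K : ℕ, UD (Tl K) δ := by
  set R0 : ℝ := 36 / δ + 2 with hR0
  have hR0pos : 0 < R0 := by positivity
  set η : ℝ := Real.exp (-(2 * R0 + 1)) with hη
  have hη0 : 0 < η := Real.exp_pos _
  have hη1 : η ≤ 1 := by
    rw [hη]; apply Real.exp_le_one_iff.mpr; linarith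
  obtain ⟨K, hK⟩ := exists_nat_ge (max (4 / η) (max 1 ((5280 / η) ^ 2 * (3 / δ))))
  have hK1 : 4 / η ≤ K := (le_max_left _ _).trans hK
  have hK2 : (1 : ℝ) ≤ K := ((le_max_left _ _).trans (le_max_right _ _)).trans hK
  have hK3 : (5280 / η) ^ 2 * (3 / δ) ≤ K := ((le_max_right _ _).trans (le_max_right _ _)).trans hK
  have hK2' : 1 ≤ K := by exact_mod_cast hK2
  refine ⟨K, UD.of_eventually ?_⟩
  obtain ⟨x0, hx0, H⟩ := rs_PA_asymp (q := 1) (a := 1) isUnit_one (ε := 1 / 2) (by norm_num)
  -- `w N = ⌊log N⌋ - 1`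
  set w : ℕ → ℕ := fun N => ⌊Real.log N⌋₊ - 1 with hw
  have hwt : Tendsto w atTop atTop := by
    have h1 : Tendsto (fun N : ℕ => ⌊Real.log N⌋₊) atTop atTop :=
      tendsto_nat_floor_atTop.comp tendsto_logN
    exact (tendsto_sub_atTop_nat 1).comp h1
  have hexp2 : Tendsto (fun L : ℝ => Real.exp (η / 2 * L)) atTop atTop :=
    Real.tendsto_exp_atTop.comp (tendsto_id.const_mul_atTop (by linarith))
  have hexpL : Tendsto (fun L : ℝ => Real.exp (η * L) / L ^ 2) atTop atTop := by
    have h2 := (Real.tendsto_exp_div_pow_atTop 2).comp (tendsto_id.const_mul_atTop hη0)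
    have h3 : Tendsto (fun t : ℝ => η ^ 2 * (Real.exp (η * t) / (η * t) ^ 2)) atTop atTop :=
      h2.const_mul_atTop (by positivity)
    refine h3.congr' ?_
    filter_upwards [eventually_gt_atTop 0] with t ht
    field_simp
  have hmaxx : max x0 6 = max x0 6 := rfl
  filter_upwards [params1, pN_props hη0 hη1, hwt.eventually_ge_atTop (max x0 6),
    (tendsto_LL.comp hwt).eventually_ge_atTop (2 * (9 / δ) + 1 + LL (max x0 6)),
    tendsto_logN.eventually (hexp2.eventually_ge_atTop 4),
    tendsto_logN.eventually (hexpL.eventually_ge_atTop 4),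
    tendsto_logN.eventually_ge_atTop 2, (tendsto_natCast_atTop_atTop (R := ℝ)).eventually_ge_atTop 1,
    (show ∀ᶠ N : ℕ in atTop, x0 ≤ pN η N by
      have : Tendsto (pN η) atTop atTop := by
        unfold pN
        apply tendsto_nat_floor_atTop.comp
        apply Real.tendsto_exp_atTop.comp
        exact tendsto_logN.const_mul_atTop hη0
      exact this.eventually_ge_atTop x0)]
    with N h1 h2 hwN hLLw he2 heL hL2 hN1 hx0N
  obtain ⟨hN, h8, he, h4, hz, hy1, hy2, hzy⟩ := h1
  obtain ⟨g1, g2, g3, g4, g5, g6⟩ := h2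
  have hNR : (0 : ℝ) < N := by linarith
  have hN1' : 1 ≤ N := by omega
  set L := Real.log N with hL
  set Y := pN η N with hY
  have hL0 : 0 < L := by linarith
  have hYR : (2 : ℝ) ≤ Y := by exact_mod_cast g5
  have hlogY : 0 < Real.log Y := Real.log_pos (by linarith)
  have heL' : 4 * L ^ 2 ≤ Real.exp (η * L) := by
    rwa [le_div_iff₀ (by positivity)] at heL
  have hY2 : 2 * L ^ 2 ≤ Y := by linarith
  -- the three bad sets
  set PW : Finset ℕ := (Ioc (max x0 6) (w N)).filter Nat.Prime with hPW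
  set PY : Finset ℕ := (Ioc Y N).filter Nat.Prime with hPY
  set BA : Set ℕ := {a | rs PW ≤ |om PW a - rs PW|} with hBA
  set BB : Set ℕ := {a | rs PY / 2 ≤ |om PY a - rs PY|} with hBB
  set LS : Finset ℕ := (Ioc K ⌊L⌋₊).filter Nat.Prime with hLS
  set BC : Set ℕ := ⋃ l ∈ LS, {a | 2 ≤ om (PL l Y N) a} with hBC
  have hwL : (w N : ℝ) < L := by
    have h5 : w N + 1 ≤ ⌊L⌋₊ := by
      have : 6 ≤ w N := (le_max_right _ _).trans hwN
      rw [hL]
      simp only [hw] at this ⊢
      omega
    have h6 : ((w N + 1 : ℕ) : ℝ) ≤ L := le_trans (by exact_mod_cast h5) (Nat.floor_le hL0.le)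
    push_cast at h6
    linarith
  have hwNN : w N ≤ N := by
    have h5 : (w N : ℝ) ≤ N := by
      have h6 : L ≤ N := by
        have := Real.log_le_sub_one_of_pos hNR
        linarith
      linarith
    exact_mod_cast h5
  -- reciprocal sums
  have rW : 9 / δ ≤ rs PW := by
    have h5 := H (max x0 6) (w N) (le_max_left _ _) hwN
    rw [abs_le, PA_one] at h5
    simp only [Nat.totient_one, Nat.cast_one, inv_one, one_mul] at h5
    simp only [Function.comp_apply] at hLLw
    linarith [h5.1]
  have rY : R0 ≤ rs PY := by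
    have h5 := H Y N hx0N g2
    rw [abs_le, PA_one] at h5
    simp only [Nat.totient_one, Nat.cast_one, inv_one, one_mul] at h5
    have h6 : LL Y ≤ LL N - (2 * R0 + 1) := by
      have h7 : Real.log Y ≤ η * L := by
        have h8 := Real.log_le_log (by linarith) g3
        rwa [Real.log_exp] at h8
      have h8 : Real.log (Real.log Y) ≤ Real.log (η * L) := Real.log_le_log hlogY h7
      rw [Real.log_mul hη0.ne' hL0.ne', hη, Real.log_exp] at h8
      unfold LL
      linarith
    linarith [h5.1]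
  have hrW0 : 0 < rs PW := lt_of_lt_of_le (by positivity) rW
  have hrY0 : 0 < rs PY := lt_of_lt_of_le (by positivity) rY
  have hsub : cnt (Tl K) N ≤ cnt (BA ∪ (BB ∪ BC)) N := by
    apply cnt_mono
    rintro a ha1 haN ⟨l, hl, hKl, hla⟩
    have ha0 : a ≠ 0 := by omega
    by_contra hcon
    simp only [Set.mem_union, not_or] at hcon
    obtain ⟨nA, nB, nC⟩ := hcon
    have nA' : |om PW a - rs PW| < rs PW := not_le.mp nA
    have nB' : |om PY a - rs PY| < rs PY / 2 := not_le.mp nB
    rw [abs_lt] at nA' nB'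
    rcases le_or_gt L l with hlL | hlL
    · -- `l ≥ log N`
      have h5 : 0 < om PW a := by linarith [nA'.1]
      rw [om_eq_card] at h5
      have h6 : 0 < (PW.filter (fun p => p ∣ a)).card := by exact_mod_cast h5
      obtain ⟨p, hp⟩ := card_pos.mp h6
      rw [mem_filter, hPW, mem_filter, mem_Ioc] at hp
      obtain ⟨⟨⟨hp1, hp2⟩, hpp⟩, hpa⟩ := hp
      have hp6 : 6 < p := lt_of_le_of_lt (le_max_right _ _) hp1
      have hpl : p < l := by
        have h7 : (p : ℝ) < l := by
          have : (p : ℝ) ≤ w N := by exact_mod_cast hp2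
          linarith
        exact_mod_cast h7
      exact no_small_prime hN1' haN hlL hp6 hpl (hla p hpp hpa hpl.ne)
    · -- `l < log N`
      have h5 : 1 < om PY a := by
        have : 2 < R0 := by rw [hR0]; have : 0 < 36 / δ := by positivity
                            linarith
        linarith [nB'.1]
      rw [om_eq_card] at h5
      have h6 : 1 < (PY.filter (fun p => p ∣ a)).card := by exact_mod_cast h5
      -- all primes of `a` above `Y` are `1` modulo `l`
      have hall : ∀ p ∈ PY, p ∣ a → p % l = 1 := by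
        intro p hp hpa
        rw [hPY, mem_filter, mem_Ioc] at hp
        have hlp : p ≠ l := by
          intro h7
          have h8 : (Y : ℝ) < l := by rw [← h7]; exact_mod_cast hp.1.1
          nlinarith
        rcases hla p hp.2 hpa hlp with h7 | h7
        · exfalso
          have h8 : (p : ℝ) ^ l ≤ 2 ^ l * N := by
            have h9 : (p : ℝ) ^ l ≤ 2 ^ l * a := by exact_mod_cast h7
            have h10 : (a : ℝ) ≤ N := by exact_mod_cast haN
            have h11 : (2 : ℝ) ^ l * a ≤ 2 ^ l * N := mul_le_mul_of_nonneg_left h10 (by positivity)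
            linarith
          have h9 : 2 * Real.exp (η / 2 * L) ≤ p := by
            have h10 : (Y : ℝ) ≤ p := by exact_mod_cast hp.1.1.le
            have h11 : Real.exp (η * L) = Real.exp (η / 2 * L) * Real.exp (η / 2 * L) := by
              rw [← Real.exp_add]; congr 1; ring
            have h12 := Real.exp_pos (η / 2 * L)
            rw [h11] at g4
            nlinarith
          have h10 : (2 * Real.exp (η / 2 * L)) ^ l ≤ (p : ℝ) ^ l :=
            pow_le_pow_left₀ (by positivity) h9 l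
          rw [mul_pow, ← Real.exp_nat_mul] at h10
          have h11 : Real.exp L < Real.exp (l * (η / 2 * L)) := by
            apply Real.exp_lt_exp.mpr
            have h12 : (K : ℝ) ≤ l := by exact_mod_cast hKl.le
            have h13 : 4 ≤ K * η := by rwa [div_le_iff₀ hη0] at hK1
            have h14 : 2 * L ≤ l * (η / 2 * L) := by
              have : 4 ≤ l * η := by nlinarith
              nlinarith
            linarith
          have h12 : (N : ℝ) = Real.exp L := (Real.exp_log hNR).symm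
          rw [h12] at h8
          have h13 : (2 : ℝ) ^ l * Real.exp L < 2 ^ l * Real.exp (l * (η / 2 * L)) :=
            mul_lt_mul_of_pos_left h11 (by positivity)
          linarith
        · exact h7
      apply nC
      rw [hBC, Set.mem_iUnion₂]
      refine ⟨l, ?_, ?_⟩
      · rw [hLS, mem_filter, mem_Ioc]
        exact ⟨⟨hKl, Nat.le_floor hlL.le⟩, hl⟩
      · show (2 : ℝ) ≤ om (PL l Y N) a
        rw [om_eq_card]
        have h7 : PY.filter (fun p => p ∣ a) ⊆ (PL l Y N).filter (fun p => p ∣ a) := by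
          intro p hp
          rw [mem_filter] at hp ⊢
          refine ⟨?_, hp.2⟩
          have h8 := hall p hp.1 hp.2
          have h9 := hp.1
          rw [hPY, mem_filter, mem_Ioc] at h9
          unfold PL
          rw [mem_filter, mem_Ioc]
          exact ⟨h9.1, h9.2, h8⟩
        have h8 := card_le_card h7
        have h9 : 2 ≤ ((PL l Y N).filter (fun p => p ∣ a)).card := by omega
        exact_mod_cast h9
  have cA : cnt BA N ≤ δ / 3 * N := by
    have h5 := cnt_abnormal PW (fun p hp => by rw [hPW, mem_filter] at hp; exact hp.2) N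
      (fun p hp => by rw [hPW, mem_filter, mem_Ioc] at hp; omega) hrW0
    refine h5.trans ?_
    rw [div_le_iff₀ (by positivity)]
    have h6 : 9 ≤ rs PW * δ := by rwa [div_le_iff₀ hδ] at rW
    have h7 : 3 * rs PW ≤ δ / 3 * rs PW ^ 2 := by nlinarith
    calc 3 * rs PW * N ≤ (δ / 3 * rs PW ^ 2) * N := mul_le_mul_of_nonneg_right h7 hNR.le
      _ = _ := by ring
  have cB : cnt BB N ≤ δ / 3 * N := by
    have h5 := cnt_abnormal PY (fun p hp => by rw [hPY, mem_filter] at hp; exact hp.2) N
      (fun p hp => by rw [hPY, mem_filter, mem_Ioc] at hp; omega) (t := rs PY / 2) (by positivity)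
    refine h5.trans ?_
    rw [div_le_iff₀ (by positivity)]
    have h6 : 36 ≤ rs PY * δ := by
      have h8 : 36 / δ ≤ rs PY := by linarith
      rwa [div_le_iff₀ hδ] at h8
    have h7 : 3 * rs PY ≤ δ / 3 * (rs PY / 2) ^ 2 := by nlinarith
    calc 3 * rs PY * N ≤ (δ / 3 * (rs PY / 2) ^ 2) * N := mul_le_mul_of_nonneg_right h7 hNR.le
      _ = _ := by ring
  have cC : cnt BC N ≤ δ / 3 * N := by
    refine (cnt_biUnion LS _ N).trans ?_
    have h5 : ∀ l ∈ LS, cnt {a | 2 ≤ om (PL l Y N) a} N ≤ N * (5280 / η) ^ 2 * (1 / (l : ℝ) ^ 2) := by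
      intro l hl
      rw [hLS, mem_filter, mem_Ioc] at hl
      have hlL : (l : ℝ) ≤ L := le_trans (by exact_mod_cast hl.1.2) (Nat.floor_le hL0.le)
      have hl0 : (0 : ℝ) < l := by exact_mod_cast hl.2.pos
      have hYl : 2 * l ^ 2 ≤ Y := by
        have h6 : (2 : ℝ) * (l : ℝ) ^ 2 ≤ Y := by
          have : (l : ℝ) ^ 2 ≤ L ^ 2 := pow_le_pow_left₀ hl0.le hlL 2
          linarith
        exact_mod_cast h6
      have h6 := rs_PL_le hl.2 Y N hYl hN1'
      have h7 : (Real.log N / Real.log 2 + 1) * (880 / (l * Real.log Y)) ≤ 5280 / η * (1 / l) := by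
        have hlog2a := Real.log_two_gt_d9
        have e1 : L / Real.log 2 + 1 ≤ 3 * L := by
          have : L / Real.log 2 ≤ 2 * L := by
            rw [div_le_iff₀ (by linarith)]
            nlinarith
          linarith
        have e2 : 880 / (l * Real.log Y) ≤ 880 / (l * (η / 2 * L)) := by
          apply div_le_div_of_nonneg_left (by norm_num) (by positivity)
          exact mul_le_mul_of_nonneg_left g6 hl0.le
        calc (Real.log N / Real.log 2 + 1) * (880 / (l * Real.log Y)) ≤
              (3 * L) * (880 / (l * (η / 2 * L))) := by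
              apply mul_le_mul e1 e2 (by positivity) (by positivity)
          _ = 5280 / η * (1 / l) := by
              field_simp
              norm_num
      have h8 : rs (PL l Y N) ≤ 5280 / η * (1 / l) := h6.trans h7
      refine (cnt_two_le (PL l Y N) (fun p hp => by
        unfold PL at hp; rw [mem_filter] at hp; exact hp.2.1) N).trans ?_
      have h9 : rs (PL l Y N) ^ 2 ≤ (5280 / η * (1 / l)) ^ 2 :=
        pow_le_pow_left₀ (rs_nonneg _) h8 2
      calc (N : ℝ) * rs (PL l Y N) ^ 2 ≤ N * (5280 / η * (1 / l)) ^ 2 :=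
            mul_le_mul_of_nonneg_left h9 hNR.le
        _ = _ := by ring
    refine (sum_le_sum h5).trans ?_
    rw [← mul_sum]
    have h6 : ∑ l ∈ LS, 1 / (l : ℝ) ^ 2 ≤ 1 / (K : ℝ) := by
      refine le_trans ?_ (sum_inv_sq K ⌊L⌋₊ hK2')
      apply sum_le_sum_of_subset_of_nonneg (filter_subset _ _)
      intro l _ _; positivity
    calc (N : ℝ) * (5280 / η) ^ 2 * ∑ l ∈ LS, 1 / (l : ℝ) ^ 2 ≤
          N * (5280 / η) ^ 2 * (1 / (K : ℝ)) := mul_le_mul_of_nonneg_left h6 (by positivity)
      _ ≤ δ / 3 * N := by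
          rw [mul_one_div, div_le_iff₀ (by linarith)]
          have h7 : (5280 / η) ^ 2 ≤ δ / 3 * K := by
            have h8 : (5280 / η) ^ 2 * (3 / δ) = (5280 / η) ^ 2 / (δ / 3) := by
              field_simp
            rw [h8, div_le_iff₀ (by positivity)] at hK3
            linarith
          calc (N : ℝ) * (5280 / η) ^ 2 ≤ N * (δ / 3 * K) := mul_le_mul_of_nonneg_left h7 hNR.le
            _ = _ := by ring
  have u1 := cnt_union BA (BB ∪ BC) N
  have u2 := cnt_union BB BC N
  linarith

end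

end Pool.Agent.Work.MP_2738db_nt_V
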