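import Pool.Agent.Work.MP_2738db_nt_V.Density
import Pool.Agent.Work.MP_2738db_nt_V.Tail
import Pool.Agent.Work.MP_2738db_nt_V.Alg
import Pool.Agent.Work.MP_2738db_nt_V.Alg4

/-!
For almost all `a`, no odd power of `a` is a sum or difference of two coprime `d`-th powers, `d ≥ 3`.
-/

namespace Pool.Agent.Work.MP_2738db_nt_V

open Finset Filter Topology

open scoped NumberTheorySymbols

noncomputable section

/-- the integers without prime factors in a residue class -/
def AV (q : ℕ) (a : ZMod q) : Set ℕ := {n | ∀ p : ℕ, p.Prime → p ∣ n → (p : ZMod q) ≠ a}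

theorem AV_density {q : ℕ} [NeZero q] {a : ZMod q} (ha : IsUnit a) : UD (AV q a) 0 := by
  apply UD.of_forall
  intro δ hδ
  apply UD.of_eventually
  have hφ : 0 < (q.totient : ℝ)⁻¹ := by
    have : 0 < q.totient := Nat.totient_pos.mpr (NeZero.pos q)
    positivity
  set c : ℝ := (q.totient : ℝ)⁻¹ with hc
  obtain ⟨x0, hx0, H⟩ := rs_PA_asymp ha (ε := c / 2) (by linarith)
  filter_upwards [eventually_ge_atTop x0,
    tendsto_LL.eventually_ge_atTop (2 / c * (3 / δ) + 1 + LL x0)] with N hN hLL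
  have h1 := H x0 N le_rfl hN
  rw [abs_le] at h1
  have h2 : 3 / δ ≤ rs (PA q a x0 N) := by
    have h3 : 2 / c * (3 / δ) ≤ LL N - LL x0 - 1 := by linarith
    have h4 : 3 / δ ≤ c / 2 * (LL N - LL x0 - 1) := by
      have h5 : c / 2 * (2 / c * (3 / δ)) = 3 / δ := by field_simp
      rw [← h5]
      exact mul_le_mul_of_nonneg_left h3 (by linarith)
    nlinarith [h1.1]
  have hpos : 0 < rs (PA q a x0 N) := lt_of_lt_of_le (by positivity) h2
  have h3 : cnt (AV q a) N ≤ cnt {n | rs (PA q a x0 N) ≤ |om (PA q a x0 N) n - rs (PA q a x0 N)|} N := by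
    apply cnt_mono
    intro n _ _ hn
    have h4 : om (PA q a x0 N) n = 0 := by
      unfold om
      apply sum_eq_zero
      intro p hp
      rw [if_neg]
      intro hpn
      unfold PA at hp
      rw [mem_filter] at hp
      exact hn p hp.2.1 hpn hp.2.2
    show rs (PA q a x0 N) ≤ |om (PA q a x0 N) n - rs (PA q a x0 N)|
    rw [h4, zero_sub, abs_neg]
    exact le_abs_self _
  have h4 := cnt_abnormal (PA q a x0 N) (fun p hp => by unfold PA at hp; rw [mem_filter] at hp; exact hp.2.1) N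
    (fun p hp => by unfold PA at hp; rw [mem_filter, mem_Ioc] at hp; omega) hpos
  refine (h3.trans h4).trans ?_
  rw [div_le_iff₀ (by positivity)]
  have h6 : 3 ≤ rs (PA q a x0 N) * δ := by rwa [div_le_iff₀ hδ] at h2
  have h7 : 3 * rs (PA q a x0 N) ≤ δ * rs (PA q a x0 N) ^ 2 := by nlinarith
  calc 3 * rs (PA q a x0 N) * N ≤ (δ * rs (PA q a x0 N) ^ 2) * N :=
        mul_le_mul_of_nonneg_right h7 (Nat.cast_nonneg N)
    _ = _ := by ring

/-- a residue class of primes modulo `4 l` for which `l` is a nonresidue -/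
lemma exists_class {l : ℕ} (hl : l.Prime) (hl2 : l ≠ 2) : ∃ A : ZMod (4 * l), IsUnit A ∧
    ∀ p : ℕ, p.Prime → (p : ZMod (4 * l)) = A → J((l : ℤ) | p) = -1 ∧ p % l ≠ 1 := by
  obtain ⟨r, hr⟩ := exists_neg_one_prime l hl hl2
  have hco : Nat.Coprime 4 l := by
    have : Nat.Coprime (2 ^ 2) l :=
      Nat.Coprime.pow_left 2 ((Nat.coprime_primes Nat.prime_two hl).mpr (Ne.symm hl2))
    simpa using this
  have hl0 : NeZero l := ⟨hl.ne_zero⟩
  obtain ⟨n0, hn1, hn2⟩ := Nat.chineseRemainder hco 1 r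
  have hodd : Odd l := hl.odd_of_ne_two hl2
  refine ⟨(n0 : ZMod (4 * l)), ?_, ?_⟩
  · rw [ZMod.isUnit_iff_coprime]
    apply Nat.Coprime.mul_right
    · have h1 : n0 % 4 = 1 := hn1
      have h2 : Nat.Coprime n0 (2 ^ 2) := by
        apply Nat.Coprime.pow_right
        rw [Nat.coprime_comm, Nat.prime_two.coprime_iff_not_dvd]
        omega
      simpa using h2
    · rw [Nat.coprime_comm, hl.coprime_iff_not_dvd]
      intro h1
      have h2 : n0 % l = r % l := hn2
      have h3 : l ∣ r := by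
        apply Nat.dvd_of_mod_eq_zero
        rw [← h2]
        exact Nat.mod_eq_zero_of_dvd h1
      have h4 : J((r : ℤ) | l) = 0 := by
        rw [jacobiSym.eq_zero_iff_not_coprime, Int.gcd_natCast_natCast]
        intro h5
        have h6 := Nat.dvd_gcd h3 (dvd_refl l)
        rw [h5] at h6
        exact hl.one_lt.ne' (Nat.dvd_one.mp h6)
      rw [h4] at hr
      norm_num at hr
  · intro p hp hpA
    rw [ZMod.natCast_eq_natCast_iff] at hpA
    have h4 : p % 4 = 1 := by
      have h5 : p ≡ n0 [MOD 4] := hpA.of_dvd (Dvd.intro _ rfl)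
      have h6 : p ≡ 1 [MOD 4] := h5.trans hn1
      exact h6
    have h5 : p ≡ r [MOD l] := (hpA.of_dvd (Dvd.intro_left _ rfl)).trans hn2
    have h6 : J((p : ℤ) | l) = -1 := by
      rw [← hr]
      apply jacobiSym.mod_left'
      have : p % l = r % l := h5
      exact_mod_cast this
    refine ⟨?_, ?_⟩
    · rw [jacobiSym.quadratic_reciprocity_one_mod_four' hodd h4]
      exact h6
    · intro h7
      have h8 : J((p : ℤ) | l) = J(1 | l) := by
        apply jacobiSym.mod_left'
        have : p % l = 1 % l := by rw [h7, Nat.mod_eq_of_lt hl.one_lt]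
        exact_mod_cast this
      rw [h6, jacobiSym.one_left] at h8
      norm_num at h8

lemma tri_pow_odd {x : ℤ} (hx : x = 0 ∨ x = 1 ∨ x = -1) {m : ℕ} (hm : Odd m) : x ^ m = x := by
  rcases hx with rfl | rfl | rfl
  · exact zero_pow hm.pos.ne'
  · exact one_pow m
  · exact hm.neg_one_pow

lemma tri_pow_even {x : ℤ} (hx : x = 0 ∨ x = 1 ∨ x = -1) {m : ℕ} (hm : Even m) (hm0 : 1 ≤ m) :
    x ^ m = 0 ∨ x ^ m = 1 := by
  rcases hx with rfl | rfl | rfl
  · left; exact zero_pow (by omega)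
  · right; exact one_pow m
  · right; exact hm.neg_one_pow

/-- the class of nonresidue primes -/
def cl (l : ℕ) : ZMod (4 * l) :=
  open Classical in
  if h : l.Prime ∧ l ≠ 2 then (exists_class h.1 h.2).choose else 0

lemma cl_spec {l : ℕ} (hl : l.Prime) (hl2 : l ≠ 2) : IsUnit (cl l) ∧
    ∀ p : ℕ, p.Prime → (p : ZMod (4 * l)) = cl l → J((l : ℤ) | p) = -1 ∧ p % l ≠ 1 := by
  unfold cl
  rw [dif_pos ⟨hl, hl2⟩]
  exact (exists_class hl hl2).choose_spec

/-- the exceptional set for a fixed odd prime -/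
def EX (l : ℕ) : Set ℕ := SS l l (4 * l ^ 2) ∪ (SS l (l ^ 2) (4 * l ^ 2) ∪ AV (4 * l) (cl l))

lemma EX_density {l : ℕ} (hl : l.Prime) (hl2 : l ≠ 2) : UD (EX l) 0 := by
  have hl3 : 3 ≤ l := by
    have := hl.two_le
    omega
  have h0 : NeZero (4 * l) := ⟨by have := hl.pos; omega⟩
  have h1 := SS_density (h := l) (c := l) (C := 4 * l ^ 2) hl3 hl.one_lt.le
    (by have : 0 < l ^ 2 := by positivity
        omega)
  have h2 := SS_density (h := l) (c := l ^ 2) (C := 4 * l ^ 2) hl3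
    (by have : 0 < l ^ 2 := by positivity
        omega)
    (by have : 0 < l ^ 2 := by positivity
        omega)
  have h3 := AV_density (cl_spec hl hl2).1
  have h4 := h1.union (h2.union h3)
  simpa [EX] using h4

/-- membership for an odd prime exponent -/
lemma mem_odd_prime {a m l : ℕ} (ha : 1 ≤ a) (hm : 1 ≤ m) (hl : l.Prime) (hl2 : l ≠ 2) {X Y : ℤ}
    (hco : IsCoprime X Y) (h : (a : ℤ) ^ m = X ^ l - Y ^ l) (hcond : Odd m ∨ ¬ l ∣ a) (K : ℕ) :
    a ∈ Tl K ∨ (l ≤ K ∧ a ∈ EX l) := by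
  have hl3 : 3 ≤ l := by
    have := hl.two_le
    omega
  have hsq : ∀ U : ℕ, U ^ l ≤ (2 * l) ^ l * a → U ^ 2 ≤ 4 * l ^ 2 * a := by
    intro U hU
    rw [← Nat.pow_le_pow_iff_left (n := l) (by omega)]
    calc (U ^ 2) ^ l = (U ^ l) ^ 2 := by ring
      _ ≤ ((2 * l) ^ l * a) ^ 2 := Nat.pow_le_pow_left hU 2
      _ = (4 * l ^ 2) ^ l * a ^ 2 := by
          rw [mul_pow, ← pow_mul, mul_comm l 2, pow_mul]
          congr 2
          ring
      _ ≤ (4 * l ^ 2) ^ l * a ^ l := by
          apply Nat.mul_le_mul_left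
          exact Nat.pow_le_pow_right ha (by omega)
      _ = (4 * l ^ 2 * a) ^ l := (mul_pow _ _ _).symm
  by_cases hla : l ∣ a
  · -- `l ∣ a`
    obtain ⟨U, v, hUv, hcoUv, hlU, hsize, hmod, hjac⟩ := alg_two ha hm hl hl2 hco h hla
    have hodd : Odd m := hcond.resolve_right (not_not.mpr hla)
    rcases le_or_gt l K with hlK | hlK
    · right
      refine ⟨hlK, Or.inr (Or.inl ?_)⟩
      refine ⟨U, v, hUv, hcoUv, hsq U hsize, hmod, ?_⟩
      intro q hq hq2 hqU hqc
      have hql : q ≠ l := by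
        rintro rfl
        exact hqc (dvd_pow_self q two_ne_zero)
      have h1 := hjac q hq hqU hql
      rw [jacobiSym.pow_left, tri_pow_odd (jacobiSym.trichotomy _ _) hodd] at h1
      push_cast
      rw [jacobiSym.mul_left, h1, mul_one, jacobiSym.pow_left]
      apply jacobiSym.sq_one
      rw [Int.gcd_natCast_natCast]
      exact (Nat.coprime_primes hl hq).mpr (Ne.symm hql)
    · left
      refine ⟨l, hl, hlK, ?_⟩
      intro p hp hpa hpl
      rw [hUv, hp.dvd_mul] at hpa
      rcases hpa with h1 | h1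
      · left
        have h2 : p * l ∣ U :=
          ((Nat.coprime_primes hp hl).mpr hpl).mul_dvd_of_dvd_of_dvd h1 hlU
        have hU0 : 0 < U := Nat.pos_of_ne_zero (by rintro rfl; simp at hUv; omega)
        have h3 : p * l ≤ U := Nat.le_of_dvd hU0 h2
        have h4 : (p * l) ^ l ≤ (2 * l) ^ l * a := (Nat.pow_le_pow_left h3 l).trans hsize
        rw [mul_pow, mul_pow] at h4
        have h5 : l ^ l * p ^ l ≤ l ^ l * (2 ^ l * a) := by
          calc l ^ l * p ^ l = p ^ l * l ^ l := mul_comm _ _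
            _ ≤ 2 ^ l * l ^ l * a := h4
            _ = _ := by ring
        exact Nat.le_of_mul_le_mul_left h5 (Nat.pow_pos hl.pos)
      · right; exact hmod p hp h1
  · -- `l ∤ a`
    obtain ⟨U, v, hUv, hcoUv, hsize, hmod, hjac⟩ := alg_one ha hm hl hl2 hco h hla
    have hsize' : U ^ l ≤ (2 * l) ^ l * a := by
      refine hsize.trans (Nat.mul_le_mul_right _ ?_)
      apply Nat.pow_le_pow_left
      have := hl.one_lt
      omega
    rcases le_or_gt l K with hlK | hlK
    · right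
      refine ⟨hlK, ?_⟩
      rcases Nat.even_or_odd m with hme | hmo
      · right; right
        intro p hp hpa hpA
        obtain ⟨h1, h2⟩ := (cl_spec hl hl2).2 p hp hpA
        have h3 : p ∣ U := by
          rw [hUv, hp.dvd_mul] at hpa
          rcases hpa with h4 | h4
          · exact h4
          · exact absurd (hmod p hp h4) h2
        have h4 := hjac p hp h3
        rw [jacobiSym.mul_left, h1, jacobiSym.pow_left] at h4
        rcases tri_pow_even (jacobiSym.trichotomy (v : ℤ) p) hme hm with h5 | h5 <;>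
          rw [h5] at h4 <;> norm_num at h4
      · left
        refine ⟨U, v, hUv, hcoUv, hsq U hsize', hmod, ?_⟩
        intro q hq hq2 hqU _
        have h1 := hjac q hq hqU
        rw [jacobiSym.mul_left, jacobiSym.pow_left, tri_pow_odd (jacobiSym.trichotomy _ _) hmo] at h1
        push_cast
        rw [jacobiSym.mul_left, h1]
    · left
      refine ⟨l, hl, hlK, ?_⟩
      intro p hp hpa hpl
      rw [hUv, hp.dvd_mul] at hpa
      rcases hpa with h1 | h1
      · left
        have hU0 : 0 < U := Nat.pos_of_ne_zero (by rintro rfl; simp at hUv; omega)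
        exact (Nat.pow_le_pow_left (Nat.le_of_dvd hU0 h1) l).trans hsize
      · right; exact hmod p hp h1

/-- the exceptional set for fourth powers -/
def EX4 : Set ℕ := SS 4 2 4 ∪ (SS 4 1 4 ∪ AV 8 3)

lemma EX4_density : UD EX4 0 := by
  have h1 := SS_density (h := 4) (c := 2) (C := 4) (by norm_num) (by norm_num) (by norm_num)
  have h2 := SS_density (h := 4) (c := 1) (C := 4) (by norm_num) (by norm_num) (by norm_num)
  have h3 : UD (AV 8 3) 0 := AV_density (by decide)
  have h4 := h1.union (h2.union h3)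
  simpa [EX4] using h4

/-- membership for differences of fourth powers -/
lemma mem_four_sub {a m x y : ℕ} (ha : 1 ≤ a) (hm : 1 ≤ m) (hco : Nat.Coprime x y)
    (h : a ^ m + y ^ 4 = x ^ 4) (hcond : Odd m ∨ ¬ 2 ∣ a) : a ∈ EX4 := by
  by_cases h2a : 2 ∣ a
  · have hodd : Odd m := hcond.resolve_right (not_not.mpr h2a)
    obtain ⟨U, v, hUv, hcoUv, hsize, hmod, hjac⟩ := alg4_even ha hm hco h h2a
    right; left
    refine ⟨U, v, hUv, hcoUv, hsize, hmod, ?_⟩
    intro q hq hq2 hqU _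
    have h1 := hjac q hq hq2 hqU
    rw [jacobiSym.pow_left, tri_pow_odd (jacobiSym.trichotomy _ _) hodd] at h1
    rw [one_mul, h1]
  · obtain ⟨U, v, hUv, hcoUv, hsize, hmod, hjac⟩ := alg4_odd ha hm hco h h2a
    rcases Nat.even_or_odd m with hme | hmo
    · right; right
      intro p hp hpa hpA
      have h8 : p % 8 = 3 := by
        have h9 : ((p : ℕ) : ZMod 8) = ((3 : ℕ) : ZMod 8) := by simpa using hpA
        rw [ZMod.natCast_eq_natCast_iff] at h9
        exact h9
      have h3 : p ∣ U := by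
        rw [hUv, hp.dvd_mul] at hpa
        rcases hpa with h4 | h4
        · exact h4
        · have := hmod p hp h4
          omega
      have hp2 : p ≠ 2 := by rintro rfl; omega
      have h4 := hjac p hp hp2 h3
      have hpodd : Odd p := hp.odd_of_ne_two hp2
      have h5 : J(2 | p) = -1 := by
        rw [jacobiSym.at_two hpodd, ZMod.χ₈_nat_mod_eight, h8]
        decide
      rw [jacobiSym.mul_left, h5, jacobiSym.pow_left] at h4
      rcases tri_pow_even (jacobiSym.trichotomy (v : ℤ) p) hme hm with h6 | h6 <;>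
        rw [h6] at h4 <;> norm_num at h4
    · left
      refine ⟨U, v, hUv, hcoUv, hsize, hmod, ?_⟩
      intro q hq hq2 hqU _
      have h1 := hjac q hq hq2 hqU
      rw [jacobiSym.mul_left, jacobiSym.pow_left, tri_pow_odd (jacobiSym.trichotomy _ _) hmo] at h1
      push_cast
      rw [jacobiSym.mul_left, h1]

/-- membership for sums of fourth powers -/
lemma mem_four_add {a m x y : ℕ} (ha : 1 ≤ a) (hm : 1 ≤ m) (hco : Nat.Coprime x y)
    (h : a ^ m = x ^ 4 + y ^ 4) : a ∈ EX4 := by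
  obtain ⟨hmod, h4⟩ := alg4_add hm hco h
  right; left
  by_cases h2a : 2 ∣ a
  · obtain ⟨v, hv⟩ := h2a
    have hv2 : ¬ 2 ∣ v := by
      rintro ⟨w, rfl⟩
      apply h4
      rw [hv]
      exact ⟨w, by ring⟩
    refine ⟨2, v, hv, (Nat.prime_two.coprime_iff_not_dvd).mpr hv2, by omega, ?_, ?_⟩
    · intro p hp hpv
      apply hmod p hp
      · rintro rfl; exact hv2 hpv
      · rw [hv]; exact Dvd.dvd.mul_left hpv 2
    · intro q hq hq2 hqU _
      exact absurd ((Nat.prime_dvd_prime_iff_eq hq Nat.prime_two).mp hqU) hq2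
  · refine ⟨1, a, by ring, Nat.coprime_one_left a, by omega, ?_, ?_⟩
    · intro p hp hpa
      exact hmod p hp (by rintro rfl; exact h2a hpa) hpa
    · intro q hq _ hqU _
      exact absurd (Nat.dvd_one.mp hqU) hq.one_lt.ne'

/-- the conclusion of the theorem for `a, m` and the exponent `d` -/
def Good (a m d : ℕ) : Prop :=
  Even m ∧ (∀ l : ℕ, l.Prime → l ≠ 2 → l ∣ d → l ∣ a) ∧ (4 ∣ d → 2 ∣ a)

/-- the exceptional set -/
def Bad : Set ℕ := {a | 1 ≤ a ∧ ∃ m d : ℕ, ∃ X Y : ℤ, 1 ≤ m ∧ 3 ≤ d ∧ IsCoprime X Y ∧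
  ((a : ℤ) ^ m = X ^ d + Y ^ d ∨ (a : ℤ) ^ m = X ^ d - Y ^ d) ∧ ¬ Good a m d}

lemma Bad_subset (K : ℕ) : Bad ⊆ Tl K ∪ (EX4 ∪ ⋃ l ∈ (Icc 1 K).filter (fun l => l.Prime ∧ l ≠ 2), EX l) := by
  rintro a ⟨ha, m, d, X, Y, hm, hd, hco, heq, hbad⟩
  -- an odd prime `l ∣ d` with `m` odd or `l ∤ a`, or `4 ∣ d` and `m` odd or `a` odd
  have hcases : (∃ l : ℕ, l.Prime ∧ l ≠ 2 ∧ l ∣ d ∧ (Odd m ∨ ¬ l ∣ a)) ∨
      (4 ∣ d ∧ (Odd m ∨ ¬ 2 ∣ a)) := by
    by_cases hme : Even m
    · unfold Good at hbad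
      by_cases h1 : ∀ l : ℕ, l.Prime → l ≠ 2 → l ∣ d → l ∣ a
      · by_cases h2 : 4 ∣ d
        · right
          refine ⟨h2, Or.inr ?_⟩
          intro h3
          exact hbad ⟨hme, h1, fun _ => h3⟩
        · exact absurd ⟨hme, h1, fun h => absurd h h2⟩ hbad
      · left
        push Not at h1
        obtain ⟨l, h2, h3, h4, h5⟩ := h1
        exact ⟨l, h2, h3, h4, Or.inr h5⟩
    · rw [Nat.not_even_iff_odd] at hme
      rcases Nat.four_dvd_or_exists_odd_prime_and_dvd_of_two_lt (by omega : 2 < d) with h1 | ⟨l, h1, h2, h3⟩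
      · right; exact ⟨h1, Or.inl hme⟩
      · left
        refine ⟨l, h1, ?_, h2, Or.inl hme⟩
        rintro rfl
        exact absurd h3 (by decide)
  rcases hcases with ⟨l, hl, hl2, ⟨j, hj⟩, hcond⟩ | ⟨⟨j, hj⟩, hcond⟩
  · -- odd prime
    have hodd : Odd l := hl.odd_of_ne_two hl2
    have key : ∃ X' Y' : ℤ, IsCoprime X' Y' ∧ (a : ℤ) ^ m = X' ^ l - Y' ^ l := by
      rcases heq with h | h
      · refine ⟨X ^ j, -(Y ^ j), (hco.pow).neg_right, ?_⟩
        rw [hodd.neg_pow, ← pow_mul, ← pow_mul, mul_comm j l, ← hj, h]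
        ring
      · refine ⟨X ^ j, Y ^ j, hco.pow, ?_⟩
        rw [← pow_mul, ← pow_mul, mul_comm j l, ← hj, h]
    obtain ⟨X', Y', hco', h'⟩ := key
    rcases mem_odd_prime ha hm hl hl2 hco' h' hcond K with h1 | ⟨h1, h2⟩
    · exact Or.inl h1
    · right; right
      rw [Set.mem_iUnion₂]
      refine ⟨l, ?_, h2⟩
      rw [mem_filter, mem_Icc]
      exact ⟨⟨hl.one_lt.le, h1⟩, hl, hl2⟩
  · -- fourth powers
    right; left
    have hco4 : Nat.Coprime (X.natAbs ^ j) (Y.natAbs ^ j) := by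
      apply Nat.Coprime.pow
      exact Int.isCoprime_iff_gcd_eq_one.mp hco
    have hX : X ^ d = ((X.natAbs ^ j : ℕ) : ℤ) ^ 4 := by
      have h1 : ((X.natAbs ^ j : ℕ) : ℤ) ^ 4 = (((X.natAbs : ℕ) : ℤ) ^ 4) ^ j := by push_cast; ring
      rw [h1, Int.natCast_natAbs, hj, pow_mul]
      congr 1
      exact (Even.pow_abs (by decide) X).symm
    have hY : Y ^ d = ((Y.natAbs ^ j : ℕ) : ℤ) ^ 4 := by
      have h1 : ((Y.natAbs ^ j : ℕ) : ℤ) ^ 4 = (((Y.natAbs : ℕ) : ℤ) ^ 4) ^ j := by push_cast; ring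
      rw [h1, Int.natCast_natAbs, hj, pow_mul]
      congr 1
      exact (Even.pow_abs (by decide) Y).symm
    rcases heq with h | h
    · apply mem_four_add ha hm hco4
      rw [hX, hY] at h
      exact_mod_cast h
    · apply mem_four_sub ha hm hco4 _ hcond
      rw [hX, hY] at h
      have h1 : (a : ℤ) ^ m + ((Y.natAbs ^ j : ℕ) : ℤ) ^ 4 = ((X.natAbs ^ j : ℕ) : ℤ) ^ 4 := by
        rw [h]; ring
      exact_mod_cast h1

theorem Bad_density : UD Bad 0 := by
  apply UD.of_forall
  intro δ hδ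
  obtain ⟨K, hK⟩ := tail_small hδ
  have h1 : UD (⋃ l ∈ (Icc 1 K).filter (fun l => l.Prime ∧ l ≠ 2), EX l) 0 := by
    apply UD.biUnion
    intro l hl
    rw [mem_filter] at hl
    exact EX_density hl.2.1 hl.2.2
  have h2 := hK.union (EX4_density.union h1)
  rw [add_zero, add_zero] at h2
  exact h2.mono (Bad_subset K)

end

end Pool.Agent.Work.MP_2738db_nt_V
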