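import Pool.Agent.Work.MP_2738db_nt_V.Abel
import Pool.Agent.Work.MP_2738db_nt_V.Mert

/-!
The parameters as functions of `N`, and their asymptotic properties.
-/

namespace Pool.Agent.Work.MP_2738db_nt_V

open Finset Filter Topology

noncomputable section

/-- `⌈(log N) ^ 6⌉` -/
def zN (N : ℕ) : ℕ := ⌈(Real.log N) ^ 6⌉₊

/-- `⌊exp (log N / log log N)⌋` -/
def yN (N : ℕ) : ℕ := ⌊Real.exp (Real.log N / LL N)⌋₊

/-- `⌊N ^ η⌋` -/
def pN (η : ℝ) (N : ℕ) : ℕ := ⌊Real.exp (η * Real.log N)⌋₊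

lemma tendsto_logN : Tendsto (fun N : ℕ => Real.log N) atTop atTop :=
  Real.tendsto_log_atTop.comp tendsto_natCast_atTop_atTop

lemma tendsto_LL : Tendsto LL atTop atTop := Real.tendsto_log_atTop.comp tendsto_logN

/-- properties of `t = log log N` that hold for large `N` -/
lemma ev_t {f : ℝ → Prop} (h : ∀ᶠ t in atTop, f t) : ∀ᶠ N : ℕ in atTop, f (LL N) :=
  tendsto_LL.eventually h

lemma exp_LL {N : ℕ} (h : 0 < LL N) : Real.exp (LL N) = Real.log N ∧ 1 < Real.log N := by
  have h1 : 1 < Real.log N := by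
    by_contra hc
    have h2 : Real.log (Real.log N) ≤ 0 := Real.log_nonpos (Real.log_natCast_nonneg N) (not_lt.mp hc)
    unfold LL at h
    linarith
  refine ⟨?_, h1⟩
  unfold LL
  exact Real.exp_log (by linarith)

lemma log_eventually {K ε : ℝ} (hK : 0 < K) (hε : 0 < ε) :
    ∀ᶠ t : ℝ in atTop, Real.log (K * t) ≤ ε * t := by
  have h1 : Tendsto (fun t : ℝ => Real.exp (ε * t) / t) atTop atTop := by
    have h2 := (Real.tendsto_exp_div_pow_atTop 1).comp (tendsto_id.const_mul_atTop hε)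
    have h3 : Tendsto (fun t : ℝ => ε * (Real.exp (ε * t) / (ε * t) ^ 1)) atTop atTop :=
      h2.const_mul_atTop hε
    refine h3.congr' ?_
    filter_upwards [eventually_gt_atTop 0] with t ht
    field_simp
  filter_upwards [h1.eventually_ge_atTop K, eventually_gt_atTop 0] with t h2 ht
  have h3 : K * t ≤ Real.exp (ε * t) := by rwa [← le_div_iff₀ ht]
  rw [Real.log_le_iff_le_exp (by positivity)]
  exact h3

/-- `exp t ≥ t ^ 3` and `t` large -/
lemma exp_ge : ∀ᶠ t : ℝ in atTop, 6 * t + 2 ≤ Real.exp t / t ∧ 8 ≤ t := by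
  filter_upwards [(Real.tendsto_exp_div_pow_atTop 3).eventually_ge_atTop 1,
    eventually_ge_atTop 8] with t h1 ht
  refine ⟨?_, ht⟩
  have ht0 : 0 < t := by linarith
  rw [le_div_iff₀ (by positivity), one_mul] at h1
  rw [le_div_iff₀ ht0]
  have h2 := mul_nonneg ht0.le (sub_nonneg.mpr ht)
  have h3 := mul_nonneg (mul_nonneg ht0.le ht0.le) (sub_nonneg.mpr ht)
  have h4 : t ^ 3 = t * t * t := by ring
  nlinarith

lemma two_log_two : 2 * Real.log 2 ≤ 2 := by
  have := Real.log_two_lt_d9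
  linarith

/-- the basic properties of the parameters -/
lemma params1 : ∀ᶠ N : ℕ in atTop, 2 ≤ N ∧ 8 ≤ LL N ∧ Real.exp (LL N) = Real.log N ∧
    6 * LL N + 2 ≤ Real.log N / LL N ∧
    (zN N : ℝ) ≤ 2 * (Real.log N) ^ 6 ∧ Real.exp (Real.log N / LL N) / 2 ≤ yN N ∧
    (yN N : ℝ) ≤ Real.exp (Real.log N / LL N) ∧ zN N ≤ yN N := by
  filter_upwards [ev_t exp_ge, eventually_ge_atTop 2] with N h1 hN
  obtain ⟨h1, h8⟩ := h1
  have h0 : 0 < LL N := by linarith
  obtain ⟨he, hL1⟩ := exp_LL h0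
  rw [he] at h1
  have hz : (zN N : ℝ) ≤ 2 * (Real.log N) ^ 6 := by
    have h2 : (1 : ℝ) ≤ (Real.log N) ^ 6 := one_le_pow₀ hL1.le
    have h3 := (Nat.ceil_lt_add_one (a := (Real.log N) ^ 6) (by positivity)).le
    unfold zN
    linarith
  have hbig : (2 : ℝ) ≤ Real.exp (Real.log N / LL N) := by
    have := Real.add_one_le_exp (Real.log N / LL N)
    linarith
  have hy1 : Real.exp (Real.log N / LL N) / 2 ≤ yN N := by
    have := Nat.lt_floor_add_one (Real.exp (Real.log N / LL N))
    unfold yN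
    linarith
  have hy2 : (yN N : ℝ) ≤ Real.exp (Real.log N / LL N) := Nat.floor_le (Real.exp_pos _).le
  refine ⟨hN, h8, he, h1, hz, hy1, hy2, ?_⟩
  have h4 : 2 * (Real.log N) ^ 6 ≤ Real.exp (Real.log N / LL N) / 2 := by
    have h5 : (Real.log N) ^ 6 = Real.exp (6 * LL N) := by
      rw [← he, ← Real.exp_nat_mul]; norm_num
    have h6 : (4 : ℝ) ≤ Real.exp 2 := by
      have h7 := two_log_two
      have h8 : Real.exp (2 * Real.log 2) ≤ Real.exp 2 := Real.exp_le_exp.mpr h7
      have h9 : Real.exp (2 * Real.log 2) = 4 := by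
        rw [two_mul, Real.exp_add, Real.exp_log (by norm_num)]; norm_num
      linarith
    have h7 : Real.exp (6 * LL N + 2) ≤ Real.exp (Real.log N / LL N) := Real.exp_le_exp.mpr h1
    rw [Real.exp_add] at h7
    rw [h5]
    have h8 := Real.exp_pos (6 * LL N)
    nlinarith
  have h5 : (zN N : ℝ) ≤ yN N := hz.trans (h4.trans hy1)
  exact_mod_cast h5

lemma zN_tendsto : Tendsto zN atTop atTop := by
  unfold zN
  apply tendsto_nat_ceil_atTop.comp
  exact (tendsto_pow_atTop (by norm_num)).comp tendsto_logN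

/-- double logarithms of the parameters -/
lemma params2 {ε : ℝ} (hε : 0 < ε) : ∀ᶠ N : ℕ in atTop,
    (1 - ε) * LL N ≤ LL (yN N) ∧ LL (yN N) ≤ LL N ∧ LL (zN N) ≤ ε * LL N ∧ 0 ≤ LL (zN N) := by
  filter_upwards [params1, ev_t (log_eventually (K := 2) (by norm_num) hε),
    ev_t (log_eventually (K := 7) (by norm_num) hε), zN_tendsto.eventually_ge_atTop 3]
    with N h h2 h7 hz3
  obtain ⟨hN, h8, he, h1, hz, hy1, hy2, hzy⟩ := h
  have h0 : 0 < LL N := by linarith
  have hL1 : 1 < Real.log N := (exp_LL h0).2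
  have hz3' : (3 : ℝ) ≤ zN N := by exact_mod_cast hz3
  have hlogz1 : 1 ≤ Real.log (zN N) := by
    rw [Real.le_log_iff_exp_le (by linarith)]
    have := Real.exp_one_lt_d9
    linarith
  have hzy' : (zN N : ℝ) ≤ yN N := by exact_mod_cast hzy
  refine ⟨?_, ?_, ?_, ?_⟩
  · -- lower bound for `log log y`
    have h3 : Real.log N / LL N - Real.log 2 ≤ Real.log (yN N) := by
      have h4 := Real.log_le_log (by positivity) hy1
      rw [Real.log_div (Real.exp_pos _).ne' (by norm_num), Real.log_exp] at h4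
      exact h4
    have h4 : Real.log N / (2 * LL N) ≤ Real.log (yN N) := by
      have h5 : Real.log N / (2 * LL N) = (Real.log N / LL N) / 2 := by
        rw [mul_comm, div_mul_eq_div_div]
      have h6 := two_log_two
      rw [h5]
      linarith
    have h5 : Real.log (Real.log N / (2 * LL N)) ≤ Real.log (Real.log (yN N)) :=
      Real.log_le_log (by positivity) h4
    rw [Real.log_div (by linarith) (by positivity)] at h5
    unfold LL at h5 h2 ⊢
    linarith
  · unfold LL
    apply Real.log_le_log (by linarith [Real.log_le_log (by linarith) hzy'])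
    have h3 := Real.log_le_log (by linarith) hy2
    rw [Real.log_exp] at h3
    refine h3.trans ?_
    apply div_le_self (by linarith) (by linarith)
  · have h3 : Real.log (zN N) ≤ 7 * LL N := by
      have h4 := Real.log_le_log (by linarith) hz
      rw [Real.log_mul (by norm_num) (by positivity), Real.log_pow] at h4
      have h5 := two_log_two
      have h6 : Real.log (Real.log N) = LL N := rfl
      rw [h6] at h4
      push_cast at h4
      linarith
    have h4 : Real.log (Real.log (zN N)) ≤ Real.log (7 * LL N) := Real.log_le_log (by linarith) h3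
    have h5 : LL (zN N) = Real.log (Real.log (zN N)) := rfl
    rw [h5]
    linarith
  · unfold LL
    exact Real.log_nonneg hlogz1

/-- the primes in `(z, y]` -/
def QN (N : ℕ) : Finset ℕ := (Ioc (zN N) (yN N)).filter Nat.Prime

lemma PA_one (x y : ℕ) : PA 1 1 x y = (Ioc x y).filter Nat.Prime := by
  unfold PA
  ext p
  simp only [mem_filter, and_congr_right_iff, and_iff_left_iff_imp]
  intro _ _
  exact Subsingleton.elim _ _

lemma rs_Q1 {h : ℕ} (hh : 1 ≤ h) {ε : ℝ} (hε : 0 < ε) : ∀ᶠ N : ℕ in atTop,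
    rs (PA h 1 (zN N) (yN N)) ≤ ((h.totient : ℝ)⁻¹ + ε) * LL N := by
  have : NeZero h := ⟨by omega⟩
  obtain ⟨x0, hx0, H⟩ := rs_PA_asymp (q := h) (a := 1) isUnit_one (ε := ε / 2) (by linarith)
  filter_upwards [params1, params2 (ε := 1) (by norm_num), zN_tendsto.eventually_ge_atTop x0]
    with N h1 h2 h3
  obtain ⟨hN, h8, he, h1, hz, hy1, hy2, hzy⟩ := h1
  have h4 := H (zN N) (yN N) h3 hzy
  rw [abs_le] at h4
  have h5 : (0 : ℝ) ≤ (h.totient : ℝ)⁻¹ := by positivity
  obtain ⟨-, h6, -, h7⟩ := h2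
  have h8' : LL (yN N) - LL (zN N) ≤ LL N := by linarith
  have h9 : (h.totient : ℝ)⁻¹ * (LL (yN N) - LL (zN N)) ≤ (h.totient : ℝ)⁻¹ * LL N :=
    mul_le_mul_of_nonneg_left h8' h5
  nlinarith [h4.2]

lemma rs_Q {ε : ℝ} (hε : 0 < ε) : ∀ᶠ N : ℕ in atTop, (1 - ε) * LL N ≤ rs (QN N) := by
  obtain ⟨x0, hx0, H⟩ := rs_PA_asymp (q := 1) (a := 1) isUnit_one (ε := ε / 4) (by linarith)
  filter_upwards [params1, params2 (ε := ε / 4) (by linarith), zN_tendsto.eventually_ge_atTop x0]
    with N h1 h2 h3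
  obtain ⟨hN, h8, he, h1, hz, hy1, hy2, hzy⟩ := h1
  have h4 := H (zN N) (yN N) h3 hzy
  rw [abs_le, PA_one] at h4
  simp only [Nat.totient_one, Nat.cast_one, inv_one, one_mul] at h4
  obtain ⟨h5, h6, h7, h9⟩ := h2
  unfold QN
  nlinarith [h4.1]

lemma rs_all {ε : ℝ} (hε : 0 < ε) : ∀ᶠ N : ℕ in atTop,
    rs ((Ioc 0 N).filter Nat.Prime) ≤ (1 + ε) * LL N := by
  obtain ⟨x0, hx0, H⟩ := rs_PA_asymp (q := 1) (a := 1) isUnit_one (ε := ε / 2) (by linarith)
  filter_upwards [eventually_ge_atTop x0, tendsto_LL.eventually_ge_atTop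
    ((x0 + (1 + ε / 2) * |LL x0| + ε / 2) / (ε / 2))] with N hN h1
  rw [div_le_iff₀ (by linarith)] at h1
  have h2 := H x0 N le_rfl hN
  rw [abs_le, PA_one] at h2
  simp only [Nat.totient_one, Nat.cast_one, inv_one, one_mul] at h2
  have h3 : rs ((Ioc 0 N).filter Nat.Prime) = rs ((Ioc 0 x0).filter Nat.Prime) +
      rs ((Ioc x0 N).filter Nat.Prime) := by
    unfold rs
    rw [← sum_union]
    · rw [← filter_union]
      congr 2
      ext k
      simp only [mem_union, mem_Ioc]
      omega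
    · rw [disjoint_left]
      intro k h3 h4
      simp only [mem_filter, mem_Ioc] at h3 h4
      omega
  have h4 : rs ((Ioc 0 x0).filter Nat.Prime) ≤ x0 := by
    unfold rs
    calc _ ≤ ∑ p ∈ (Ioc 0 x0).filter Nat.Prime, (1 : ℝ) := by
          apply sum_le_sum
          intro p hp
          rw [mem_filter, mem_Ioc] at hp
          rw [div_le_one (by exact_mod_cast hp.1.1)]
          exact_mod_cast hp.1.1
      _ ≤ ∑ p ∈ Ioc 0 x0, (1 : ℝ) :=
          sum_le_sum_of_subset_of_nonneg (filter_subset _ _) fun _ _ _ => zero_le_one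
      _ = x0 := by simp
  have h5 := neg_abs_le (LL x0)
  rw [h3]
  nlinarith [h2.2]

/-- properties of `pN` -/
lemma pN_props {η : ℝ} (hη : 0 < η) (hη1 : η ≤ 1) : ∀ᶠ N : ℕ in atTop,
    yN N ≤ pN η N ∧ pN η N ≤ N ∧ (pN η N : ℝ) ≤ Real.exp (η * Real.log N) ∧
    Real.exp (η * Real.log N) / 2 ≤ pN η N ∧ 2 ≤ pN η N ∧
    η / 2 * Real.log N ≤ Real.log (pN η N) := by
  filter_upwards [params1, tendsto_LL.eventually_ge_atTop (1 / η),
    tendsto_logN.eventually_ge_atTop (4 / η)] with N h1 h2 h3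
  obtain ⟨hN, h8, he, h1, hz, hy1, hy2, hzy⟩ := h1
  have hLL : 0 < LL N := by linarith
  have hL1 : 1 < Real.log N := (exp_LL hLL).2
  have hN0 : (0 : ℝ) < N := by
    have : 0 < N := by omega
    exact_mod_cast this
  rw [div_le_iff₀ hη] at h3 h2
  have hbig : (4 : ℝ) ≤ Real.exp (η * Real.log N) := by
    have := Real.add_one_le_exp (η * Real.log N)
    linarith
  have hlow : Real.exp (η * Real.log N) / 2 ≤ pN η N := by
    have := Nat.lt_floor_add_one (Real.exp (η * Real.log N))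
    unfold pN
    linarith
  refine ⟨?_, ?_, Nat.floor_le (Real.exp_pos _).le, hlow, ?_, ?_⟩
  · unfold yN pN
    apply Nat.floor_mono
    apply Real.exp_le_exp.mpr
    rw [div_le_iff₀ hLL]
    nlinarith
  · unfold pN
    have h4 : Real.exp (η * Real.log N) ≤ N := by
      calc Real.exp (η * Real.log N) ≤ Real.exp (Real.log N) := by
            apply Real.exp_le_exp.mpr
            nlinarith
        _ = N := Real.exp_log hN0
    have h5 := Nat.floor_mono h4
    rwa [Nat.floor_natCast] at h5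
  · have h4 : (2 : ℝ) ≤ pN η N := by linarith
    exact_mod_cast h4
  · have h4 := Real.log_le_log (by positivity) hlow
    rw [Real.log_div (Real.exp_pos _).ne' (by norm_num), Real.log_exp] at h4
    have h5 := two_log_two
    nlinarith

end

end Pool.Agent.Work.MP_2738db_nt_V
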