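import Pool.Agent.Work.MP_2738db_nt_V.Basic

/-!
The Turan-Kubilius inequality for the number of prime divisors in a finite set of primes, and a
first moment bound for smooth parts.
-/

namespace Pool.Agent.Work.MP_2738db_nt_V

open Finset Filter Topology

noncomputable section

/-- the number of `p ∈ P` that divide `a` -/
def om (P : Finset ℕ) (a : ℕ) : ℝ := ∑ p ∈ P, if p ∣ a then (1 : ℝ) else 0

/-- `∑_{p ∈ P} 1 / p` -/
def rs (P : Finset ℕ) : ℝ := ∑ p ∈ P, 1 / (p : ℝ)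

lemma om_nonneg (P : Finset ℕ) (a : ℕ) : 0 ≤ om P a :=
  sum_nonneg fun p _ => by split_ifs <;> norm_num

lemma rs_nonneg (P : Finset ℕ) : 0 ≤ rs P := sum_nonneg fun p _ => by positivity

lemma om_eq_card (P : Finset ℕ) (a : ℕ) : om P a = (P.filter (fun p => p ∣ a)).card := by
  unfold om
  rw [← sum_filter]
  simp

lemma sum_dvd (N d : ℕ) : ∑ a ∈ Icc 1 N, (if d ∣ a then (1 : ℝ) else 0) = (N / d : ℕ) := by
  rw [← sum_filter]
  rw [sum_const, nsmul_eq_mul, mul_one]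
  have h := Nat.Ioc_filter_dvd_card_eq_div N d
  have h2 : Icc 1 N = Ioc 0 N := by ext; simp [mem_Icc, mem_Ioc, Nat.lt_iff_add_one_le]
  rw [h2, h]

lemma sum_dvd_le (N d : ℕ) : ∑ a ∈ Icc 1 N, (if d ∣ a then (1 : ℝ) else 0) ≤ (N : ℝ) / d := by
  rw [sum_dvd]
  exact Nat.cast_div_le

lemma sum_dvd_ge (N d : ℕ) (hd : 0 < d) :
    (N : ℝ) / d - 1 ≤ ∑ a ∈ Icc 1 N, (if d ∣ a then (1 : ℝ) else 0) := by
  rw [sum_dvd]
  have h := Nat.lt_div_mul_add (a := N) hd
  have h1 : (N : ℝ) < (N / d : ℕ) * d + d := by exact_mod_cast h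
  have hd' : (0 : ℝ) < d := by exact_mod_cast hd
  rw [sub_le_iff_le_add, div_le_iff₀ hd']
  linarith

lemma sum_om_le (P : Finset ℕ) (N : ℕ) : ∑ a ∈ Icc 1 N, om P a ≤ N * rs P := by
  unfold om rs
  rw [sum_comm, mul_sum]
  apply sum_le_sum
  intro p _
  refine (sum_dvd_le N p).trans (le_of_eq ?_)
  ring

lemma sum_om_ge (P : Finset ℕ) (hP : ∀ p ∈ P, 0 < p) (N : ℕ) :
    N * rs P - P.card ≤ ∑ a ∈ Icc 1 N, om P a := by
  unfold om rs
  rw [sum_comm, mul_sum]
  have h : ∑ p ∈ P, ((N : ℝ) * (1 / (p : ℝ)) - 1) ≤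
      ∑ p ∈ P, ∑ a ∈ Icc 1 N, (if p ∣ a then (1 : ℝ) else 0) := by
    apply sum_le_sum
    intro p hp
    refine le_trans (le_of_eq ?_) (sum_dvd_ge N p (hP p hp))
    ring
  rw [sum_sub_distrib] at h
  simpa using h

lemma sum_om_sq_le (P : Finset ℕ) (hP : ∀ p ∈ P, p.Prime) (N : ℕ) :
    ∑ a ∈ Icc 1 N, om P a ^ 2 ≤ N * rs P ^ 2 + N * rs P := by
  have h1 : ∀ a, om P a ^ 2 = ∑ p ∈ P, ∑ q ∈ P,
      (if p ∣ a then (1 : ℝ) else 0) * (if q ∣ a then (1 : ℝ) else 0) := by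
    intro a
    unfold om
    rw [sq, sum_mul_sum]
  simp_rw [h1]
  rw [sum_comm]
  simp_rw [sum_comm (s := Icc 1 N)]
  have h2 : ∀ p ∈ P, ∀ q ∈ P, ∑ a ∈ Icc 1 N,
      (if p ∣ a then (1 : ℝ) else 0) * (if q ∣ a then (1 : ℝ) else 0) ≤
      N * (1 / (p : ℝ) * (1 / (q : ℝ))) + (if p = q then (N : ℝ) * (1 / p) else 0) := by
    intro p hp q hq
    by_cases hpq : p = q
    · subst hpq
      rw [if_pos rfl]
      have h3 : ∑ a ∈ Icc 1 N, (if p ∣ a then (1 : ℝ) else 0) * (if p ∣ a then (1 : ℝ) else 0) =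
          ∑ a ∈ Icc 1 N, (if p ∣ a then (1 : ℝ) else 0) := by
        apply sum_congr rfl
        intro a _
        split_ifs <;> norm_num
      rw [h3]
      have h4 := sum_dvd_le N p
      have h5 : (0 : ℝ) ≤ N * (1 / (p : ℝ) * (1 / (p : ℝ))) := by positivity
      have h6 : (N : ℝ) / p = N * (1 / p) := by ring
      linarith
    · rw [if_neg hpq]
      have hco : Nat.Coprime p q := (Nat.coprime_primes (hP p hp) (hP q hq)).mpr hpq
      have h3 : ∑ a ∈ Icc 1 N, (if p ∣ a then (1 : ℝ) else 0) * (if q ∣ a then (1 : ℝ) else 0) =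
          ∑ a ∈ Icc 1 N, (if p * q ∣ a then (1 : ℝ) else 0) := by
        apply sum_congr rfl
        intro a _
        have h4 : p * q ∣ a ↔ p ∣ a ∧ q ∣ a := by
          constructor
          · intro h
            exact ⟨(Dvd.intro _ rfl).trans h, (Dvd.intro_left _ rfl).trans h⟩
          · rintro ⟨h, h'⟩
            exact hco.mul_dvd_of_dvd_of_dvd h h'
        by_cases hA : p ∣ a <;> by_cases hB : q ∣ a <;> simp [hA, hB, h4]
      rw [h3]
      refine (sum_dvd_le N (p * q)).trans (le_of_eq ?_)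
      push_cast
      ring
  calc _ ≤ ∑ p ∈ P, ∑ q ∈ P, (N * (1 / (p : ℝ) * (1 / (q : ℝ))) +
        (if p = q then (N : ℝ) * (1 / p) else 0)) := by
        apply sum_le_sum
        intro p hp
        exact sum_le_sum fun q hq => h2 p hp q hq
    _ = N * rs P ^ 2 + N * rs P := by
        simp_rw [sum_add_distrib]
        congr 1
        · unfold rs
          rw [sq, sum_mul_sum, mul_sum]
          apply sum_congr rfl
          intro p _
          rw [mul_sum]
        · unfold rs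
          rw [mul_sum]
          apply sum_congr rfl
          intro p hp
          rw [sum_ite_eq, if_pos hp]

/-- Turan-Kubilius -/
theorem variance_le (P : Finset ℕ) (hP : ∀ p ∈ P, p.Prime) (N : ℕ) :
    ∑ a ∈ Icc 1 N, (om P a - rs P) ^ 2 ≤ rs P * (N + 2 * P.card) := by
  have h1 := sum_om_sq_le P hP N
  have h2 := sum_om_ge P (fun p hp => (hP p hp).pos) N
  have h3 : ∑ a ∈ Icc 1 N, (om P a - rs P) ^ 2 = ∑ a ∈ Icc 1 N, om P a ^ 2 -
      2 * rs P * ∑ a ∈ Icc 1 N, om P a + N * rs P ^ 2 := by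
    have h4 : ∀ a, (om P a - rs P) ^ 2 = om P a ^ 2 - 2 * rs P * om P a + rs P ^ 2 := by
      intro a; ring
    simp_rw [h4]
    rw [sum_add_distrib, sum_sub_distrib, ← mul_sum]
    simp
  rw [h3]
  have h5 := rs_nonneg P
  nlinarith

/-- Turan-Kubilius: few integers have an abnormal number of divisors in `P` -/
theorem cnt_abnormal (P : Finset ℕ) (hP : ∀ p ∈ P, p.Prime) (N : ℕ) (hPN : ∀ p ∈ P, p ≤ N)
    {t : ℝ} (ht : 0 < t) :
    cnt {a | t ≤ |om P a - rs P|} N ≤ 3 * rs P * N / t ^ 2 := by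
  have hcard : (P.card : ℝ) ≤ N := by
    have h1 : P ⊆ Icc 1 N := by
      intro p hp
      rw [mem_Icc]
      exact ⟨(hP p hp).pos, hPN p hp⟩
    have h2 := card_le_card h1
    simp only [Nat.card_Icc, Nat.add_sub_cancel] at h2
    exact_mod_cast h2
  have h1 := variance_le P hP N
  have h2 : cnt {a | t ≤ |om P a - rs P|} N ≤
      (∑ a ∈ Icc 1 N, (om P a - rs P) ^ 2) / t ^ 2 := by
    apply cnt_markov (by positivity) (fun a => sq_nonneg _)
    intro a _ _ ha
    rw [← sq_abs (om P a - rs P)]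
    exact pow_le_pow_left₀ ht.le ha 2
  refine h2.trans ?_
  apply div_le_div_of_nonneg_right _ (by positivity)
  have h3 := rs_nonneg P
  nlinarith

/-- first moment bound for `om` -/
theorem cnt_om_ge (P : Finset ℕ) (N : ℕ) {t : ℝ} (ht : 0 < t) :
    cnt {a | t ≤ om P a} N ≤ N * rs P / t := by
  refine (cnt_markov ht (f := om P) (om_nonneg P) ?_).trans ?_
  · intro a _ _ ha; exact ha
  · apply div_le_div_of_nonneg_right (sum_om_le P N) ht.le

end

end Pool.Agent.Work.MP_2738db_nt_V
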